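import Pool.Agent.Lib.MP_562b47_mp.ED.Defs
import Pool.Agent.Lib.MP_562b47_mp.Str.Apri

/-!
Module ED-Apri (MP_562b47_mp): a priori bound of the fractional moments, with a factor which does
not depend on `V x`, `V z`.

PROOF.  `Str.apri` (for every real symmetric matrix with positive absorption, `S.G ν = (H + diag (ν + i y))⁻¹`;
take `U = 0` (`ι := Empty` or `Unit`), `y = a`): `∫∫ ‖S.G (...) x z‖ ^ s ≤ C`.  `GM A (ua a V) x z` is the complex
conjugate of `S.G V x z` (real symmetric `A`, `V` real), so the norms are equal.  `Str.unif = unif` by `rfl`.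
Then Fubini for the coordinates `x`, `z` (`lintegral` of `Function.update`: e.g.
`MeasureTheory.lmarginal_singleton`, `lmarginal_union`, or `measurePreserving_piEquivPiSubtypeProd`), pull out `F`.
The case `x = z` is included in `Str.apri` (there `update (update V x v) z u` with `z = x`).
-/

open Matrix MeasureTheory Finset
open scoped ENNReal

namespace Pool.Agent.Lib.MP_562b47_mp.ED

open Pool.Agent.Lib.MP_562b47_mp.AL Pool.Agent.Lib.MP_562b47_mp

private theorem apriG_norm {ι : Type} [Fintype ι] [DecidableEq ι] {A : Matrix ι ι ℝ}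
    (hA : A.IsSymm) (a : ℝ) (V : ι → ℝ) (x z : ι) :
    ‖GM A (ua a V) x z‖ =
      ‖(Str.Sys.mk A (0 : Matrix ι Empty ℝ) (fun _ => a)).G (fun w => ((V w : ℝ) : ℂ)) x z‖ := by
  have h1 : HM A (ua a V) = ((Str.Sys.mk A (0 : Matrix ι Empty ℝ) (fun _ => a)).K
      (fun w => ((V w : ℝ) : ℂ)))ᴴ := by
    ext p q
    rw [Matrix.conjTranspose_apply, HM_apply]
    unfold Str.Sys.K
    simp only [Matrix.add_apply, Matrix.map_apply, Matrix.smul_apply, Matrix.mul_apply,
      Matrix.diagonal_apply, Finset.univ_eq_empty, Finset.sum_empty, smul_zero, add_zero]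
    rw [hA.apply p q]
    by_cases h : p = q
    · subst h
      simp [ua]
      ring
    · rw [if_neg h, if_neg (Ne.symm h)]
      simp
  rw [GM_symm hA, GM, h1, ← Matrix.conjTranspose_nonsing_inv, Matrix.conjTranspose_apply]
  unfold Str.Sys.G
  rw [norm_star]

private theorem apriG_two {c : ℝ} (hc : 0 < c) {ι : Type} [Fintype ι] [DecidableEq ι] (x : ι)
    {g : (ι → ℝ) → ℝ≥0∞} (hg : Measurable g) :
    ∫⁻ V, g V ∂(Measure.pi fun _ : ι => unif c) =
      ∫⁻ V, ∫⁻ v, g (Function.update V x v) ∂(unif c) ∂(Measure.pi fun _ : ι => unif c) := by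
  have := unif_prob hc
  have h1 : MeasurePreserving (fun p : (ι → ℝ) × ℝ => Function.update p.1 x p.2)
      ((Measure.pi fun _ : ι => unif c).prod (unif c)) (Measure.pi fun _ : ι => unif c) :=
    Str.mp_update hc x
  rw [← h1.lintegral_comp hg]
  exact lintegral_prod (fun p : (ι → ℝ) × ℝ => g (Function.update p.1 x p.2))
    (hg.comp h1.measurable).aemeasurable

private theorem apriG_root {a t : ℝ} (ha : 0 < a) (ht : 0 ≤ t) (h : a * a * t ^ 2 ≤ 1) :
    t ≤ a⁻¹ := by
  rw [inv_eq_one_div, le_div_iff₀ ha]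
  by_contra hcon
  push Not at hcon
  nlinarith [mul_pos ha ha, mul_nonneg ht ha.le]

/-- from Bochner integrals to Lebesgue integrals -/
private theorem apriG_conv {c s b C : ℝ} (hc : 0 < c) (hs : 0 < s) {g : ℝ × ℝ → ℂ}
    (hg : Measurable g) (hb : ∀ p, ‖g p‖ ≤ b)
    (h : ∫ v, ∫ u, ‖g (v, u)‖ ^ s ∂(unif c) ∂(unif c) ≤ C) :
    ∫⁻ v, ∫⁻ u, ‖g (v, u)‖ₑ ^ s ∂(unif c) ∂(unif c) ≤ ENNReal.ofReal C := by
  have := unif_prob hc
  have hreal : Measurable fun p : ℝ × ℝ => ‖g p‖ ^ s := hg.norm.pow_const s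
  have hbs : ∀ p, ‖g p‖ ^ s ≤ b ^ s := fun p => Real.rpow_le_rpow (norm_nonneg _) (hb p) hs.le
  have hint1 : ∀ v : ℝ, Integrable (fun u : ℝ => ‖g (v, u)‖ ^ s) (unif c) := by
    intro v
    refine Integrable.of_bound (C := b ^ s) ?_ (ae_of_all _ fun u => ?_)
    · exact (hreal.comp (measurable_const.prodMk measurable_id)).aestronglyMeasurable
    · rw [Real.norm_of_nonneg (by positivity)]
      exact hbs (v, u)
  have hint2 : Integrable (fun v : ℝ => ∫ u : ℝ, ‖g (v, u)‖ ^ s ∂(unif c)) (unif c) := by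
    refine Integrable.of_bound (C := b ^ s) ?_ (ae_of_all _ fun v => ?_)
    · exact hreal.stronglyMeasurable.integral_prod_right'.aestronglyMeasurable
    · rw [Real.norm_of_nonneg (integral_nonneg fun u => by positivity)]
      calc _ ≤ ∫ _ : ℝ, b ^ s ∂(unif c) :=
            integral_mono (hint1 v) (integrable_const _) fun u => hbs (v, u)
        _ = b ^ s := by simp
  have e3 : ∀ v : ℝ, ∫⁻ u, ‖g (v, u)‖ₑ ^ s ∂(unif c) =
      ENNReal.ofReal (∫ u : ℝ, ‖g (v, u)‖ ^ s ∂(unif c)) := by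
    intro v
    rw [ofReal_integral_eq_lintegral_ofReal (hint1 v) (ae_of_all _ fun u => by positivity)]
    refine lintegral_congr fun u => ?_
    rw [← ofReal_norm, ENNReal.ofReal_rpow_of_nonneg (norm_nonneg _) hs.le]
  rw [lintegral_congr e3, ← ofReal_integral_eq_lintegral_ofReal hint2
    (ae_of_all _ fun v => integral_nonneg fun u => by positivity)]
  exact ENNReal.ofReal_le_ofReal h

theorem apriG {c s : ℝ} (hc : 0 < c) (hs : 0 < s) (hs1 : s < 1) : ∃ C : ℝ, 1 ≤ C ∧
    ∀ (ι : Type) [Fintype ι] [DecidableEq ι] (A : Matrix ι ι ℝ), A.IsSymm → ∀ a : ℝ, 0 < a →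
      ∀ (x z : ι) (F : (ι → ℝ) → ℝ≥0∞), Measurable F →
        (∀ V v, F (Function.update V x v) = F V) → (∀ V v, F (Function.update V z v) = F V) →
        ∫⁻ V, ‖GM A (ua a V) x z‖ₑ ^ s * F V ∂(Measure.pi fun _ : ι => unif c) ≤
          ENNReal.ofReal C * ∫⁻ V, F V ∂(Measure.pi fun _ : ι => unif c) := by
  obtain ⟨C, hC, h⟩ := Str.apri hc hs hs1
  have := unif_prob hc
  refine ⟨C, hC, ?_⟩
  intro ι _ _ A hA a ha x z F hF hx hz
  have hmeasG : Measurable fun V : ι → ℝ => GM A (ua a V) x z := by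
    refine measurable_GM' A (fun w => ?_) x z
    unfold ua
    fun_prop
  have hmg : Measurable fun V : ι → ℝ => ‖GM A (ua a V) x z‖ₑ ^ s * F V :=
    (hmeasG.enorm.pow_const s).mul hF
  have hm1 : Measurable fun V : ι → ℝ => ∫⁻ u, ‖GM A (ua a (Function.update V z u)) x z‖ₑ ^ s *
      F (Function.update V z u) ∂(unif c) := by
    have h1 : Measurable fun p : (ι → ℝ) × ℝ => ‖GM A (ua a (Function.update p.1 z p.2)) x z‖ₑ ^ s *
      F (Function.update p.1 z p.2) := hmg.comp (Str.measurable_update2 z)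
    exact h1.lintegral_prod_right'
  rw [apriG_two hc z hmg, apriG_two hc x hm1, ← lintegral_const_mul _ hF]
  refine lintegral_mono fun V => ?_
  -- the function of two variables
  obtain ⟨g, hg⟩ : ∃ g : ℝ × ℝ → ℂ, g = fun p =>
      GM A (ua a (Function.update (Function.update V x p.1) z p.2)) x z := ⟨_, rfl⟩
  have hgm : Measurable g := by
    rw [hg]
    have h1 : Measurable fun p : ℝ × ℝ => (Function.update V x p.1, p.2) := by
      refine Measurable.prodMk ?_ measurable_snd
      exact (measurable_update V (a := x)).comp measurable_fst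
    exact hmeasG.comp ((Str.measurable_update2 z).comp h1)
  have hgb : ∀ p, ‖g p‖ ≤ a⁻¹ := by
    intro p
    have h1 := entry_le hA (ua_loss ha (Function.update (Function.update V x p.1) z p.2)) x z
    have h2 : ∀ (W : ι → ℝ) (w : ι), gam (ua a W) w = a := by
      intro W w
      simp [gam, ua]
    rw [h2, h2] at h1
    rw [hg]
    exact apriG_root ha (norm_nonneg _) h1
  have hin : ∀ v u : ℝ, ‖GM A (ua a (Function.update (Function.update V x v) z u)) x z‖ₑ ^ s *
      F (Function.update (Function.update V x v) z u) = ‖g (v, u)‖ₑ ^ s * F V := by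
    intro v u
    rw [hz, hx, hg]
  have hgood : (Str.Sys.mk A (0 : Matrix ι Empty ℝ) (fun _ => a)).Good := ⟨hA, fun _ => ha⟩
  have hmain := h ι Empty (Str.Sys.mk A (0 : Matrix ι Empty ℝ) (fun _ => a)) hgood x z V
  have hmain' : ∫ v, ∫ u, ‖g (v, u)‖ ^ s ∂(unif c) ∂(unif c) ≤ C := by
    refine le_trans (le_of_eq ?_) hmain
    refine integral_congr_ae (ae_of_all _ fun v => integral_congr_ae (ae_of_all _ fun u => ?_))
    simp only [hg]
    rw [apriG_norm hA a]
  have hconv := apriG_conv hc hs hgm hgb hmain'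
  have hge : Measurable fun p : ℝ × ℝ => ‖g p‖ₑ ^ s := hgm.enorm.pow_const s
  calc _ = ∫⁻ v, ∫⁻ u, ‖g (v, u)‖ₑ ^ s * F V ∂(unif c) ∂(unif c) :=
        lintegral_congr fun v => lintegral_congr fun u => hin v u
    _ = ∫⁻ v, (∫⁻ u, ‖g (v, u)‖ₑ ^ s ∂(unif c)) * F V ∂(unif c) := by
        refine lintegral_congr fun v => ?_
        exact lintegral_mul_const _ (hge.comp (measurable_const.prodMk measurable_id))
    _ = (∫⁻ v, ∫⁻ u, ‖g (v, u)‖ₑ ^ s ∂(unif c) ∂(unif c)) * F V :=
        lintegral_mul_const _ hge.lintegral_prod_right'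
    _ ≤ ENNReal.ofReal C * F V := by gcongr

end Pool.Agent.Lib.MP_562b47_mp.ED
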