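import Pool.Agent.Lib.MP_562b47_mp.ED.Defs

/-!
Module ED-CT (MP_562b47_mp): Combes-Thomas bound for a real symmetric matrix which is bounded below by
`δ` on the vectors supported in a block `B`.
-/

open Matrix MeasureTheory Finset

namespace Pool.Agent.Lib.MP_562b47_mp.ED

open Pool.Agent.Lib.MP_562b47_mp.AL Pool.Agent.Lib.MP_562b47_mp

variable {ι : Type} [Fintype ι] [DecidableEq ι]

/-- the column vanishes off the block -/
private theorem ct_off {A : Matrix ι ι ℝ} (hA : A.IsSymm) {w : ι → ℂ} (hw : Loss w) {B : Finset ι}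
    (hB : ∀ x ∈ B, ∀ y, y ∉ B → A x y = 0) {x0 : ι} (hx0 : x0 ∈ B) {y : ι} (hy : y ∉ B) :
    GM A w y x0 = 0 := by
  classical
  set ψ : ι → ℂ := fun y => GM A w y x0 with hψ
  set ψ' : ι → ℂ := fun y => if y ∈ B then ψ y else 0 with hψ'
  have hHM : ∀ x y, x ≠ y → HM A w x y = (A x y : ℂ) := by
    intro x y h
    simp [HM, h]
  have h1 : ∀ x, ∑ y, HM A w x y * ψ y = if x = x0 then 1 else 0 := by
    intro x
    have h := congrFun (congrFun (HM_mul_GM hA hw) x) x0
    rw [mul_apply, one_apply] at h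
    exact h
  have h2 : HM A w *ᵥ ψ' = Pi.single x0 1 := by
    funext x
    rw [mulVec, dotProduct]
    by_cases hx : x ∈ B
    · have h3 : ∑ y, HM A w x y * ψ' y = ∑ y, HM A w x y * ψ y := by
        refine sum_congr rfl fun y _ => ?_
        by_cases hy : y ∈ B
        · rw [hψ']; simp only [if_pos hy]
        · have hne : x ≠ y := fun h => hy (h ▸ hx)
          rw [hHM x y hne, hB x hx y hy]; simp
      rw [h3, h1]
      by_cases hxx : x = x0
      · subst hxx; simp
      · rw [if_neg hxx, Pi.single_eq_of_ne hxx]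
    · have hxx : x ≠ x0 := fun h => hx (h ▸ hx0)
      rw [Pi.single_eq_of_ne hxx]
      refine sum_eq_zero fun y _ => ?_
      by_cases hy : y ∈ B
      · have hne : x ≠ y := fun h => hx (h ▸ hy)
        have h4 : A x y = 0 := by
          rw [← hA.apply x y]
          exact hB y hy x hx
        rw [hHM x y hne, h4]; simp
      · rw [hψ']; simp only [if_neg hy, mul_zero]
  have h3 : ψ' = GM A w *ᵥ Pi.single x0 1 := by
    rw [← h2, mulVec_mulVec, GM_mul_HM hA hw, one_mulVec]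
  have h4 := congrFun h3 y
  rw [mulVec_single_one] at h4
  have h5 : ψ' y = 0 := by rw [hψ']; simp only [if_neg hy]
  rw [h5] at h4
  exact h4.symm

theorem ct {A : Matrix ι ι ℝ} (hA : A.IsSymm) {V : ι → ℝ} {a δ μ D : ℝ} {B : Finset ι}
    (ha : 0 < a) (hδ : 0 < δ) (hB : ∀ x ∈ B, ∀ y, y ∉ B → A x y = 0)
    (hpos : ∀ φ : ι → ℝ, (∀ x, x ∉ B → φ x = 0) →
      δ * ∑ x, φ x ^ 2 ≤ ∑ x, ∑ y, φ x * A x y * φ y + ∑ x, V x * φ x ^ 2)
    {ρ : ι → ℝ} (hρ : ∀ x y, A x y ≠ 0 → |ρ x - ρ y| ≤ 1)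
    (hD : ∀ x, ∑ y ∈ univ.erase x, |A x y| ≤ D) (hμ : 0 ≤ μ)
    (hμδ : D * (Real.cosh μ - 1) ≤ δ / 2) {x0 : ι} (hx0 : x0 ∈ B) (hρ0 : ρ x0 = 0) (y : ι) :
    ‖GM A (ua a V) y x0‖ * Real.exp (μ * ρ y) ≤ 2 / δ := by
  classical
  have hw : Loss (ua a V) := ua_loss ha V
  set ψ : ι → ℂ := fun y => GM A (ua a V) y x0 with hψ
  have h1 : ∀ x, ∑ y, HM A (ua a V) x y * ψ y = if x = x0 then 1 else 0 := by
    intro x
    have h := congrFun (congrFun (HM_mul_GM hA hw) x) x0
    rw [mul_apply, one_apply] at h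
    exact h
  have hoff : ∀ x, x ∉ B → ψ x = 0 := fun x hx => ct_off hA hw hB hx0 hx
  set φ : ι → ℂ := fun x => (Real.exp (μ * ρ x) : ℂ) * ψ x with hφ
  have hφoff : ∀ x, x ∉ B → φ x = 0 := fun x hx => by rw [hφ]; simp only [hoff x hx, mul_zero]
  set S : ℝ := ∑ x, ‖φ x‖ ^ 2 with hS
  have hS0 : 0 ≤ S := sum_nonneg fun x _ => by positivity
  -- the bilinear form
  set b : ι → ι → ℝ := fun x y => A x y * ((φ x).re * (φ y).re + (φ x).im * (φ y).im) with hb
  have hbsymm : ∀ x y, b x y = b y x := by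
    intro x y
    rw [hb]
    simp only
    rw [← hA.apply x y]
    ring
  -- real part of the tested equation
  have hkey : (φ x0).re = ∑ x, ∑ y, Real.exp (μ * ρ x - μ * ρ y) * b x y +
      ∑ x, V x * ‖φ x‖ ^ 2 := by
    have e1 : (starRingEnd ℂ) (φ x0) = ∑ x, (starRingEnd ℂ) (φ x) * (Real.exp (μ * ρ x) : ℂ) *
        ∑ y, HM A (ua a V) x y * ψ y := by
      simp_rw [h1]
      rw [Finset.sum_eq_single x0]
      · rw [if_pos rfl, hρ0, mul_zero, Real.exp_zero]; simp
      · intro x _ hx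
        rw [if_neg hx, mul_zero]
      · intro h; exact absurd (mem_univ _) h
    have e2 : (φ x0).re = ((starRingEnd ℂ) (φ x0)).re := (Complex.conj_re _).symm
    rw [e2, e1, Complex.re_sum, ← Finset.sum_add_distrib]
    refine sum_congr rfl fun x _ => ?_
    -- split the diagonal
    have e3 : ∑ y, HM A (ua a V) x y * ψ y = ∑ y, (A x y : ℂ) * ψ y + ua a V x * ψ x := by
      have : ∀ y, HM A (ua a V) x y = (A x y : ℂ) + if x = y then ua a V x else 0 := by
        intro y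
        simp [HM, diagonal_apply]
      simp_rw [this, add_mul]
      rw [Finset.sum_add_distrib]
      congr 1
      simp
    rw [e3, mul_add, Complex.add_re, Finset.mul_sum, Complex.re_sum]
    congr 1
    · refine sum_congr rfl fun y _ => ?_
      have e4 : ψ y = (Real.exp (-(μ * ρ y)) : ℂ) * φ y := by
        rw [hφ]
        simp only
        rw [← mul_assoc, ← Complex.ofReal_mul, ← Real.exp_add]
        simp
      rw [e4, sub_eq_add_neg, Real.exp_add, hb]
      simp only [Complex.mul_re, Complex.mul_im, Complex.conj_re, Complex.conj_im,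
        Complex.ofReal_re, Complex.ofReal_im]
      ring
    · have e5 : (starRingEnd ℂ) (φ x) * (Real.exp (μ * ρ x) : ℂ) * (ua a V x * ψ x) =
          ua a V x * ((starRingEnd ℂ) (φ x) * φ x) := by
        rw [hφ]; simp only; ring
      rw [e5, mul_comm ((starRingEnd ℂ) (φ x)) (φ x), Complex.mul_conj, Complex.normSq_eq_norm_sq]
      rw [Complex.mul_re, Complex.ofReal_re, Complex.ofReal_im]
      simp [ua]
  -- symmetrize
  have hsym : ∑ x, ∑ y, Real.exp (μ * ρ x - μ * ρ y) * b x y =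
      ∑ x, ∑ y, Real.cosh (μ * ρ x - μ * ρ y) * b x y := by
    have e1 : ∑ x, ∑ y, Real.exp (μ * ρ x - μ * ρ y) * b x y =
        ∑ x, ∑ y, Real.exp (-(μ * ρ x - μ * ρ y)) * b x y := by
      rw [Finset.sum_comm]
      refine sum_congr rfl fun x _ => sum_congr rfl fun y _ => ?_
      rw [hbsymm y x, neg_sub]
    have e2 : ∑ x, ∑ y, Real.cosh (μ * ρ x - μ * ρ y) * b x y =
        (∑ x, ∑ y, Real.exp (μ * ρ x - μ * ρ y) * b x y +
          ∑ x, ∑ y, Real.exp (-(μ * ρ x - μ * ρ y)) * b x y) / 2 := by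
      rw [← Finset.sum_add_distrib, Finset.sum_div]
      refine sum_congr rfl fun x _ => ?_
      rw [← Finset.sum_add_distrib, Finset.sum_div]
      refine sum_congr rfl fun y _ => ?_
      rw [Real.cosh_eq]; ring
    rw [e2, ← e1]; ring
  have hlow : ∑ x, ∑ y, b x y - (Real.cosh μ - 1) * (D * S) ≤
      ∑ x, ∑ y, Real.cosh (μ * ρ x - μ * ρ y) * b x y := by
    have e1 : ∀ x y, b x y - (Real.cosh μ - 1) * (if x = y then 0 else
        |A x y| * ((‖φ x‖ ^ 2 + ‖φ y‖ ^ 2) / 2)) ≤ Real.cosh (μ * ρ x - μ * ρ y) * b x y := by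
      intro x y
      by_cases hxy : x = y
      · subst hxy; simp
      rw [if_neg hxy]
      by_cases hAxy : A x y = 0
      · rw [hb]; simp [hAxy]
      have e2 : Real.cosh (μ * ρ x - μ * ρ y) ≤ Real.cosh μ := by
        rw [Real.cosh_le_cosh, ← mul_sub, abs_mul, abs_of_nonneg hμ]
        have := hρ x y hAxy
        nlinarith
      have e3 : 1 ≤ Real.cosh (μ * ρ x - μ * ρ y) := Real.one_le_cosh _
      have e4 : |(φ x).re * (φ y).re + (φ x).im * (φ y).im| ≤ (‖φ x‖ ^ 2 + ‖φ y‖ ^ 2) / 2 := by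
        rw [← Complex.normSq_eq_norm_sq, ← Complex.normSq_eq_norm_sq, Complex.normSq_apply,
          Complex.normSq_apply, abs_le]
        constructor
        · nlinarith [sq_nonneg ((φ x).re + (φ y).re), sq_nonneg ((φ x).im + (φ y).im)]
        · nlinarith [sq_nonneg ((φ x).re - (φ y).re), sq_nonneg ((φ x).im - (φ y).im)]
      have e5 : |b x y| ≤ |A x y| * ((‖φ x‖ ^ 2 + ‖φ y‖ ^ 2) / 2) := by
        rw [hb]; simp only; rw [abs_mul]
        exact mul_le_mul_of_nonneg_left e4 (abs_nonneg _)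
      have e6 := neg_abs_le (b x y)
      have e7 : 0 ≤ |A x y| * ((‖φ x‖ ^ 2 + ‖φ y‖ ^ 2) / 2) := by positivity
      have e8 : (Real.cosh (μ * ρ x - μ * ρ y) - 1) * (-(|A x y| * ((‖φ x‖ ^ 2 + ‖φ y‖ ^ 2) / 2))) ≤
          (Real.cosh (μ * ρ x - μ * ρ y) - 1) * b x y :=
        mul_le_mul_of_nonneg_left (by linarith) (by linarith)
      have e9 : (Real.cosh (μ * ρ x - μ * ρ y) - 1) * (|A x y| * ((‖φ x‖ ^ 2 + ‖φ y‖ ^ 2) / 2)) ≤
          (Real.cosh μ - 1) * (|A x y| * ((‖φ x‖ ^ 2 + ‖φ y‖ ^ 2) / 2)) :=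
        mul_le_mul_of_nonneg_right (by linarith) e7
      linarith
    have e2 : ∑ x, ∑ y, (if x = y then 0 else |A x y| * ((‖φ x‖ ^ 2 + ‖φ y‖ ^ 2) / 2)) ≤ D * S := by
      have e3 : ∀ x, ∑ y, (if x = y then 0 else |A x y| * (‖φ x‖ ^ 2)) ≤ D * ‖φ x‖ ^ 2 := by
        intro x
        have e4 : ∑ y, (if x = y then 0 else |A x y| * (‖φ x‖ ^ 2)) =
            (∑ y ∈ univ.erase x, |A x y|) * ‖φ x‖ ^ 2 := by
          rw [Finset.sum_mul, ← Finset.add_sum_erase univ _ (mem_univ x), if_pos rfl, zero_add]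
          refine sum_congr rfl fun y hy => ?_
          rw [if_neg (Finset.ne_of_mem_erase hy).symm]
        rw [e4]
        exact mul_le_mul_of_nonneg_right (hD x) (by positivity)
      have e5 : ∑ x, ∑ y, (if x = y then 0 else |A x y| * ‖φ y‖ ^ 2) =
          ∑ x, ∑ y, (if x = y then 0 else |A x y| * ‖φ x‖ ^ 2) := by
        rw [Finset.sum_comm]
        refine sum_congr rfl fun x _ => sum_congr rfl fun y _ => ?_
        rw [← hA.apply x y]
        by_cases hxy : x = y
        · rw [if_pos hxy, if_pos hxy.symm]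
        · rw [if_neg hxy, if_neg (Ne.symm hxy)]
      have e6 : ∑ x, ∑ y, (if x = y then 0 else |A x y| * ((‖φ x‖ ^ 2 + ‖φ y‖ ^ 2) / 2)) =
          (∑ x, ∑ y, (if x = y then 0 else |A x y| * ‖φ x‖ ^ 2) +
            ∑ x, ∑ y, (if x = y then 0 else |A x y| * ‖φ y‖ ^ 2)) / 2 := by
        rw [← Finset.sum_add_distrib, Finset.sum_div]
        refine sum_congr rfl fun x _ => ?_
        rw [← Finset.sum_add_distrib, Finset.sum_div]
        refine sum_congr rfl fun y _ => ?_
        split_ifs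
        · simp
        · ring
      rw [e6, e5]
      have e7 : ∑ x, ∑ y, (if x = y then 0 else |A x y| * ‖φ x‖ ^ 2) ≤ D * S := by
        rw [hS, Finset.mul_sum]
        exact sum_le_sum fun x _ => e3 x
      linarith
    have e3 : ∑ x, ∑ y, (b x y - (Real.cosh μ - 1) * (if x = y then 0 else
        |A x y| * ((‖φ x‖ ^ 2 + ‖φ y‖ ^ 2) / 2))) ≤
        ∑ x, ∑ y, Real.cosh (μ * ρ x - μ * ρ y) * b x y :=
      sum_le_sum fun x _ => sum_le_sum fun y _ => e1 x y
    simp_rw [Finset.sum_sub_distrib, ← Finset.mul_sum] at e3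
    have e4 : 0 ≤ Real.cosh μ - 1 := by linarith [Real.one_le_cosh μ]
    have e5 := mul_le_mul_of_nonneg_left e2 e4
    linarith
  -- positivity
  have hp : δ * S ≤ ∑ x, ∑ y, b x y + ∑ x, V x * ‖φ x‖ ^ 2 := by
    have e1 := hpos (fun x => (φ x).re) fun x hx => by simp only [hφoff x hx, Complex.zero_re]
    have e2 := hpos (fun x => (φ x).im) fun x hx => by simp only [hφoff x hx, Complex.zero_im]
    have e3 : ∀ x, ‖φ x‖ ^ 2 = (φ x).re ^ 2 + (φ x).im ^ 2 := by
      intro x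
      rw [← Complex.normSq_eq_norm_sq, Complex.normSq_apply]; ring
    have e4 : S = ∑ x, (φ x).re ^ 2 + ∑ x, (φ x).im ^ 2 := by
      rw [hS, ← Finset.sum_add_distrib]
      exact sum_congr rfl fun x _ => e3 x
    have e5 : ∑ x, ∑ y, b x y = ∑ x, ∑ y, (φ x).re * A x y * (φ y).re +
        ∑ x, ∑ y, (φ x).im * A x y * (φ y).im := by
      rw [← Finset.sum_add_distrib]
      refine sum_congr rfl fun x _ => ?_
      rw [← Finset.sum_add_distrib]
      refine sum_congr rfl fun y _ => ?_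
      rw [hb]; ring
    have e6 : ∑ x, V x * ‖φ x‖ ^ 2 = ∑ x, V x * (φ x).re ^ 2 + ∑ x, V x * (φ x).im ^ 2 := by
      rw [← Finset.sum_add_distrib]
      refine sum_congr rfl fun x _ => ?_
      rw [e3]; ring
    rw [e4, e5, e6]
    linarith
  -- conclusion
  have hfin : δ / 2 * S ≤ ‖φ x0‖ := by
    have e1 : (φ x0).re ≤ ‖φ x0‖ := Complex.re_le_norm _
    rw [hsym] at hkey
    have e2 : (Real.cosh μ - 1) * (D * S) ≤ δ / 2 * S := by
      calc (Real.cosh μ - 1) * (D * S) = D * (Real.cosh μ - 1) * S := by ring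
        _ ≤ _ := mul_le_mul_of_nonneg_right hμδ hS0
    linarith
  have hle : ∀ x, ‖φ x‖ ^ 2 ≤ S := fun x =>
    Finset.single_le_sum (f := fun x => ‖φ x‖ ^ 2) (fun x _ => by positivity) (mem_univ x)
  have hsq : ∀ x, ‖φ x‖ ≤ Real.sqrt S := fun x => Real.le_sqrt_of_sq_le (hle x)
  have hS2 : Real.sqrt S ≤ 2 / δ := by
    have e1 : δ / 2 * S ≤ Real.sqrt S := hfin.trans (hsq x0)
    have e2 : Real.sqrt S * Real.sqrt S = S := Real.mul_self_sqrt hS0
    rcases eq_or_lt_of_le (Real.sqrt_nonneg S) with h | h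
    · rw [← h]; positivity
    · rw [le_div_iff₀ hδ]
      have e3 : δ / 2 * (Real.sqrt S * Real.sqrt S) ≤ Real.sqrt S := by rw [e2]; exact e1
      have e4 : δ / 2 * Real.sqrt S ≤ 1 := by
        by_contra hcon
        push Not at hcon
        nlinarith
      linarith
  have hφy : ‖φ y‖ = ‖GM A (ua a V) y x0‖ * Real.exp (μ * ρ y) := by
    rw [hφ]
    simp only
    rw [norm_mul, Complex.norm_real, Real.norm_eq_abs, abs_of_pos (Real.exp_pos _), mul_comm]
  rw [← hφy]
  exact (hsq y).trans hS2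

end Pool.Agent.Lib.MP_562b47_mp.ED
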