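import Pool.Agent.Lib.MP_562b47_mp.ED.Defs

/-!
Module ED-Dec (MP_562b47_mp): decoupling (deterministic), with `B = ball x L`, the layer
`{di x · = L + 1}` and `O = outs x (L + 1)`.

PROOF.  Resolvent identities.  `A' := Ae pos E (cut e B)`, `A := Ae pos E e`, `T := A - A'` (entries `-1` for the
edges of `e` from `B` to its complement and back).  `GM A = GM A' - GM A' T GM A` (AL.HM, invertible by `Loss`).
For `x ∈ B`, `y ∉ B`: `GM A' x y = 0` (block structure) and `GM A' x w ≠ 0` only for `w ∈ B`, so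
`GM A x y = ∑_{w ∈ B, w' ∉ B, adj, e} GM A' x w GM A w' y`.  The sites `w' ∉ B` adjacent to `w ∈ B` have
`di x w' = L + 1`.  Second: `GM A = GM A'' - GM A T'' GM A''`, `A'' := Ae pos E (cut e O)`; for `w' ∉ O`, `y ∈ O`:
`GM A w' y = ∑_{v ∉ O, v' ∈ O, adj, e} GM A w' v GM A'' v' y`; `v ∉ O` adjacent to `v' ∈ O` has `di x v = L + 1`.
Triangle inequality for the norms.
(b) `GM (Ae pos E (cut e B)) (ua a V) x u` for `x, u ∈ B` does not depend on `V w`, `w ∉ B`
(block structure: rank one formula `AL.G_update`, or the resolvent identity, with `GM x w = 0`).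
-/

open Matrix MeasureTheory Finset
open scoped ENNReal

namespace Pool.Agent.Lib.MP_562b47_mp.ED

open Pool.Agent.Lib.MP_562b47_mp.AL Pool.Agent.Lib.MP_562b47_mp
open Pool.Agent.Lib.MP_562b47_mp.GD (adj sh)

variable {d : ℕ} {ι : Type} [Fintype ι] [DecidableEq ι]

theorem HM_block {pos : ι → Fin d → ℤ} {E : ℝ} {e : ι → ι → Prop} {B : Finset ι} (u : ι → ℂ)
    {x y : ι} (hx : x ∈ B) (hy : y ∉ B) : HM (Ae pos E (cut e B)) u x y = 0 := by
  have hne : x ≠ y := fun h => hy (h ▸ hx)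
  rw [HM_apply, cut_block hx hy, if_neg hne]
  simp

theorem HM_block' {pos : ι → Fin d → ℤ} {E : ℝ} {e : ι → ι → Prop} (he : ∀ x y, e x y → e y x)
    {B : Finset ι} (u : ι → ℂ)
    {x y : ι} (hx : x ∉ B) (hy : y ∈ B) : HM (Ae pos E (cut e B)) u x y = 0 := by
  have h := congrFun (congrFun (HM_symm (Ae_symm (pos := pos) E (cut_symm he B)) u) x) y
  rw [← h, transpose_apply]
  exact HM_block u hy hx

theorem GM_block {pos : ι → Fin d → ℤ} {E : ℝ} {e : ι → ι → Prop} (he : ∀ x y, e x y → e y x)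
    {B : Finset ι} {w : ι → ℂ} (hw : Loss w) {x u : ι} (hx : x ∈ B) (hu : u ∉ B) :
    GM (Ae pos E (cut e B)) w x u = 0 := by
  classical
  have hS := Ae_symm (pos := pos) E (cut_symm he B)
  set H := HM (Ae pos E (cut e B)) w with hH
  set G := GM (Ae pos E (cut e B)) w with hG
  have h1 : H * G = 1 := HM_mul_GM hS hw
  have h2 : G * H = 1 := GM_mul_HM hS hw
  set v : ι → ℂ := fun y => if y ∈ B then G y u else 0 with hv
  have h3 : H *ᵥ v = 0 := by
    funext z
    have e1 : (H *ᵥ v) z = ∑ y, H z y * (if y ∈ B then G y u else 0) := rfl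
    rw [e1, Pi.zero_apply]
    by_cases hz : z ∈ B
    · have e2 : ∑ y, H z y * (if y ∈ B then G y u else 0) = ∑ y, H z y * G y u := by
        refine sum_congr rfl fun y _ => ?_
        by_cases hy : y ∈ B
        · rw [if_pos hy]
        · rw [if_neg hy, hH, HM_block w hz hy, zero_mul, zero_mul]
      have e3 : ∑ y, H z y * G y u = (H * G) z u := (mul_apply).symm
      have hzu : z ≠ u := fun h => hu (h ▸ hz)
      rw [e2, e3, h1, one_apply_ne hzu]
    · refine sum_eq_zero fun y _ => ?_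
      by_cases hy : y ∈ B
      · rw [hH, HM_block' he w hz hy, zero_mul]
      · rw [if_neg hy, mul_zero]
  have h4 : v = 0 := by
    have : G *ᵥ (H *ᵥ v) = v := by rw [mulVec_mulVec, h2, one_mulVec]
    rw [← this, h3, mulVec_zero]
  have h5 := congrFun h4 x
  simpa [hv, hx] using h5

theorem G_block {pos : ι → Fin d → ℤ} {E : ℝ} {e : ι → ι → Prop} (he : ∀ x y, e x y → e y x)
    {B : Finset ι} {a : ℝ} (ha : 0 < a) (V : ι → ℝ) {x u : ι} (hx : x ∈ B) (hu : u ∉ B) :
    GM (Ae pos E (cut e B)) (ua a V) x u = 0 :=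
  GM_block he (ua_loss ha V) hx hu

/-- resolvent identity -/
theorem resolvent {A A' : Matrix ι ι ℝ} (hA : A.IsSymm) (hA' : A'.IsSymm) {w w' : ι → ℂ}
    (hw : Loss w) (hw' : Loss w') :
    GM A w = GM A' w' + GM A' w' * (HM A' w' - HM A w) * GM A w := by
  rw [mul_sub, sub_mul, GM_mul_HM hA' hw', mul_assoc, HM_mul_GM hA hw, one_mul, mul_one]
  abel

theorem G_update_out {pos : ι → Fin d → ℤ} {E : ℝ} {e : ι → ι → Prop} (he : ∀ x y, e x y → e y x)
    {B : Finset ι} {a : ℝ} (ha : 0 < a) (V : ι → ℝ) {x u w : ι} (hx : x ∈ B) (hu : u ∈ B)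
    (hw : w ∉ B) (v : ℝ) :
    GM (Ae pos E (cut e B)) (ua a (Function.update V w v)) x u =
      GM (Ae pos E (cut e B)) (ua a V) x u := by
  have hS := Ae_symm (pos := pos) E (cut_symm he B)
  have h := congrFun (congrFun (resolvent hS hS (ua_loss ha (Function.update V w v))
    (ua_loss ha V)) x) u
  rw [h, Matrix.add_apply, add_eq_left, mul_apply]
  refine sum_eq_zero fun t _ => ?_
  rw [mul_apply]
  by_cases ht : t = w
  · subst ht
    rw [GM_symm hS _ t u, G_block he ha _ hu hw, mul_zero]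
  · rw [sum_eq_zero, zero_mul]
    intro s _
    rw [Matrix.sub_apply, HM_apply, HM_apply]
    by_cases hst : s = t
    · subst hst
      have : ua a (Function.update V w v) s = ua a V s := by
        unfold ua
        rw [Function.update_of_ne ht]
      rw [this, sub_self, mul_zero]
    · rw [if_neg hst, if_neg hst, sub_self, mul_zero]

/-- one step of the decoupling -/
theorem dec1 {pos : ι → Fin d → ℤ} {E : ℝ} {e : ι → ι → Prop} (he : ∀ x y, e x y → e y x)
    {w : ι → ℂ} (hw : Loss w) {B C : Finset ι} {x y : ι} (hx : x ∈ B) (hy : y ∉ B)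
    (hC : ∀ s ∈ B, ∀ t, t ∉ B → adj (pos s) (pos t) → t ∈ C) :
    ‖GM (Ae pos E e) w x y‖ₑ ≤
      ∑ p ∈ prs pos B C,
        ‖GM (Ae pos E (cut e B)) w x p.1‖ₑ * ‖GM (Ae pos E e) w p.2 y‖ₑ := by
  classical
  have hS := Ae_symm (pos := pos) E he
  have hS' := Ae_symm (pos := pos) E (cut_symm he B)
  set G := GM (Ae pos E e) w with hG
  set G' := GM (Ae pos E (cut e B)) w with hG'
  set T : ι → ι → ℂ := fun s t => HM (Ae pos E (cut e B)) w s t - HM (Ae pos E e) w s t with hT
  have h := congrFun (congrFun (resolvent hS hS' hw hw) x) y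
  rw [Matrix.add_apply, GM_block he hw hx hy, zero_add, mul_apply] at h
  have h2 : G x y = ∑ t, ∑ s, G' x s * T s t * G t y := by
    refine h.trans (sum_congr rfl fun t _ => ?_)
    rw [mul_apply, sum_mul]
    rfl
  -- the entries of `T`
  have hTe : ∀ s t, s ∈ B → T s t = if (t ∉ B ∧ adj (pos s) (pos t)) ∧ e s t then 1 else 0 := by
    intro s t hs
    simp only [hT, HM_apply, Ae, Matrix.of_apply, cut]
    by_cases hst : s = t
    · subst hst
      simp [hs]
    · by_cases ht : t ∈ B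
      · simp [hs, ht, hst]
      · by_cases ha : adj (pos s) (pos t)
        · by_cases hee : e s t
          · simp [hs, ht, hst, ha, hee]
          · simp [hst, hee]
        · simp [hst, ha]
  have h3 : G x y = ∑ p ∈ (univ : Finset (ι × ι)), G' x p.1 * T p.1 p.2 * G p.2 y := by
    rw [h2, sum_comm, ← Finset.univ_product_univ, Finset.sum_product]
  have h4 : G x y = ∑ p ∈ prs pos B C, G' x p.1 * T p.1 p.2 * G p.2 y := by
    rw [h3]
    symm
    refine sum_subset (subset_univ _) fun p _ hp => ?_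
    by_cases hpB : p.1 ∈ B
    · rw [hTe p.1 p.2 hpB, if_neg, mul_zero, zero_mul]
      rintro ⟨⟨h5, h6⟩, -⟩
      exact hp (mem_prs.mpr ⟨hpB, hC _ hpB _ h5 h6, h6⟩)
    · rw [hG', GM_block he hw hx hpB, zero_mul, zero_mul]
  rw [h4]
  refine (enorm_sum_le _ _).trans (sum_le_sum fun p hp => ?_)
  rw [enorm_mul, enorm_mul]
  have h7 : ‖T p.1 p.2‖ₑ ≤ 1 := by
    rw [hTe p.1 p.2 (mem_prs.mp hp).1]
    split_ifs <;> simp
  calc ‖G' x p.1‖ₑ * ‖T p.1 p.2‖ₑ * ‖G p.2 y‖ₑ
      ≤ ‖G' x p.1‖ₑ * 1 * ‖G p.2 y‖ₑ := by gcongr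
    _ = _ := by rw [mul_one]

theorem dec {pos : ι → Fin d → ℤ} {E : ℝ} {e : ι → ι → Prop} (he : ∀ x y, e x y → e y x)
    {a : ℝ} (ha : 0 < a) (V : ι → ℝ) {L : ℕ} {x y : ι} (hy : L + 1 < di pos x y) :
    ‖GM (Ae pos E e) (ua a V) x y‖ₑ ≤
      ∑ p ∈ prs pos (ball pos x L) (univ.filter fun w => di pos x w = L + 1),
        ∑ q ∈ prs pos (univ.filter fun w => di pos x w = L + 1) (outs pos x (L + 1)),
          ‖GM (Ae pos E (cut e (ball pos x L))) (ua a V) x p.1‖ₑ *
            ‖GM (Ae pos E e) (ua a V) p.2 q.1‖ₑ *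
            ‖GM (Ae pos E (cut e (outs pos x (L + 1)))) (ua a V) q.2 y‖ₑ := by
  have hw := ua_loss ha V
  have hS := Ae_symm (pos := pos) E he
  have hS' := Ae_symm (pos := pos) E (cut_symm he (outs pos x (L + 1)))
  have h1 := dec1 (pos := pos) (E := E) he hw (B := ball pos x L)
    (C := univ.filter fun w => di pos x w = L + 1) (x := x) (y := y)
    (mem_ball.mpr (by rw [di_self]; exact Nat.zero_le _))
    (fun h => by have := mem_ball.mp h; omega)
    (fun s hs t ht hst => by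
      have h1 := mem_ball.mp hs
      have h2 : ¬ di pos x t ≤ L := fun h => ht (mem_ball.mpr h)
      have h3 := di_tri pos x s t
      have h4 := di_adj hst
      rw [mem_filter]
      exact ⟨mem_univ _, by omega⟩)
  refine h1.trans (sum_le_sum fun p hp => ?_)
  have hp2 : di pos x p.2 = L + 1 := (mem_filter.mp (mem_prs.mp hp).2.1).2
  have h2 := dec1 (pos := pos) (E := E) he hw (B := outs pos x (L + 1))
    (C := univ.filter fun w => di pos x w = L + 1) (x := y) (y := p.2)
    (mem_outs.mpr hy) (fun h => by have := mem_outs.mp h; omega)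
    (fun s hs t ht hst => by
      have h1 := mem_outs.mp hs
      have h2 : ¬ L + 1 < di pos x t := fun h => ht (mem_outs.mpr h)
      have h3 := di_tri pos x t s
      have h4 := di_adj hst
      rw [di_comm] at h4
      rw [mem_filter]
      exact ⟨mem_univ _, by omega⟩)
  rw [GM_symm hS _ y p.2] at h2
  have h3 : ∑ q ∈ prs pos (univ.filter fun w => di pos x w = L + 1) (outs pos x (L + 1)),
      ‖GM (Ae pos E (cut e (ball pos x L))) (ua a V) x p.1‖ₑ *
        ‖GM (Ae pos E e) (ua a V) p.2 q.1‖ₑ *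
        ‖GM (Ae pos E (cut e (outs pos x (L + 1)))) (ua a V) q.2 y‖ₑ =
      ‖GM (Ae pos E (cut e (ball pos x L))) (ua a V) x p.1‖ₑ *
      ∑ q ∈ prs pos (outs pos x (L + 1)) (univ.filter fun w => di pos x w = L + 1),
        ‖GM (Ae pos E (cut e (outs pos x (L + 1)))) (ua a V) y q.1‖ₑ *
          ‖GM (Ae pos E e) (ua a V) q.2 p.2‖ₑ := by
    rw [mul_sum]
    refine sum_bij' (fun q _ => (q.2, q.1)) (fun q _ => (q.2, q.1)) ?_ ?_ ?_ ?_ ?_
    · intro q hq
      have := mem_prs.mp hq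
      exact mem_prs.mpr ⟨this.2.1, this.1, (GX.adj_comm _ _).mp this.2.2⟩
    · intro q hq
      have := mem_prs.mp hq
      exact mem_prs.mpr ⟨this.2.1, this.1, (GX.adj_comm _ _).mp this.2.2⟩
    · intro q _; rfl
    · intro q _; rfl
    · intro q _
      rw [GM_symm hS _ p.2 q.1, GM_symm hS' _ q.2 y]
      ring
  rw [h3]
  gcongr

end Pool.Agent.Lib.MP_562b47_mp.ED
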