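import Pool.Agent.Lib.MP_562b47_mp.GX.Lim

/-!
MP_562b47, every dimension: localization (fractional moments) at the energies near the two ends of
the spectrum and outside of it.  Definitions.
-/

open Matrix MeasureTheory Finset

namespace Pool.Agent.Lib.MP_562b47_mp.ED

open Pool.Agent.Lib.MP_562b47_mp.AL Pool.Agent.Lib.MP_562b47_mp
open Pool.Agent.Lib.MP_562b47_mp.GD (adj sh)

variable {d : ℕ} {ι : Type} [Fintype ι] [DecidableEq ι]

/-- sup distance of the positions -/
def di (pos : ι → Fin d → ℤ) (x y : ι) : ℕ :=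
  Finset.univ.sup fun j => (pos x j - pos y j).natAbs

open Classical in
/-- the matrix `-Δ - E` with the edges `e` (the diagonal is not changed: `2 d - E`) -/
noncomputable def Ae (pos : ι → Fin d → ℤ) (E : ℝ) (e : ι → ι → Prop) : Matrix ι ι ℝ :=
  Matrix.of fun x y => if x = y then 2 * (d : ℝ) - E else if adj (pos x) (pos y) ∧ e x y then -1
    else 0

/-- the potential `V - i a` -/
def ua (a : ℝ) (V : ι → ℝ) (x : ι) : ℂ := ((V x : ℝ) : ℂ) - a * Complex.I

/-- the edges of `e` which do not leave `B` and do not leave its complement -/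
def cut (e : ι → ι → Prop) (B : Finset ι) (x y : ι) : Prop := e x y ∧ (x ∈ B ↔ y ∈ B)

/-- ball for the sup distance -/
def ball (pos : ι → Fin d → ℤ) (x : ι) (L : ℕ) : Finset ι := univ.filter fun y => di pos x y ≤ L

/-- the sites outside the ball -/
def outs (pos : ι → Fin d → ℤ) (x : ι) (L : ℕ) : Finset ι := univ.filter fun y => L < di pos x y

/-- the adjacent pairs from `B` to `C` -/
def prs (pos : ι → Fin d → ℤ) (B C : Finset ι) : Finset (ι × ι) :=
  (B ×ˢ C).filter fun p => adj (pos p.1) (pos p.2)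

theorem mem_ball {pos : ι → Fin d → ℤ} {x y : ι} {L : ℕ} : y ∈ ball pos x L ↔ di pos x y ≤ L := by
  simp [ball]

theorem mem_outs {pos : ι → Fin d → ℤ} {x y : ι} {L : ℕ} : y ∈ outs pos x L ↔ L < di pos x y := by
  simp [outs]

theorem mem_prs {pos : ι → Fin d → ℤ} {B C : Finset ι} {p : ι × ι} :
    p ∈ prs pos B C ↔ p.1 ∈ B ∧ p.2 ∈ C ∧ adj (pos p.1) (pos p.2) := by
  simp [prs, and_assoc]

theorem di_self (pos : ι → Fin d → ℤ) (x : ι) : di pos x x = 0 := by
  simp [di]

theorem di_comm (pos : ι → Fin d → ℤ) (x y : ι) : di pos x y = di pos y x := by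
  unfold di
  refine Finset.sup_congr rfl fun j _ => ?_
  rw [← Int.natAbs_neg, neg_sub]

theorem di_tri (pos : ι → Fin d → ℤ) (x y z : ι) : di pos x z ≤ di pos x y + di pos y z := by
  unfold di
  refine Finset.sup_le fun j _ => ?_
  have h1 := Finset.le_sup (f := fun j => (pos x j - pos y j).natAbs) (mem_univ j)
  have h2 := Finset.le_sup (f := fun j => (pos y j - pos z j).natAbs) (mem_univ j)
  omega

theorem le_di {pos : ι → Fin d → ℤ} {x y : ι} (j : Fin d) :
    (pos x j - pos y j).natAbs ≤ di pos x y :=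
  Finset.le_sup (f := fun j => (pos x j - pos y j).natAbs) (mem_univ j)

theorem di_adj {pos : ι → Fin d → ℤ} {x y : ι} (h : adj (pos x) (pos y)) : di pos x y ≤ 1 := by
  unfold di
  refine Finset.sup_le fun j _ => ?_
  obtain ⟨i, h | h⟩ := h
  all_goals
    rw [h]
    unfold sh
    by_cases hj : j = i
    · subst hj
      rw [Function.update_self]
      omega
    · rw [Function.update_of_ne hj]
      omega

theorem cut_symm {e : ι → ι → Prop} (he : ∀ x y, e x y → e y x) (B : Finset ι) :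
    ∀ x y, cut e B x y → cut e B y x := fun x y h => ⟨he x y h.1, h.2.symm⟩

theorem Ae_symm {pos : ι → Fin d → ℤ} (E : ℝ) {e : ι → ι → Prop} (he : ∀ x y, e x y → e y x) :
    (Ae pos E e).IsSymm := by
  classical
  ext x y
  have h1 : (adj (pos y) (pos x) ∧ e y x) ↔ (adj (pos x) (pos y) ∧ e x y) :=
    ⟨fun h => ⟨(GX.adj_comm _ _).mp h.1, he _ _ h.2⟩, fun h => ⟨(GX.adj_comm _ _).mp h.1, he _ _ h.2⟩⟩
  simp only [Matrix.transpose_apply, Ae, Matrix.of_apply]
  by_cases h : x = y
  · subst h; simp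
  · rw [if_neg h, if_neg (Ne.symm h)]
    simp only [h1]

theorem ua_loss {a : ℝ} (ha : 0 < a) (V : ι → ℝ) : Loss (ua a V) := by
  intro x
  simp [ua, ha]

theorem cut_block {pos : ι → Fin d → ℤ} {E : ℝ} {e : ι → ι → Prop} {B : Finset ι} {x y : ι}
    (hx : x ∈ B) (hy : y ∉ B) : Ae pos E (cut e B) x y = 0 := by
  classical
  have hne : x ≠ y := fun h => hy (h ▸ hx)
  unfold Ae cut
  rw [Matrix.of_apply, if_neg hne, if_neg]
  rintro ⟨-, -, h⟩
  exact hy (h.mp hx)

end Pool.Agent.Lib.MP_562b47_mp.ED
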