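import Pool.Agent.Lib.MP_562b47_mp.ED.Lif

/-!
Module ED-Prob (MP_562b47_mp): probability of `goodS`.

PROOF.  If `goodS` fails at `x ∈ B`, then for all `k ≤ R` there is `y ∈ B` with `pos y = x + k e` and
`V y < 0`: all the `R + 1` (different) sites `y_k` have `V < 0`; product measure: `(1/2)^(R+1)`
(`unif c (Iio 0) = 1/2`).  Union bound over `x ∈ B`.
-/

open Matrix MeasureTheory Finset
open scoped ENNReal

namespace Pool.Agent.Lib.MP_562b47_mp.ED

open Pool.Agent.Lib.MP_562b47_mp.AL Pool.Agent.Lib.MP_562b47_mp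
open Pool.Agent.Lib.MP_562b47_mp.GD (adj sh)

variable {d : ℕ} {ι : Type} [Fintype ι] [DecidableEq ι]

theorem meas_good (pos : ι → Fin d → ℤ) (B : Finset ι) (j0 : Fin d) (R : ℕ) :
    MeasurableSet {V : ι → ℝ | goodS pos B j0 R V} := by
  have h : {V : ι → ℝ | goodS pos B j0 R V} =
      ⋂ x ∈ B, ⋃ k ∈ {k : ℕ | k ≤ R}, ⋂ y ∈ {y : ι | y ∈ B ∧ pos y = sh (pos x) j0 k},
        {V : ι → ℝ | 0 ≤ V y} := by
    ext V
    simp only [goodS, Set.mem_ofPred_eq, Set.mem_iInter, Set.mem_iUnion, exists_prop, and_imp]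
  rw [h]
  refine Finset.measurableSet_biInter _ fun x _ => ?_
  refine MeasurableSet.biUnion (Set.to_countable _) fun k _ => ?_
  refine MeasurableSet.biInter (Set.to_countable _) fun y _ => ?_
  exact measurableSet_le measurable_const (measurable_pi_apply y)

private theorem unif_neg {c : ℝ} (hc : 0 < c) : unif c (Set.Iio 0) = 1 / 2 := by
  unfold unif
  rw [Measure.smul_apply, Measure.restrict_apply measurableSet_Iio, smul_eq_mul]
  have h : Set.Iio (0 : ℝ) ∩ Set.Icc (-c) c = Set.Ico (-c) 0 := by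
    ext v
    simp only [Set.mem_inter_iff, Set.mem_Iio, Set.mem_Icc, Set.mem_Ico]
    constructor
    · rintro ⟨h1, h2, -⟩
      exact ⟨h2, h1⟩
    · rintro ⟨h1, h2⟩
      exact ⟨h2, h1, by linarith⟩
  rw [h, Real.volume_Ico, show (0 : ℝ) - -c = c by ring, ← ENNReal.ofReal_inv_of_pos (by linarith),
    ← ENNReal.ofReal_mul (by positivity), show (2 * c)⁻¹ * c = 1 / 2 by field_simp,
    ENNReal.ofReal_div_of_pos (by norm_num)]
  simp

private theorem sh_nat_inj (z : Fin d → ℤ) (j0 : Fin d) {k l : ℕ}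
    (h : sh z j0 k = sh z j0 l) : k = l := by
  have h1 := congrFun h j0
  simp only [sh, Function.update_self] at h1
  omega

private theorem prob_one {pos : ι → Fin d → ℤ} (hpos : Function.Injective pos) {c : ℝ} (hc : 0 < c)
    (B : Finset ι) (j0 : Fin d) (R : ℕ) (x : ι) :
    (Measure.pi fun _ : ι => unif c)
      {V : ι → ℝ | ∀ k : ℕ, k ≤ R → ∃ y ∈ B, pos y = sh (pos x) j0 k ∧ V y < 0} ≤
      (1 / 2) ^ (R + 1) := by
  have hprob := unif_prob hc
  by_cases hx : ∀ k : ℕ, k ≤ R → ∃ y ∈ B, pos y = sh (pos x) j0 k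
  swap
  · push Not at hx
    obtain ⟨k, hk, hy⟩ := hx
    have h0 : {V : ι → ℝ | ∀ k : ℕ, k ≤ R → ∃ y ∈ B, pos y = sh (pos x) j0 k ∧ V y < 0} = ∅ := by
      ext V
      simp only [Set.mem_ofPred_eq, Set.mem_empty_iff_false, iff_false]
      intro h
      obtain ⟨y, hy1, hy2, -⟩ := h k hk
      exact hy y hy1 hy2
    rw [h0, measure_empty]
    exact bot_le
  have : Nonempty ι := ⟨x⟩
  choose! f hfB hf using hx
  have hpi : ∀ _ : ι, SigmaFinite (unif c) := fun _ => inferInstance
  have hinj : Set.InjOn f (((Finset.range (R + 1) : Finset ℕ)) : Set ℕ) := by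
    intro k hk l hl hkl
    have hk' : k ≤ R := by have := Finset.mem_range.mp (Finset.mem_coe.mp hk); omega
    have hl' : l ≤ R := by have := Finset.mem_range.mp (Finset.mem_coe.mp hl); omega
    refine sh_nat_inj (pos x) j0 ?_
    rw [← hf k hk', ← hf l hl', hkl]
  set T : Finset ι := (Finset.range (R + 1)).image f with hT
  have hcard : T.card = R + 1 := by
    rw [hT, Finset.card_image_of_injOn hinj, Finset.card_range]
  have hsub : {V : ι → ℝ | ∀ k : ℕ, k ≤ R → ∃ y ∈ B, pos y = sh (pos x) j0 k ∧ V y < 0} ⊆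
      Set.pi Set.univ fun y => if y ∈ T then Set.Iio (0 : ℝ) else Set.univ := by
    intro V hV y _
    show V y ∈ (if y ∈ T then Set.Iio (0 : ℝ) else Set.univ)
    by_cases hy : y ∈ T
    · rw [if_pos hy]
      obtain ⟨k, hk, rfl⟩ := Finset.mem_image.mp hy
      have hk' : k ≤ R := by have := Finset.mem_range.mp hk; omega
      obtain ⟨y, hy1, hy2, hy3⟩ := hV k hk'
      have : y = f k := hpos (hy2.trans (hf k hk').symm)
      rw [← this]
      exact hy3
    · rw [if_neg hy]
      exact Set.mem_univ _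
  refine (measure_mono hsub).trans ?_
  rw [Measure.pi_pi]
  have hprod : ∀ y : ι, unif c (if y ∈ T then Set.Iio (0 : ℝ) else Set.univ) =
      if y ∈ T then (1 / 2 : ℝ≥0∞) else 1 := by
    intro y
    split_ifs
    · exact unif_neg hc
    · exact measure_univ
  simp only [hprod]
  rw [Finset.prod_ite, Finset.prod_const, Finset.prod_const_one, mul_one]
  have : (univ.filter fun y => y ∈ T) = T := by ext y; simp
  rw [this, hcard]

theorem prob_good {pos : ι → Fin d → ℤ} (hpos : Function.Injective pos) {c : ℝ} (hc : 0 < c)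
    (B : Finset ι) (j0 : Fin d) (R : ℕ) :
    (Measure.pi fun _ : ι => unif c) {V : ι → ℝ | ¬ goodS pos B j0 R V} ≤
      ENNReal.ofReal (B.card * (1 / 2) ^ (R + 1)) := by
  have hsub : {V : ι → ℝ | ¬ goodS pos B j0 R V} ⊆
      ⋃ x ∈ B, {V : ι → ℝ | ∀ k : ℕ, k ≤ R → ∃ y ∈ B, pos y = sh (pos x) j0 k ∧ V y < 0} := by
    intro V hV
    have hV' : ¬ goodS pos B j0 R V := hV
    unfold goodS at hV'
    push Not at hV'
    obtain ⟨x, hx, h⟩ := hV'
    exact Set.mem_biUnion (Finset.mem_coe.mpr hx) h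
  refine (measure_mono hsub).trans ((measure_biUnion_finset_le _ _).trans ?_)
  refine (Finset.sum_le_sum fun x _ => prob_one hpos hc B j0 R x).trans ?_
  rw [Finset.sum_const, nsmul_eq_mul, ENNReal.ofReal_mul (by positivity), ENNReal.ofReal_natCast,
    ENNReal.ofReal_pow (by norm_num), ENNReal.ofReal_div_of_pos (by norm_num)]
  simp

end Pool.Agent.Lib.MP_562b47_mp.ED
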