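import Pool.Agent.Lib.MP_562b47_mp.ED.CT
import Pool.Agent.Lib.MP_562b47_mp.ED.Prob
import Pool.Agent.Lib.MP_562b47_mp.ED.Apri

/-!
Module ED-Fv (MP_562b47_mp): the finite volume criterion holds for the energies `E ≤ -c + ε`.

PROOF.  `s = 1/4`.  Let `B = ball pos x L`, `δ := epsR c R / 2`, `ε := δ`.  If `goodS pos B j0 R V` and
`-c ≤ V` (a.s.), then by `lif` the form of `Ae pos E (cut e B) + V` is `≥ δ` on `B` for `E ≤ -c + ε`, and `ct` with
`A := Ae pos E (cut e B)`, `ρ y := di pos x y`, `D := 2 d`, `μ := √δ / (2 √d)` or `μ := √(δ/(8 d))` (`cosh μ - 1 ≤ μ²` for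
`μ ≤ 1`) gives `‖GM u x‖ ≤ (2/δ) exp (-μ L)` (`GM` is symmetric).  On the complement (probability
`≤ |B| 2^{-(R+1)}`, `|B| ≤ (2L+1)^d`): Cauchy-Schwarz `E[|G|^{1/4}; bad] ≤ (E |G|^{1/2})^{1/2} P(bad)^{1/2}` and
`apriG` with `s = 1/2`, `F = 1`.  With `L := R²` (times a constant) everything tends to zero faster than every
power of `R` (`μ L ≥ c' R`).
-/

open Matrix MeasureTheory Finset
open scoped ENNReal

namespace Pool.Agent.Lib.MP_562b47_mp.ED

open Pool.Agent.Lib.MP_562b47_mp.AL Pool.Agent.Lib.MP_562b47_mp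
open Pool.Agent.Lib.MP_562b47_mp.GD (adj sh)

variable {d : ℕ} {ι : Type} [Fintype ι] [DecidableEq ι]

private theorem fv_card_nb {pos : ι → Fin d → ℤ} (hpos : Function.Injective pos) (x : ι) :
    (univ.filter fun y => adj (pos x) (pos y)).card ≤ 2 * d := by
  classical
  have h1 : (univ.filter fun y => adj (pos x) (pos y)).image pos ⊆
      (univ : Finset (Fin d × Bool)).image (fun p => sh (pos x) p.1 (if p.2 then 1 else -1)) := by
    intro z hz
    obtain ⟨y, hy, rfl⟩ := mem_image.mp hz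
    obtain ⟨i, h | h⟩ := (mem_filter.mp hy).2
    · exact mem_image.mpr ⟨(i, true), mem_univ _, by simp [h]⟩
    · exact mem_image.mpr ⟨(i, false), mem_univ _, by simp [h]⟩
  have h2 := card_le_card h1
  rw [card_image_of_injective _ hpos] at h2
  refine h2.trans (card_image_le.trans ?_)
  simp [Fintype.card_prod, Fintype.card_fin]
  omega

private theorem fv_row {pos : ι → Fin d → ℤ} (hpos : Function.Injective pos) (E : ℝ)
    (e : ι → ι → Prop) (x : ι) : ∑ y ∈ univ.erase x, |Ae pos E e x y| ≤ 2 * d := by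
  classical
  have h1 : ∀ y ∈ univ.erase x, |Ae pos E e x y| ≤ if adj (pos x) (pos y) then 1 else 0 := by
    intro y hy
    have hne : x ≠ y := fun h => (mem_erase.mp hy).1 h.symm
    unfold Ae
    rw [Matrix.of_apply, if_neg hne]
    by_cases ha : adj (pos x) (pos y)
    · rw [if_pos ha]
      split_ifs <;> simp
    · rw [if_neg ha, if_neg (fun h => ha h.1)]
      simp
  calc ∑ y ∈ univ.erase x, |Ae pos E e x y|
      ≤ ∑ y ∈ univ.erase x, (if adj (pos x) (pos y) then (1 : ℝ) else 0) := sum_le_sum h1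
    _ ≤ ∑ y, (if adj (pos x) (pos y) then (1 : ℝ) else 0) :=
        sum_le_sum_of_subset_of_nonneg (erase_subset _ _) fun y _ _ => by split_ifs <;> simp
    _ = ((univ.filter fun y => adj (pos x) (pos y)).card : ℝ) := by
        rw [sum_ite, sum_const_zero, add_zero, sum_const, nsmul_eq_mul, mul_one]
    _ ≤ 2 * d := by exact_mod_cast fv_card_nb hpos x

private theorem fv_card_ball {pos : ι → Fin d → ℤ} (hpos : Function.Injective pos) (x : ι) (L : ℕ) :
    (ball pos x L).card ≤ (2 * L + 1) ^ d := by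
  classical
  have h1 : (ball pos x L).image pos ⊆
      Fintype.piFinset fun j => Icc (pos x j - L) (pos x j + L) := by
    intro z hz
    obtain ⟨y, hy, rfl⟩ := mem_image.mp hz
    rw [mem_ball] at hy
    rw [Fintype.mem_piFinset]
    intro j
    have h2 := (le_di (pos := pos) (x := x) (y := y) j).trans hy
    rw [mem_Icc]
    omega
  have h2 := card_le_card h1
  rw [card_image_of_injective _ hpos, Fintype.card_piFinset] at h2
  refine h2.trans (le_of_eq ?_)
  have h3 : ∀ j : Fin d, (Icc (pos x j - L) (pos x j + L)).card = 2 * L + 1 := by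
    intro j
    rw [Int.card_Icc]
    omega
  simp only [h3, prod_const, card_univ, Fintype.card_fin]

private theorem fv_cosh {μ : ℝ} (h0 : 0 ≤ μ) (h1 : μ ≤ 1) : Real.cosh μ - 1 ≤ μ ^ 2 := by
  have h2 := Real.cosh_le_exp_half_sq μ
  have h3 : |μ ^ 2 / 2| ≤ 1 := by
    rw [abs_of_nonneg (by positivity)]
    nlinarith
  have h4 := Real.abs_exp_sub_one_le h3
  rw [abs_of_nonneg (by positivity : (0 : ℝ) ≤ μ ^ 2 / 2)] at h4
  have h5 := (abs_le.mp h4).2
  linarith

private theorem fv_eps_pos {c : ℝ} (hc : 0 < c) (R : ℕ) : 0 < epsR c R := by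
  unfold epsR
  refine lt_min (by positivity) (by positivity)

private theorem fv_eps_le {c : ℝ} (R : ℕ) : epsR c R ≤ 1 / 2 := by
  unfold epsR
  refine (min_le_right _ _).trans ?_
  have : (1 : ℝ) ≤ ((R : ℝ) + 1) ^ 2 := by
    have : (0 : ℝ) ≤ R := Nat.cast_nonneg R
    nlinarith
  rw [div_le_div_iff₀ (by positivity) (by norm_num)]
  linarith

private theorem fv_eps_ge {c : ℝ} (hc : 0 < c) (R : ℕ) :
    min c 1 / (2 * ((R : ℝ) + 1) ^ 2) ≤ epsR c R := by
  unfold epsR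
  have hR : (0 : ℝ) ≤ R := Nat.cast_nonneg R
  refine le_min ?_ ?_
  · rw [div_le_div_iff₀ (by positivity) (by positivity)]
    have h1 : min c 1 ≤ c := min_le_left _ _
    have h2 : 0 < min c 1 := lt_min hc one_pos
    have h3 : (R : ℝ) + 1 ≤ ((R : ℝ) + 1) ^ 2 := by nlinarith
    nlinarith [mul_le_mul h1 h3 (by positivity) hc.le]
  · exact div_le_div_of_nonneg_right (min_le_right _ _) (by positivity)

/-- the deterministic bound on the good set -/
private theorem fv_good (hd : 0 < d) {c : ℝ} (hc : 0 < c) (R : ℕ) {pos : ι → Fin d → ℤ}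
    (hpos : Function.Injective pos) {e : ι → ι → Prop} (he : ∀ x y, e x y → e y x) {E : ℝ}
    (hE : E ≤ -c + epsR c R / 2) {a : ℝ} (ha : 0 < a) {x u : ι} {L : ℕ} (hxu : di pos x u = L)
    {V : ι → ℝ} (hV : ∀ x, -c ≤ V x) (hg : goodS pos (ball pos x L) ⟨0, hd⟩ R V) :
    ‖GM (Ae pos E (cut e (ball pos x L))) (ua a V) x u‖ ≤
      2 / (epsR c R / 2) * Real.exp (-(Real.sqrt (epsR c R / (8 * d)) * L)) := by
  set δ : ℝ := epsR c R / 2 with hδ
  have hδ0 : 0 < δ := by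
    have := fv_eps_pos hc R
    rw [hδ]; linarith
  set μ : ℝ := Real.sqrt (epsR c R / (8 * d)) with hμ
  have hd' : (1 : ℝ) ≤ d := by exact_mod_cast hd
  have hμ2 : μ ^ 2 = epsR c R / (8 * d) := by
    rw [hμ, Real.sq_sqrt]
    exact div_nonneg (fv_eps_pos hc R).le (by positivity)
  have hμ0 : 0 ≤ μ := Real.sqrt_nonneg _
  have hμ1 : μ ≤ 1 := by
    have h1 : μ ^ 2 ≤ 1 := by
      rw [hμ2, div_le_one (by positivity)]
      have := fv_eps_le (c := c) R
      linarith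
    nlinarith
  have h1 := ct (A := Ae pos E (cut e (ball pos x L))) (Ae_symm E (cut_symm he _)) (V := V) (a := a)
    (δ := δ) (μ := μ) (D := 2 * d) (B := ball pos x L) ha hδ0
    (fun y hy z hz => cut_block hy hz)
    (fun φ hφ => by
      have h2 := lif hpos (E := E) hc (cut_symm he (ball pos x L)) hV hg φ hφ
      refine le_trans ?_ h2
      refine mul_le_mul_of_nonneg_right ?_ (sum_nonneg fun y _ => sq_nonneg _)
      rw [hδ]
      linarith)
    (ρ := fun y => (di pos x y : ℝ))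
    (fun y z hyz => by
      by_cases h : y = z
      · subst h; simp
      · have hadj : adj (pos y) (pos z) := by
          by_contra hn
          apply hyz
          unfold Ae
          rw [Matrix.of_apply, if_neg h, if_neg (fun h => hn h.1)]
        have h3 := di_adj hadj
        have h4 := di_tri pos x y z
        have h5 := di_tri pos x z y
        rw [di_comm pos z y] at h5
        have h6 : (di pos x z : ℝ) ≤ di pos x y + 1 := by
          have : di pos x z ≤ di pos x y + 1 := by omega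
          exact_mod_cast this
        have h7 : (di pos x y : ℝ) ≤ di pos x z + 1 := by
          have : di pos x y ≤ di pos x z + 1 := by omega
          exact_mod_cast this
        rw [abs_le]
        constructor <;> linarith)
    (fun y => fv_row hpos E _ y) hμ0
    (by
      have h3 := fv_cosh hμ0 hμ1
      calc 2 * (d : ℝ) * (Real.cosh μ - 1) ≤ 2 * d * μ ^ 2 :=
            mul_le_mul_of_nonneg_left h3 (by positivity)
        _ = δ / 2 := by
            rw [hμ2, hδ]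
            field_simp
            ring)
    (x0 := x) (by rw [mem_ball, di_self]; exact Nat.zero_le _) (by simp [di_self]) u
  simp only [hxu] at h1
  rw [GM_symm (Ae_symm E (cut_symm he _)) _ x u]
  rw [Real.exp_neg, ← div_eq_mul_inv, le_div_iff₀ (Real.exp_pos _)]
  exact h1

private theorem fv_meas (A : Matrix ι ι ℝ) (a : ℝ) (x u : ι) :
    Measurable fun V : ι → ℝ => GM A (ua a V) x u := by
  refine measurable_GM' A (fun y => ?_) x u
  unfold ua
  exact (Complex.measurable_ofReal.comp (measurable_pi_apply y)).sub_const _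

private theorem fv_int (hd : 0 < d) {c : ℝ} (hc : 0 < c) {C : ℝ} (hC1 : 1 ≤ C)
    (hC : ∀ (ι : Type) [Fintype ι] [DecidableEq ι] (A : Matrix ι ι ℝ), A.IsSymm → ∀ a : ℝ, 0 < a →
      ∀ (x z : ι) (F : (ι → ℝ) → ℝ≥0∞), Measurable F →
        (∀ V v, F (Function.update V x v) = F V) → (∀ V v, F (Function.update V z v) = F V) →
        ∫⁻ V, ‖GM A (ua a V) x z‖ₑ ^ (1 / 2 : ℝ) * F V ∂(Measure.pi fun _ : ι => unif c) ≤
          ENNReal.ofReal C * ∫⁻ V, F V ∂(Measure.pi fun _ : ι => unif c))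
    (R : ℕ) {pos : ι → Fin d → ℤ}
    (hpos : Function.Injective pos) {e : ι → ι → Prop} (he : ∀ x y, e x y → e y x) {E : ℝ}
    (hE : E ≤ -c + epsR c R / 2) {a : ℝ} (ha : 0 < a) {x u : ι} {L : ℕ} (hxu : di pos x u = L) :
    ∫⁻ V, ‖GM (Ae pos E (cut e (ball pos x L))) (ua a V) x u‖ₑ ^ (1 / 4 : ℝ)
      ∂(Measure.pi fun _ : ι => unif c) ≤
      ENNReal.ofReal ((2 / (epsR c R / 2) *
        Real.exp (-(Real.sqrt (epsR c R / (8 * d)) * L))) ^ (1 / 4 : ℝ)) +
      ENNReal.ofReal (Real.sqrt (C * ((2 * L + 1) ^ d * (1 / 2) ^ (R + 1)))) := by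
  have hprob := unif_prob hc
  set A := Ae pos E (cut e (ball pos x L)) with hA
  have hAs : A.IsSymm := Ae_symm E (cut_symm he _)
  set P := Measure.pi fun _ : ι => unif c with hP
  set g : ℝ := 2 / (epsR c R / 2) * Real.exp (-(Real.sqrt (epsR c R / (8 * d)) * L)) with hgdef
  have hg0 : 0 ≤ g := by
    have := fv_eps_pos hc R
    rw [hgdef]
    positivity
  set S : Set (ι → ℝ) := {V | goodS pos (ball pos x L) ⟨0, hd⟩ R V} with hS
  have hSm : MeasurableSet S := meas_good pos _ _ R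
  have hae : ∀ᵐ V ∂P, ∀ y, -c ≤ V y := by
    rw [ae_all_iff]
    intro y
    have h1 := (measurePreserving_eval (fun _ : ι => unif c) y).quasiMeasurePreserving.ae
      (ae_unif c)
    filter_upwards [h1] with V hV
    exact hV.1
  have hm : Measurable fun V : ι → ℝ => ‖GM A (ua a V) x u‖ₑ := (fv_meas A a x u).enorm
  rw [← lintegral_add_compl _ hSm]
  refine add_le_add ?_ ?_
  · have h1 : ∀ᵐ V ∂(P.restrict S), ‖GM A (ua a V) x u‖ₑ ^ (1 / 4 : ℝ) ≤
        ENNReal.ofReal (g ^ (1 / 4 : ℝ)) := by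
      rw [ae_restrict_iff' hSm]
      filter_upwards [hae] with V hV hVS
      have h2 := fv_good hd hc R hpos he hE ha hxu hV hVS
      rw [← ENNReal.ofReal_rpow_of_nonneg hg0 (by norm_num)]
      refine ENNReal.rpow_le_rpow ?_ (by norm_num)
      rw [← ofReal_norm_eq_enorm]
      exact ENNReal.ofReal_le_ofReal h2
    calc ∫⁻ V in S, ‖GM A (ua a V) x u‖ₑ ^ (1 / 4 : ℝ) ∂P
        ≤ ∫⁻ _ in S, ENNReal.ofReal (g ^ (1 / 4 : ℝ)) ∂P := lintegral_mono_ae h1
      _ = ENNReal.ofReal (g ^ (1 / 4 : ℝ)) * P S := setLIntegral_const _ _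
      _ ≤ ENNReal.ofReal (g ^ (1 / 4 : ℝ)) * 1 := mul_le_mul_right prob_le_one _
      _ = ENNReal.ofReal (g ^ (1 / 4 : ℝ)) := mul_one _
  · have hconj : (2 : ℝ).HolderConjugate 2 := Real.HolderConjugate.two_two
    have h1 := ENNReal.lintegral_mul_le_Lp_mul_Lq (P.restrict Sᶜ) hconj
      (f := fun V => ‖GM A (ua a V) x u‖ₑ ^ (1 / 4 : ℝ)) (g := fun _ => 1)
      (hm.pow_const _).aemeasurable measurable_const.aemeasurable
    simp only [Pi.mul_apply, mul_one, ENNReal.one_rpow, lintegral_const, one_mul,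
      Measure.restrict_apply_univ] at h1
    refine h1.trans ?_
    have h2 : ∫⁻ V in Sᶜ, (‖GM A (ua a V) x u‖ₑ ^ (1 / 4 : ℝ)) ^ (2 : ℝ) ∂P ≤
        ENNReal.ofReal C := by
      calc ∫⁻ V in Sᶜ, (‖GM A (ua a V) x u‖ₑ ^ (1 / 4 : ℝ)) ^ (2 : ℝ) ∂P
          ≤ ∫⁻ V, (‖GM A (ua a V) x u‖ₑ ^ (1 / 4 : ℝ)) ^ (2 : ℝ) ∂P :=
            setLIntegral_le_lintegral _ _
        _ = ∫⁻ V, ‖GM A (ua a V) x u‖ₑ ^ (1 / 2 : ℝ) * 1 ∂P := by
            refine lintegral_congr fun V => ?_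
            rw [mul_one, ← ENNReal.rpow_mul]
            norm_num
        _ ≤ ENNReal.ofReal C * ∫⁻ _, 1 ∂P :=
            hC ι A hAs a ha x u (fun _ => 1) measurable_const (fun _ _ => rfl) fun _ _ => rfl
        _ = ENNReal.ofReal C := by simp
    have h3 : P Sᶜ ≤ ENNReal.ofReal ((2 * L + 1) ^ d * (1 / 2) ^ (R + 1)) := by
      refine (prob_good hpos hc (ball pos x L) ⟨0, hd⟩ R).trans ?_
      refine ENNReal.ofReal_le_ofReal (mul_le_mul_of_nonneg_right ?_ (by positivity))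
      exact_mod_cast fv_card_ball hpos x L
    calc (∫⁻ V in Sᶜ, (‖GM A (ua a V) x u‖ₑ ^ (1 / 4 : ℝ)) ^ (2 : ℝ) ∂P) ^ (1 / 2 : ℝ) *
          (P Sᶜ) ^ (1 / 2 : ℝ)
        ≤ ENNReal.ofReal C ^ (1 / 2 : ℝ) *
          ENNReal.ofReal ((2 * L + 1) ^ d * (1 / 2) ^ (R + 1)) ^ (1 / 2 : ℝ) :=
          mul_le_mul' (ENNReal.rpow_le_rpow h2 (by norm_num)) (ENNReal.rpow_le_rpow h3 (by norm_num))
      _ = ENNReal.ofReal (Real.sqrt (C * ((2 * L + 1) ^ d * (1 / 2) ^ (R + 1)))) := by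
          rw [← ENNReal.mul_rpow_of_nonneg _ _ (by norm_num), ← ENNReal.ofReal_mul (by linarith),
            Real.sqrt_eq_rpow, ENNReal.ofReal_rpow_of_nonneg (by positivity) (by norm_num)]

private theorem fv_num (d : ℕ) {c C θ : ℝ} (hc : 0 < c) (hC : 1 ≤ C) (hd : 0 < d) (hθ : 0 < θ) :
    ∃ R : ℕ, (2 * (d : ℝ) * (2 * (((R + 1) ^ 2 : ℕ) : ℝ) + 3) ^ d) ^ 2 *
      ((2 / (epsR c R / 2) *
        Real.exp (-(Real.sqrt (epsR c R / (8 * d)) * (((R + 1) ^ 2 : ℕ) : ℝ)))) ^ (1 / 4 : ℝ) +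
      Real.sqrt (C * ((2 * (((R + 1) ^ 2 : ℕ) : ℝ) + 1) ^ d * (1 / 2) ^ (R + 1)))) ≤ θ := by
  have hd' : (1 : ℝ) ≤ d := by exact_mod_cast hd
  set κ : ℝ := min c 1 with hκ
  have hκ0 : 0 < κ := lt_min hc one_pos
  set κ1 : ℝ := Real.sqrt (κ / (16 * d)) with hκ1
  have hκ10 : 0 < κ1 := Real.sqrt_pos.mpr (by positivity)
  set r1 : ℝ := Real.exp (-(κ1 / 4)) with hr1
  have hr10 : 0 < r1 := Real.exp_pos _
  have hr11 : r1 < 1 := by
    rw [hr1, Real.exp_lt_one_iff]
    linarith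
  set r2 : ℝ := Real.sqrt (1 / 2) with hr2
  have hr20 : 0 ≤ r2 := Real.sqrt_nonneg _
  have hr21 : r2 < 1 := by
    rw [hr2, Real.sqrt_lt' one_pos]
    norm_num
  set K0 : ℝ := (2 * d * 5 ^ d) ^ 2 with hK0
  have hK00 : 0 < K0 := by positivity
  set K1 : ℝ := 1 + 8 / κ with hK1
  have hK10 : 0 < K1 := by positivity
  have t1 := (tendsto_pow_const_mul_const_pow_of_abs_lt_one (4 * d + 2)
    (by rw [abs_of_pos hr10]; exact hr11)).const_mul (K0 * K1)
  have t2 := (tendsto_pow_const_mul_const_pow_of_abs_lt_one (6 * d)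
    (by rw [abs_of_nonneg hr20]; exact hr21)).const_mul (K0 * (C * 3 ^ d))
  have t3 := t1.add t2
  rw [mul_zero, mul_zero, add_zero] at t3
  obtain ⟨N, hN⟩ := Filter.eventually_atTop.1 (t3.eventually_lt_const hθ)
  refine ⟨N, ?_⟩
  have h0 := (hN (N + 1) (Nat.le_succ N)).le
  refine le_trans ?_ h0
  set m : ℝ := (N : ℝ) + 1 with hm
  have hm1 : (1 : ℝ) ≤ m := by
    have : (0 : ℝ) ≤ N := Nat.cast_nonneg N
    linarith
  have hcast : (((N + 1) ^ 2 : ℕ) : ℝ) = m ^ 2 := by push_cast; rfl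
  have hcast' : ((N + 1 : ℕ) : ℝ) = m := by push_cast; rfl
  rw [hcast, hcast']
  have hm2 : (1 : ℝ) ≤ m ^ 2 := one_le_pow₀ hm1
  have e1 : (2 * (d : ℝ) * (2 * m ^ 2 + 3) ^ d) ^ 2 ≤ K0 * m ^ (4 * d) := by
    have h1 : (2 * m ^ 2 + 3) ^ d ≤ (5 * m ^ 2) ^ d :=
      pow_le_pow_left₀ (by positivity) (by linarith) _
    calc (2 * (d : ℝ) * (2 * m ^ 2 + 3) ^ d) ^ 2 ≤ (2 * d * (5 * m ^ 2) ^ d) ^ 2 :=
          pow_le_pow_left₀ (by positivity) (mul_le_mul_of_nonneg_left h1 (by positivity)) _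
      _ = K0 * m ^ (4 * d) := by
          rw [hK0, mul_pow, mul_pow, mul_pow, mul_pow, mul_pow]
          ring
  have hε := fv_eps_ge hc N
  have hε0 := fv_eps_pos hc N
  have e2 : (2 / (epsR c N / 2) * Real.exp (-(Real.sqrt (epsR c N / (8 * d)) * m ^ 2))) ^
      (1 / 4 : ℝ) ≤ K1 * m ^ 2 * r1 ^ (N + 1) := by
    rw [Real.mul_rpow (by positivity) (Real.exp_pos _).le]
    have h1 : (2 / (epsR c N / 2)) ^ (1 / 4 : ℝ) ≤ K1 * m ^ 2 := by
      have h2 : 2 / (epsR c N / 2) ≤ 8 / κ * m ^ 2 := by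
        rw [div_le_iff₀ (by positivity)]
        have h3 : κ ≤ epsR c N * (2 * m ^ 2) := by
          rwa [div_le_iff₀ (by positivity)] at hε
        calc (2 : ℝ) = 2 / κ * κ := by field_simp
          _ ≤ 2 / κ * (epsR c N * (2 * m ^ 2)) := mul_le_mul_of_nonneg_left h3 (by positivity)
          _ = 8 / κ * m ^ 2 * (epsR c N / 2) := by ring
      have h3 : (1 : ℝ) ≤ 8 / κ * m ^ 2 + m ^ 2 := by
        have : 0 ≤ 8 / κ * m ^ 2 := by positivity
        linarith
      calc (2 / (epsR c N / 2)) ^ (1 / 4 : ℝ) ≤ (8 / κ * m ^ 2 + m ^ 2) ^ (1 / 4 : ℝ) :=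
            Real.rpow_le_rpow (by positivity) (by linarith [sq_nonneg m]) (by norm_num)
        _ ≤ (8 / κ * m ^ 2 + m ^ 2) ^ (1 : ℝ) :=
            Real.rpow_le_rpow_of_exponent_le h3 (by norm_num)
        _ = K1 * m ^ 2 := by rw [Real.rpow_one, hK1]; ring
    have h2 : (Real.exp (-(Real.sqrt (epsR c N / (8 * d)) * m ^ 2))) ^ (1 / 4 : ℝ) ≤
        r1 ^ (N + 1) := by
      rw [← Real.exp_mul, hr1, ← Real.exp_nat_mul]
      refine Real.exp_le_exp.mpr ?_
      rw [hcast']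
      have h3 : κ1 / m ≤ Real.sqrt (epsR c N / (8 * d)) := by
        refine Real.le_sqrt_of_sq_le ?_
        rw [div_pow, hκ1, Real.sq_sqrt (by positivity)]
        rw [div_div, div_le_div_iff₀ (by positivity) (by positivity)]
        have h4 : κ ≤ epsR c N * (2 * m ^ 2) := by
          rwa [div_le_iff₀ (by positivity)] at hε
        nlinarith
      have h5 : κ1 * m ≤ Real.sqrt (epsR c N / (8 * d)) * m ^ 2 := by
        calc κ1 * m = κ1 / m * m ^ 2 := by field_simp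
          _ ≤ _ := mul_le_mul_of_nonneg_right h3 (by positivity)
      linarith
    exact mul_le_mul h1 h2 (by positivity) (by positivity)
  have e3 : Real.sqrt (C * ((2 * m ^ 2 + 1) ^ d * (1 / 2) ^ (N + 1))) ≤
      C * 3 ^ d * m ^ (2 * d) * r2 ^ (N + 1) := by
    have h1 : (2 * m ^ 2 + 1) ^ d ≤ 3 ^ d * m ^ (2 * d) := by
      rw [pow_mul, ← mul_pow]
      exact pow_le_pow_left₀ (by positivity) (by linarith) _
    have h2 : (1 : ℝ) ≤ C * 3 ^ d * m ^ (2 * d) := by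
      have h3 : (1 : ℝ) ≤ 3 ^ d := one_le_pow₀ (by norm_num)
      have h4 : (1 : ℝ) ≤ m ^ (2 * d) := one_le_pow₀ hm1
      exact one_le_mul_of_one_le_of_one_le (one_le_mul_of_one_le_of_one_le hC h3) h4
    calc Real.sqrt (C * ((2 * m ^ 2 + 1) ^ d * (1 / 2) ^ (N + 1)))
        ≤ Real.sqrt (C * 3 ^ d * m ^ (2 * d) * (1 / 2) ^ (N + 1)) := by
          refine Real.sqrt_le_sqrt ?_
          calc C * ((2 * m ^ 2 + 1) ^ d * (1 / 2) ^ (N + 1))
              ≤ C * ((3 ^ d * m ^ (2 * d)) * (1 / 2) ^ (N + 1)) :=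
                mul_le_mul_of_nonneg_left (mul_le_mul_of_nonneg_right h1 (by positivity))
                  (by linarith)
            _ = _ := by ring
      _ = Real.sqrt (C * 3 ^ d * m ^ (2 * d)) * r2 ^ (N + 1) := by
          rw [Real.sqrt_mul (by positivity), hr2, Real.sqrt_eq_rpow (1 / 2),
            Real.sqrt_eq_rpow ((1 / 2) ^ (N + 1)), ← Real.rpow_natCast_mul (by norm_num),
            ← Real.rpow_mul_natCast (by norm_num), mul_comm ((N + 1 : ℕ) : ℝ)]
      _ ≤ C * 3 ^ d * m ^ (2 * d) * r2 ^ (N + 1) := by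
          refine mul_le_mul_of_nonneg_right ?_ (by positivity)
          rw [Real.sqrt_le_left (by positivity)]
          nlinarith
  calc (2 * (d : ℝ) * (2 * m ^ 2 + 3) ^ d) ^ 2 * _
      ≤ K0 * m ^ (4 * d) * (K1 * m ^ 2 * r1 ^ (N + 1) + C * 3 ^ d * m ^ (2 * d) * r2 ^ (N + 1)) :=
        mul_le_mul e1 (add_le_add e2 e3) (by positivity) (by positivity)
    _ = _ := by ring

theorem fv (d : ℕ) (hd : 0 < d) {c : ℝ} (hc : 0 < c) {θ : ℝ} (hθ : 0 < θ) :
    ∃ (L : ℕ) (ε : ℝ), 1 ≤ L ∧ 0 < ε ∧ ∀ (ι : Type) [Fintype ι] [DecidableEq ι]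
      (pos : ι → Fin d → ℤ), Function.Injective pos → ∀ e : ι → ι → Prop, (∀ x y, e x y → e y x) →
      ∀ E : ℝ, E ≤ -c + ε → ∀ a : ℝ, 0 < a → ∀ x u : ι, di pos x u = L →
        ENNReal.ofReal ((2 * d * (2 * L + 3) ^ d) ^ 2) *
          ∫⁻ V, ‖GM (Ae pos E (cut e (ball pos x L))) (ua a V) x u‖ₑ ^ (1 / 4 : ℝ)
            ∂(Measure.pi fun _ : ι => unif c) ≤ ENNReal.ofReal θ := by
  obtain ⟨C, hC1, hC⟩ := apriG hc (s := 1 / 2) (by norm_num) (by norm_num)
  obtain ⟨R, hR⟩ := fv_num d hc hC1 hd hθ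
  refine ⟨(R + 1) ^ 2, epsR c R / 2, Nat.one_le_pow _ _ (Nat.succ_pos R), ?_, ?_⟩
  · have := fv_eps_pos hc R
    linarith
  · intro ι _ _ pos hpos e he E hE a ha x u hxu
    have h1 := fv_int hd hc hC1 hC R hpos he hE ha hxu
    refine (mul_le_mul_right h1 _).trans ?_
    rw [← ENNReal.ofReal_add (by have := fv_eps_pos hc R; positivity) (Real.sqrt_nonneg _),
      ← ENNReal.ofReal_mul (by positivity)]
    exact ENNReal.ofReal_le_ofReal hR

end Pool.Agent.Lib.MP_562b47_mp.ED
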