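import Pool.Agent.Lib.MP_562b47_mp.ED.Defs

/-!
Module ED-Prs (MP_562b47_mp): number of the boundary pairs.

PROOF.  `pos` injective: the layer `{di x · = L + 1}` is mapped injectively into the cube of side `2 (L + 1) + 1`
around `pos x` (`le_di`), so it has at most `(2 L + 3)^d` sites; every site has at most `2 d` neighbours
(`adj`: `y = sh x i (±1)`, an injective image of `Fin d × Bool`; compare `RD.Par.card_nb`).
-/

open Matrix MeasureTheory Finset
open scoped ENNReal

namespace Pool.Agent.Lib.MP_562b47_mp.ED

open Pool.Agent.Lib.MP_562b47_mp.AL Pool.Agent.Lib.MP_562b47_mp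
open Pool.Agent.Lib.MP_562b47_mp.GD (adj sh)

private theorem prs_nb {d : ℕ} {ι : Type} [Fintype ι] [DecidableEq ι] {pos : ι → Fin d → ℤ}
    (hpos : Function.Injective pos) (w : ι) (C : Finset ι) :
    (C.filter fun y => adj (pos w) (pos y)).card ≤ 2 * d := by
  classical
  have hsub : (C.filter fun y => adj (pos w) (pos y)).image pos ⊆
      (univ : Finset (Fin d × Bool)).image
        (fun p => sh (pos w) p.1 (if p.2 = true then 1 else -1)) := by
    intro z hz
    rw [mem_image] at hz
    obtain ⟨y, hy, rfl⟩ := hz
    rw [mem_filter] at hy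
    obtain ⟨i, h | h⟩ := hy.2
    · rw [mem_image]
      exact ⟨(i, true), mem_univ _, by rw [h]; simp⟩
    · rw [mem_image]
      exact ⟨(i, false), mem_univ _, by rw [h]; simp⟩
  calc (C.filter fun y => adj (pos w) (pos y)).card
      = ((C.filter fun y => adj (pos w) (pos y)).image pos).card :=
        (card_image_of_injective _ hpos).symm
    _ ≤ _ := card_le_card hsub
    _ ≤ (univ : Finset (Fin d × Bool)).card := card_image_le
    _ = 2 * d := by
        rw [card_univ, Fintype.card_prod, Fintype.card_fin, Fintype.card_bool, mul_comm]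

private theorem prs_layer {d : ℕ} {ι : Type} [Fintype ι] [DecidableEq ι] {pos : ι → Fin d → ℤ}
    (hpos : Function.Injective pos) (x : ι) (L : ℕ) :
    (univ.filter fun w => di pos x w = L + 1).card ≤ (2 * L + 3) ^ d := by
  classical
  have hsub : (univ.filter fun w => di pos x w = L + 1).image pos ⊆
      Fintype.piFinset (fun j : Fin d => Icc (pos x j - (L + 1 : ℕ)) (pos x j + (L + 1 : ℕ))) := by
    intro z hz
    rw [mem_image] at hz
    obtain ⟨y, hy, rfl⟩ := hz
    rw [mem_filter] at hy
    rw [Fintype.mem_piFinset]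
    intro j
    have h1 := le_di (pos := pos) (x := x) (y := y) j
    rw [hy.2] at h1
    rw [mem_Icc]
    omega
  calc (univ.filter fun w => di pos x w = L + 1).card
      = ((univ.filter fun w => di pos x w = L + 1).image pos).card :=
        (card_image_of_injective _ hpos).symm
    _ ≤ _ := card_le_card hsub
    _ = (2 * L + 3) ^ d := by
        rw [Fintype.card_piFinset]
        have h2 : ∀ j : Fin d,
            (Icc (pos x j - (L + 1 : ℕ)) (pos x j + (L + 1 : ℕ))).card = 2 * L + 3 := by
          intro j
          rw [Int.card_Icc]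
          omega
        rw [prod_congr rfl fun j _ => h2 j, prod_const, card_univ, Fintype.card_fin]

theorem card_prs {d : ℕ} {ι : Type} [Fintype ι] [DecidableEq ι] {pos : ι → Fin d → ℤ}
    (hpos : Function.Injective pos) (x : ι) (L : ℕ) (C : Finset ι) :
    (prs pos (univ.filter fun w => di pos x w = L + 1) C).card ≤ 2 * d * (2 * L + 3) ^ d ∧
    (prs pos C (univ.filter fun w => di pos x w = L + 1)).card ≤ 2 * d * (2 * L + 3) ^ d := by
  set A := univ.filter fun w => di pos x w = L + 1 with hA
  have hl : A.card ≤ (2 * L + 3) ^ d := prs_layer hpos x L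
  have key : ∑ w ∈ A, (C.filter fun y => adj (pos w) (pos y)).card ≤ 2 * d * (2 * L + 3) ^ d := by
    calc ∑ w ∈ A, (C.filter fun y => adj (pos w) (pos y)).card ≤ ∑ _w ∈ A, 2 * d :=
          sum_le_sum fun w _ => prs_nb hpos w C
      _ = A.card * (2 * d) := by rw [sum_const, smul_eq_mul]
      _ ≤ (2 * L + 3) ^ d * (2 * d) := Nat.mul_le_mul_right _ hl
      _ = _ := by ring
  constructor
  · refine le_trans (le_of_eq ?_) key
    unfold prs
    rw [card_filter, sum_product]
    refine sum_congr rfl fun w _ => ?_
    rw [card_filter]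
  · refine le_trans (le_of_eq ?_) key
    unfold prs
    rw [card_filter, sum_product_right]
    refine sum_congr rfl fun w _ => ?_
    rw [card_filter]
    refine sum_congr rfl fun y _ => ?_
    have h : adj (pos y) (pos w) ↔ adj (pos w) (pos y) := GX.adj_comm _ _
    by_cases hc : adj (pos w) (pos y)
    · rw [if_pos (h.2 hc), if_pos hc]
    · rw [if_neg (fun hh => hc (h.1 hh)), if_neg hc]

end Pool.Agent.Lib.MP_562b47_mp.ED
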