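import Pool.Agent.Lib.MP_562b47_mp.ED.Apri
import Pool.Agent.Lib.MP_562b47_mp.ED.Dec

/-!
Module ED-Step (MP_562b47_mp): one step of the expansion, in the mean.

PROOF.  Take the power `1/4` of `dec` (subadditive: `(∑ a_i)^s ≤ ∑ a_i^s` for `s ≤ 1`, ENNReal), integrate; for fixed
`p, q` the factors `|G_B(x,p.1)|^s` (depends only on `V` in `B`, `G_update_out`) and `|G_O(q.2,y)|^s` (depends only
on `V` in `O`) do not depend on `V p.2`, `V q.1` (both in the layer): `apriG` with `s = 1/4` and `F :=` the product of the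
two; then the integral of the product is the product of the integrals (independence of the coordinates in `B`
and in `O`, `B` and `O` disjoint: `iIndepFun_pi`, `indepFun_finset`, `lintegral_mul_eq_lintegral_mul_lintegral_of_indepFun`,
or Fubini).  If `p.1` is not in `B` etc. nothing is needed: `p.1 ∈ B`, `q.2 ∈ O` by `mem_prs`.
-/

open Matrix MeasureTheory Finset
open scoped ENNReal

namespace Pool.Agent.Lib.MP_562b47_mp.ED

open Pool.Agent.Lib.MP_562b47_mp.AL Pool.Agent.Lib.MP_562b47_mp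
open Pool.Agent.Lib.MP_562b47_mp.GD (adj sh)

/-- powers at most one are subadditive -/
private theorem rpow_sum_le' {κ : Type*} (S : Finset κ) (f : κ → ℝ≥0∞) {p : ℝ} (hp : 0 < p)
    (hp1 : p ≤ 1) : (∑ i ∈ S, f i) ^ p ≤ ∑ i ∈ S, f i ^ p := by
  classical
  induction S using Finset.induction_on with
  | empty => simp [ENNReal.zero_rpow_of_pos hp]
  | insert a S ha ih =>
    rw [Finset.sum_insert ha, Finset.sum_insert ha]
    exact (ENNReal.rpow_add_le_add_rpow _ _ hp.le hp1).trans (by gcongr)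

/-- a function which is not changed by an update outside `B` depends only on `B` -/
private theorem dep_of_update {ι : Type} [Fintype ι] [DecidableEq ι] {F : (ι → ℝ) → ℝ≥0∞}
    {B : Finset ι} (h : ∀ V, ∀ w, w ∉ B → ∀ v, F (Function.update V w v) = F V) (V W : ι → ℝ)
    (hVW : ∀ i ∈ B, V i = W i) : F V = F W := by
  have key : ∀ S : Finset ι, (∀ i ∈ S, i ∉ B) →
      F (fun i => if i ∈ S then W i else V i) = F V := by
    intro S
    induction S using Finset.induction_on with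
    | empty => intro _; simp
    | insert a S ha ih =>
      intro hS
      have h1 : (fun i => if i ∈ insert a S then W i else V i) =
          Function.update (fun i => if i ∈ S then W i else V i) a (W a) := by
        funext i
        by_cases hi : i = a
        · subst hi
          simp
        · rw [Function.update_of_ne hi]
          simp [hi]
      rw [h1, h _ a (hS a (Finset.mem_insert_self a S)) _]
      exact ih fun i hi => hS i (Finset.mem_insert_of_mem hi)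
  have h2 := key (univ.filter fun i => i ∉ B) (fun i hi => (Finset.mem_filter.1 hi).2)
  rw [← h2]
  congr 1
  funext i
  by_cases hi : i ∈ B
  · simp [hi, hVW i hi]
  · simp [hi]

private theorem lint_mul_of_disj {ι : Type} [Fintype ι] [DecidableEq ι] (μ : Measure ℝ)
    [IsProbabilityMeasure μ] {F G : (ι → ℝ) → ℝ≥0∞} (hF : Measurable F) (hG : Measurable G)
    {B O : Finset ι} (hBO : Disjoint B O)
    (h1 : ∀ V, ∀ w, w ∉ B → ∀ v, F (Function.update V w v) = F V)
    (h2 : ∀ V, ∀ w, w ∉ O → ∀ v, G (Function.update V w v) = G V) :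
    ∫⁻ V, F V * G V ∂(Measure.pi fun _ : ι => μ) =
      (∫⁻ V, F V ∂(Measure.pi fun _ : ι => μ)) * ∫⁻ V, G V ∂(Measure.pi fun _ : ι => μ) := by
  have hind : ProbabilityTheory.iIndepFun (fun (i : ι) (V : ι → ℝ) => V i)
      (Measure.pi fun _ : ι => μ) :=
    ProbabilityTheory.iIndepFun_pi (X := fun _ => id) (μ := fun _ : ι => μ)
      (fun _ => aemeasurable_id)
  have hi := hind.indepFun_finset B O hBO (fun i => measurable_pi_apply i)
  have ext : ∀ C : Finset ι, Measurable (fun (w : C → ℝ) (i : ι) =>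
      if h : i ∈ C then w ⟨i, h⟩ else (0 : ℝ)) := by
    intro C
    refine measurable_pi_lambda _ fun i => ?_
    by_cases h : i ∈ C
    · simp only [h, dif_pos]
      exact measurable_pi_apply _
    · simp only [h, dif_neg, not_false_eq_true]
      exact measurable_const
  have hF' : F = (fun w : B → ℝ => F fun i => if h : i ∈ B then w ⟨i, h⟩ else 0) ∘
      (fun V (i : B) => V i) := by
    funext V
    refine dep_of_update h1 _ _ fun i hi => ?_
    simp [hi]
  have hG' : G = (fun w : O → ℝ => G fun i => if h : i ∈ O then w ⟨i, h⟩ else 0) ∘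
      (fun V (i : O) => V i) := by
    funext V
    refine dep_of_update h2 _ _ fun i hi => ?_
    simp [hi]
  have hi2 := hi.comp (hF.comp (ext B)) (hG.comp (ext O))
  have e1 : F = (F ∘ fun (w : B → ℝ) (i : ι) => if h : i ∈ B then w ⟨i, h⟩ else (0 : ℝ)) ∘
      (fun V (i : B) => V i) := hF'
  have e2 : G = (G ∘ fun (w : O → ℝ) (i : ι) => if h : i ∈ O then w ⟨i, h⟩ else (0 : ℝ)) ∘
      (fun V (i : O) => V i) := hG'
  rw [← e1, ← e2] at hi2
  exact ProbabilityTheory.lintegral_mul_eq_lintegral_mul_lintegral_of_indepFun'' hF.aemeasurable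
    hG.aemeasurable hi2

theorem step {c : ℝ} (hc : 0 < c) : ∃ C : ℝ, 1 ≤ C ∧ ∀ (d : ℕ) (ι : Type) [Fintype ι] [DecidableEq ι]
    (pos : ι → Fin d → ℤ) (E : ℝ) (e : ι → ι → Prop), (∀ x y, e x y → e y x) → ∀ a : ℝ, 0 < a →
    ∀ (L : ℕ) (x y : ι), L + 1 < di pos x y →
      ∫⁻ V, ‖GM (Ae pos E e) (ua a V) x y‖ₑ ^ (1 / 4 : ℝ) ∂(Measure.pi fun _ : ι => unif c) ≤
        ENNReal.ofReal C *
        ∑ p ∈ prs pos (ball pos x L) (univ.filter fun w => di pos x w = L + 1),
          ∑ q ∈ prs pos (univ.filter fun w => di pos x w = L + 1) (outs pos x (L + 1)),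
            (∫⁻ V, ‖GM (Ae pos E (cut e (ball pos x L))) (ua a V) x p.1‖ₑ ^ (1 / 4 : ℝ)
              ∂(Measure.pi fun _ : ι => unif c)) *
            ∫⁻ V, ‖GM (Ae pos E (cut e (outs pos x (L + 1)))) (ua a V) q.2 y‖ₑ ^ (1 / 4 : ℝ)
              ∂(Measure.pi fun _ : ι => unif c) := by
  have := unif_prob hc
  obtain ⟨C, hC1, hC⟩ := apriG (c := c) (s := 1 / 4) hc (by norm_num) (by norm_num)
  refine ⟨C, hC1, ?_⟩
  intro d ι _ _ pos E e he a ha L x y hy
  obtain ⟨B, hB⟩ : ∃ B, B = ball pos x L := ⟨_, rfl⟩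
  obtain ⟨O, hO⟩ : ∃ O, O = outs pos x (L + 1) := ⟨_, rfl⟩
  obtain ⟨Y, hY⟩ : ∃ Y : Finset ι, Y = univ.filter fun w => di pos x w = L + 1 := ⟨_, rfl⟩
  rw [← hB, ← hO, ← hY]
  have mB : ∀ w, w ∈ B ↔ di pos x w ≤ L := fun w => by rw [hB, mem_ball]
  have mO : ∀ w, w ∈ O ↔ L + 1 < di pos x w := fun w => by rw [hO, mem_outs]
  have mY : ∀ w, w ∈ Y ↔ di pos x w = L + 1 := fun w => by rw [hY]; simp
  have hxB : x ∈ B := (mB x).2 (by rw [di_self]; omega)
  have hyO : y ∈ O := (mO y).2 hy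
  have hdisj : Disjoint B O := by
    rw [Finset.disjoint_left]
    intro w h1 h2
    have h3 := (mB w).1 h1
    have h4 := (mO w).1 h2
    omega
  have hmeas : ∀ (A : Matrix ι ι ℝ) (u v : ι),
      Measurable fun V : ι → ℝ => ‖GM A (ua a V) u v‖ₑ ^ (1 / 4 : ℝ) := by
    intro A u v
    exact ((measurable_GM' A (u := fun (V : ι → ℝ) x => ((V x : ℝ) : ℂ) - a * Complex.I)
      (fun x => by fun_prop) u v).enorm).pow_const _
  -- the pointwise bound
  have hpt : ∀ V : ι → ℝ, ‖GM (Ae pos E e) (ua a V) x y‖ₑ ^ (1 / 4 : ℝ) ≤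
      ∑ p ∈ prs pos B Y, ∑ q ∈ prs pos Y O,
        ‖GM (Ae pos E e) (ua a V) p.2 q.1‖ₑ ^ (1 / 4 : ℝ) *
          (‖GM (Ae pos E (cut e B)) (ua a V) x p.1‖ₑ ^ (1 / 4 : ℝ) *
            ‖GM (Ae pos E (cut e O)) (ua a V) q.2 y‖ₑ ^ (1 / 4 : ℝ)) := by
    intro V
    have h1 := dec (pos := pos) (E := E) (e := e) he ha V hy
    rw [← hB, ← hO, ← hY] at h1
    have h2 := ENNReal.rpow_le_rpow h1 (z := (1 / 4 : ℝ)) (by norm_num)
    refine h2.trans ((rpow_sum_le' _ _ (by norm_num) (by norm_num)).trans ?_)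
    refine Finset.sum_le_sum fun p _ => ?_
    refine (rpow_sum_le' _ _ (by norm_num) (by norm_num)).trans ?_
    refine Finset.sum_le_sum fun q _ => le_of_eq ?_
    rw [ENNReal.mul_rpow_of_nonneg _ _ (by norm_num), ENNReal.mul_rpow_of_nonneg _ _ (by norm_num)]
    ring
  refine (lintegral_mono hpt).trans ?_
  have hmT : ∀ (p q : ι × ι), Measurable fun V : ι → ℝ =>
      ‖GM (Ae pos E e) (ua a V) p.2 q.1‖ₑ ^ (1 / 4 : ℝ) *
        (‖GM (Ae pos E (cut e B)) (ua a V) x p.1‖ₑ ^ (1 / 4 : ℝ) *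
          ‖GM (Ae pos E (cut e O)) (ua a V) q.2 y‖ₑ ^ (1 / 4 : ℝ)) := fun p q =>
    (hmeas _ _ _).mul ((hmeas _ _ _).mul (hmeas _ _ _))
  rw [lintegral_finsetSum _ (fun p _ => Finset.measurable_fun_sum _ fun q _ => hmT p q),
    Finset.mul_sum]
  refine Finset.sum_le_sum fun p hp => ?_
  rw [lintegral_finsetSum _ (fun q _ => hmT p q), Finset.mul_sum]
  refine Finset.sum_le_sum fun q hq => ?_
  rw [mem_prs] at hp hq
  obtain ⟨hp1, hp2, -⟩ := hp
  obtain ⟨hq1, hq2, -⟩ := hq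
  have hp2' := (mY _).1 hp2
  have hq1' := (mY _).1 hq1
  have nB : ∀ w, di pos x w = L + 1 → w ∉ B := fun w h h' => by
    have := (mB w).1 h'
    omega
  have nO : ∀ w, di pos x w = L + 1 → w ∉ O := fun w h h' => by
    have := (mO w).1 h'
    omega
  have hFB : ∀ V, ∀ w, w ∉ B → ∀ v,
      ‖GM (Ae pos E (cut e B)) (ua a (Function.update V w v)) x p.1‖ₑ ^ (1 / 4 : ℝ) =
        ‖GM (Ae pos E (cut e B)) (ua a V) x p.1‖ₑ ^ (1 / 4 : ℝ) := by
    intro V w hw v
    rw [G_update_out he ha V hxB hp1 hw v]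
  have hFO : ∀ V, ∀ w, w ∉ O → ∀ v,
      ‖GM (Ae pos E (cut e O)) (ua a (Function.update V w v)) q.2 y‖ₑ ^ (1 / 4 : ℝ) =
        ‖GM (Ae pos E (cut e O)) (ua a V) q.2 y‖ₑ ^ (1 / 4 : ℝ) := by
    intro V w hw v
    rw [G_update_out he ha V hq2 hyO hw v]
  have h3 := hC ι (Ae pos E e) (Ae_symm E he) a ha p.2 q.1
    (fun V => ‖GM (Ae pos E (cut e B)) (ua a V) x p.1‖ₑ ^ (1 / 4 : ℝ) *
      ‖GM (Ae pos E (cut e O)) (ua a V) q.2 y‖ₑ ^ (1 / 4 : ℝ))
    ((hmeas _ _ _).mul (hmeas _ _ _))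
    (fun V v => congrArg₂ (· * ·) (hFB V p.2 (nB _ hp2') v) (hFO V p.2 (nO _ hp2') v))
    (fun V v => congrArg₂ (· * ·) (hFB V q.1 (nB _ hq1') v) (hFO V q.1 (nO _ hq1') v))
  refine h3.trans (le_of_eq ?_)
  rw [lint_mul_of_disj (unif c) (hmeas _ _ _) (hmeas _ _ _) hdisj hFB hFO]

end Pool.Agent.Lib.MP_562b47_mp.ED
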