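import Pool.Agent.Lib.MP_562b47_mp.ED.Fv
import Pool.Agent.Lib.MP_562b47_mp.ED.Prs
import Pool.Agent.Lib.MP_562b47_mp.ED.Step

/-!
Module ED-Iter (MP_562b47_mp): exponential decay of `E |G|^{1/4}` for `E ≤ -c + ε`, uniformly in the
(finite) region.

PROOF.  `C :=` max of the constants of `step` and of `apriG` (s = 1/4, F = 1, case `k = 0`), `θ := 1 / (2 C)` in `fv`;
number of `p` and of `q` `≤ N := 2 d (2 L + 3)^d` (`card_prs`); `p.1` has `di x p.1 = L` (in the ball, adjacent to the layer: `di_tri`,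
`di_adj`), so `fv` applies: the sum over `p`, `q` of the first factors is `≤ θ`.  `q.2` satisfies `di x q.2 ≤ L + 2`, so
`di q.2 y ≥ di x y - (L + 2) ≥ k (L + 2)`: induction on `k` for all edge sets `e`, `x`, `y` at once (`cut_symm`).
-/

open Matrix MeasureTheory Finset
open scoped ENNReal

namespace Pool.Agent.Lib.MP_562b47_mp.ED

open Pool.Agent.Lib.MP_562b47_mp.AL Pool.Agent.Lib.MP_562b47_mp
open Pool.Agent.Lib.MP_562b47_mp.GD (adj sh)

theorem iter (d : ℕ) (hd : 0 < d) {c : ℝ} (hc : 0 < c) :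
    ∃ (L : ℕ) (ε C : ℝ), 0 < ε ∧ 1 ≤ C ∧ ∀ (ι : Type) [Fintype ι] [DecidableEq ι]
      (pos : ι → Fin d → ℤ), Function.Injective pos → ∀ E : ℝ, E ≤ -c + ε → ∀ a : ℝ, 0 < a →
      ∀ (k : ℕ) (e : ι → ι → Prop), (∀ x y, e x y → e y x) → ∀ x y : ι,
        k * (L + 2) ≤ di pos x y →
        ∫⁻ V, ‖GM (Ae pos E e) (ua a V) x y‖ₑ ^ (1 / 4 : ℝ) ∂(Measure.pi fun _ : ι => unif c) ≤
          ENNReal.ofReal (C * (1 / 2) ^ k) := by
  have := unif_prob hc
  obtain ⟨C1, hC1, hstep⟩ := step (c := c) hc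
  obtain ⟨C2, hC2, hapr⟩ := apriG (c := c) (s := 1 / 4) hc (by norm_num) (by norm_num)
  have hC1' : 0 < C1 := by linarith
  have hθ : (0 : ℝ) < 1 / (2 * C1) := by positivity
  obtain ⟨L, ε, hL, hε, hfv⟩ := fv d hd hc hθ
  refine ⟨L, ε, C2, hε, hC2, ?_⟩
  intro ι _ _ pos hpos E hE a ha k
  obtain ⟨N, hN⟩ : ∃ N : ℕ, N = 2 * d * (2 * L + 3) ^ d := ⟨_, rfl⟩
  have hNpos : 0 < N := by
    rw [hN]
    positivity
  have hNR : (0 : ℝ) < (N : ℝ) := by exact_mod_cast hNpos
  have hNcast : (2 * d * (2 * L + 3) ^ d : ℝ) = (N : ℝ) := by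
    rw [hN]
    push_cast
    ring
  induction k with
  | zero =>
    intro e he x y _
    have h := hapr ι (Ae pos E e) (Ae_symm E he) a ha x y (fun _ => 1) measurable_const
      (fun _ _ => rfl) (fun _ _ => rfl)
    simpa using h
  | succ k ih =>
    intro e he x y hxy
    have hxy' : L + 1 < di pos x y := by
      have : (k + 1) * (L + 2) = k * (L + 2) + (L + 2) := by ring
      omega
    refine (hstep d ι pos E e he a ha L x y hxy').trans ?_
    have hterm : ∀ p ∈ prs pos (ball pos x L) (univ.filter fun w => di pos x w = L + 1),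
        ∀ q ∈ prs pos (univ.filter fun w => di pos x w = L + 1) (outs pos x (L + 1)),
        (∫⁻ V, ‖GM (Ae pos E (cut e (ball pos x L))) (ua a V) x p.1‖ₑ ^ (1 / 4 : ℝ)
              ∂(Measure.pi fun _ : ι => unif c)) *
            ∫⁻ V, ‖GM (Ae pos E (cut e (outs pos x (L + 1)))) (ua a V) q.2 y‖ₑ ^ (1 / 4 : ℝ)
              ∂(Measure.pi fun _ : ι => unif c) ≤
          ENNReal.ofReal (1 / (2 * C1) / (N : ℝ) ^ 2) * ENNReal.ofReal (C2 * (1 / 2) ^ k) := by
      intro p hp q hq
      rw [mem_prs] at hp hq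
      obtain ⟨hp1, hp2, hp3⟩ := hp
      obtain ⟨hq1, hq2, hq3⟩ := hq
      rw [mem_ball] at hp1
      have hp2' : di pos x p.2 = L + 1 := (mem_filter.mp hp2).2
      have hq1' : di pos x q.1 = L + 1 := (mem_filter.mp hq1).2
      have hpL : di pos x p.1 = L := by
        have h1 := di_tri pos x p.1 p.2
        have h2 := di_adj hp3
        omega
      have hq2' : k * (L + 2) ≤ di pos q.2 y := by
        have h1 := di_tri pos x q.2 y
        have h2 := di_tri pos x q.1 q.2
        have h3 := di_adj hq3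
        have h4 : (k + 1) * (L + 2) = k * (L + 2) + (L + 2) := by ring
        omega
      refine mul_le_mul' ?_ (ih _ (cut_symm he _) q.2 y hq2')
      have h5 := hfv ι pos hpos e he E hE a ha x p.1 hpL
      rw [hNcast] at h5
      rw [ENNReal.ofReal_div_of_pos (by positivity), ENNReal.le_div_iff_mul_le
        (Or.inl (by simp [hNpos.ne'])) (Or.inl ENNReal.ofReal_ne_top), mul_comm]
      exact h5
    have hsum : ∑ p ∈ prs pos (ball pos x L) (univ.filter fun w => di pos x w = L + 1),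
          ∑ q ∈ prs pos (univ.filter fun w => di pos x w = L + 1) (outs pos x (L + 1)),
            (∫⁻ V, ‖GM (Ae pos E (cut e (ball pos x L))) (ua a V) x p.1‖ₑ ^ (1 / 4 : ℝ)
              ∂(Measure.pi fun _ : ι => unif c)) *
            ∫⁻ V, ‖GM (Ae pos E (cut e (outs pos x (L + 1)))) (ua a V) q.2 y‖ₑ ^ (1 / 4 : ℝ)
              ∂(Measure.pi fun _ : ι => unif c) ≤
        (N : ℝ≥0∞) * ((N : ℝ≥0∞) *
          (ENNReal.ofReal (1 / (2 * C1) / (N : ℝ) ^ 2) * ENNReal.ofReal (C2 * (1 / 2) ^ k))) := by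
      refine (Finset.sum_le_sum fun p hp => Finset.sum_le_sum fun q hq => hterm p hp q hq).trans ?_
      rw [Finset.sum_const, Finset.sum_const, nsmul_eq_mul, nsmul_eq_mul]
      have c1 := (card_prs hpos x L (ball pos x L)).2
      have c2 := (card_prs hpos x L (outs pos x (L + 1))).1
      rw [← hN] at c1 c2
      gcongr
    refine (mul_le_mul' le_rfl hsum).trans (le_of_eq ?_)
    rw [← ENNReal.ofReal_natCast, ← ENNReal.ofReal_mul (by positivity),
      ← ENNReal.ofReal_mul (by positivity), ← ENNReal.ofReal_mul (by positivity),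
      ← ENNReal.ofReal_mul (by positivity)]
    congr 1
    field_simp
    ring

end Pool.Agent.Lib.MP_562b47_mp.ED
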