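import Pool.Agent.Lib.MP_562b47_mp.ED.Defs

/-!
Module ED-Lif (MP_562b47_mp): lower bound of `H - E` on a region `B` in which every site has, within
`R` steps in the direction `e_{j0}`, a site which is not in `B` or has `V ≥ 0`.

PROOF.  Extend `|φ|` by zero to `f : (Fin d → ℤ) → ℝ` (`f z = |φ y|` if `z = pos y`, `y ∈ B`).  With
`W = V + c ≥ 0`:  `∑ φ A φ + ∑ V φ² = [∑ 2 d φ² - ∑_{x ≠ y, adj, e} φ_x φ_y] + ∑ W φ² - (E + c) ∑ φ²` and
`[...] ≥ ∑_z ∑_j (f (z + e_j) - f z)² ≥ ∑_z (f (z + e_{j0}) - f z)²` (each term `- φ_x φ_y ≥ -|φ_x||φ_y|`;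
finite support).  (Work with finite sums: e.g. over `B` and its shifts; or prove
`∑_{x} (2 φ_x²) - 2 ∑_{(x,y): pos y = pos x + e_{j}} |φ_x φ_y| ≥ ∑ (f(z+e_j) - f z)²` for every `j`, which is an
identity, and drop `j ≠ j0` by `2 |φ_x φ_y| ≤ φ_x² + φ_y²`.)
For `x ∈ B` choose `k ≤ R` as in `goodS`; `f(x)² ≤ 2 f(x + k e)² + 2 k ∑_{i<k} (f(x+(i+1)e) - f(x+i e))²` and
`f(x + k e)² ≤ (1/c) (W f²)(x + k e)` (zero if `x + k e` is not in `B`, else `W ≥ c` there).  Sum over `x ∈ B`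
(each site / edge is used by at most `R + 1` / `R` points `x`):
`∑ φ² ≤ 2 (R+1)/c ∑ W φ² + 2 R² ∑_z (f(z+e)-f z)² ≤ (1 / epsR) (∑ W φ² + D)`.
-/

open Matrix MeasureTheory Finset

namespace Pool.Agent.Lib.MP_562b47_mp.ED

open Pool.Agent.Lib.MP_562b47_mp.AL Pool.Agent.Lib.MP_562b47_mp
open Pool.Agent.Lib.MP_562b47_mp.GD (adj sh)

variable {d : ℕ} {ι : Type} [Fintype ι] [DecidableEq ι]

/-- the gap -/
noncomputable def epsR (c : ℝ) (R : ℕ) : ℝ :=
  min (c / (2 * ((R : ℝ) + 1))) (1 / (2 * ((R : ℝ) + 1) ^ 2))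

/-- every site of `B` has, within `R` steps in the direction `j0`, a site outside `B` or a site with
`V ≥ 0` -/
def goodS (pos : ι → Fin d → ℤ) (B : Finset ι) (j0 : Fin d) (R : ℕ) (V : ι → ℝ) : Prop :=
  ∀ x ∈ B, ∃ k : ℕ, k ≤ R ∧ ∀ y ∈ B, pos y = sh (pos x) j0 k → 0 ≤ V y

section aux

/-- extension by zero of a function on `ι` -/
private def ex (pos : ι → Fin d → ℤ) (u : ι → ℝ) (z : Fin d → ℤ) : ℝ :=
  ∑ y, if pos y = z then u y else 0

private theorem ex_pos {pos : ι → Fin d → ℤ} (hpos : Function.Injective pos) (u : ι → ℝ) (x : ι) :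
    ex pos u (pos x) = u x := by
  unfold ex
  rw [Finset.sum_eq_single x]
  · rw [if_pos rfl]
  · intro y _ hy
    rw [if_neg fun h => hy (hpos h)]
  · intro h
    exact absurd (mem_univ x) h

private theorem ex_none {pos : ι → Fin d → ℤ} (u : ι → ℝ) (z : Fin d → ℤ)
    (h : ∀ y, pos y ≠ z) : ex pos u z = 0 := by
  unfold ex
  exact Finset.sum_eq_zero fun y _ => if_neg (h y)

private theorem ex_nonneg {pos : ι → Fin d → ℤ} {u : ι → ℝ} (hu : ∀ y, 0 ≤ u y)
    (z : Fin d → ℤ) : 0 ≤ ex pos u z := by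
  unfold ex
  refine Finset.sum_nonneg fun y _ => ?_
  split_ifs
  · exact hu y
  · exact le_rfl

private theorem ex_sum_le {pos : ι → Fin d → ℤ} {u : ι → ℝ} (hu : ∀ y, 0 ≤ u y)
    (T : Finset (Fin d → ℤ)) : ∑ z ∈ T, ex pos u z ≤ ∑ y, u y := by
  unfold ex
  rw [Finset.sum_comm]
  refine Finset.sum_le_sum fun y _ => ?_
  rw [Finset.sum_ite_eq]
  split_ifs
  · exact le_rfl
  · exact hu y

private theorem ex_sh_le {pos : ι → Fin d → ℤ} {u : ι → ℝ} (hu : ∀ y, 0 ≤ u y)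
    (T : Finset (Fin d → ℤ)) (j : Fin d) (k : ℤ) :
    ∑ z ∈ T, ex pos u (sh z j k) ≤ ∑ y, u y := by
  have h1 : ∑ z ∈ T, ex pos u (sh z j k) = ∑ z ∈ T.image (fun z => sh z j k), ex pos u z := by
    rw [Finset.sum_image]
    intro a _ b _ h
    exact GD.sh_inj a b j k h
  rw [h1]
  exact ex_sum_le hu _

private theorem ex_B_le {pos : ι → Fin d → ℤ} (hpos : Function.Injective pos) {u : ι → ℝ}
    (hu : ∀ y, 0 ≤ u y) (B : Finset ι) (j : Fin d) (k : ℤ) :
    ∑ x ∈ B, ex pos u (sh (pos x) j k) ≤ ∑ y, u y := by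
  have h1 : ∑ x ∈ B, ex pos u (sh (pos x) j k) = ∑ z ∈ B.image pos, ex pos u (sh z j k) := by
    rw [Finset.sum_image]
    intro a _ b _ h
    exact hpos h
  rw [h1]
  exact ex_sh_le hu _ j k

private theorem ex_sq {pos : ι → Fin d → ℤ} (hpos : Function.Injective pos) (φ : ι → ℝ)
    (z : Fin d → ℤ) :
    ex pos (fun y => |φ y|) z ^ 2 = ex pos (fun y => φ y ^ 2) z := by
  by_cases h : ∃ y, pos y = z
  · obtain ⟨y, rfl⟩ := h
    rw [ex_pos hpos, ex_pos hpos, sq_abs]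
  · have h' : ∀ y, pos y ≠ z := fun y hy => h ⟨y, hy⟩
    rw [ex_none _ z h', ex_none _ z h']
    norm_num

/-- the products of neighbours in the direction `j` -/
private def Sj (pos : ι → Fin d → ℤ) (φ : ι → ℝ) (j : Fin d) (k : ℤ) : ℝ :=
  ∑ x, |φ x| * ex pos (fun y => |φ y|) (sh (pos x) j k)

private theorem Sj_symm (pos : ι → Fin d → ℤ) (φ : ι → ℝ) (j : Fin d) :
    Sj pos φ j (-1) = Sj pos φ j 1 := by
  unfold Sj ex
  simp_rw [Finset.mul_sum]
  rw [Finset.sum_comm]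
  refine Finset.sum_congr rfl fun y _ => Finset.sum_congr rfl fun x _ => ?_
  have h : pos y = sh (pos x) j (-1) ↔ pos x = sh (pos y) j 1 := by
    constructor
    · intro h
      rw [h, GD.sh_sh]
      norm_num
      rw [GD.sh_zero]
    · intro h
      rw [h, GD.sh_sh]
      norm_num
      rw [GD.sh_zero]
  by_cases h1 : pos y = sh (pos x) j (-1)
  · rw [if_pos h1, if_pos (h.mp h1)]
    ring
  · rw [if_neg h1, if_neg fun h2 => h1 (h.mpr h2)]
    ring

private theorem Sj_le {pos : ι → Fin d → ℤ} (hpos : Function.Injective pos) (φ : ι → ℝ)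
    (j : Fin d) (k : ℤ) : Sj pos φ j k ≤ ∑ x, φ x ^ 2 := by
  unfold Sj
  have h1 : ∑ x, |φ x| * ex pos (fun y => |φ y|) (sh (pos x) j k) ≤
      ∑ x, (φ x ^ 2 / 2 + ex pos (fun y => φ y ^ 2) (sh (pos x) j k) / 2) := by
    refine Finset.sum_le_sum fun x _ => ?_
    rw [← ex_sq hpos, ← sq_abs (φ x)]
    nlinarith [sq_nonneg (|φ x| - ex pos (fun y => |φ y|) (sh (pos x) j k))]
  refine h1.trans ?_
  rw [Finset.sum_add_distrib, ← Finset.sum_div, ← Finset.sum_div]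
  have h2 := ex_B_le hpos (u := fun y => φ y ^ 2) (fun y => sq_nonneg _) univ j k
  linarith

private theorem form_ge {pos : ι → Fin d → ℤ} (hpos : Function.Injective pos) (E : ℝ)
    (e : ι → ι → Prop) (φ : ι → ℝ) :
    -E * ∑ x, φ x ^ 2 + 2 * ∑ j : Fin d, (∑ x, φ x ^ 2 - Sj pos φ j 1) ≤
      ∑ x, ∑ y, φ x * Ae pos E e x y * φ y := by
  classical
  have h0 : ∀ x y, (if x = y then (2 * (d : ℝ) - E) * φ x ^ 2 else 0) -
      ∑ j : Fin d, ((if pos y = sh (pos x) j 1 then |φ x| * |φ y| else 0) +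
        (if pos y = sh (pos x) j (-1) then |φ x| * |φ y| else 0)) ≤
      φ x * Ae pos E e x y * φ y := by
    intro x y
    have hn : ∀ j : Fin d, 0 ≤ (if pos y = sh (pos x) j 1 then |φ x| * |φ y| else 0) +
        (if pos y = sh (pos x) j (-1) then |φ x| * |φ y| else 0) := by
      intro j
      have : 0 ≤ |φ x| * |φ y| := mul_nonneg (abs_nonneg _) (abs_nonneg _)
      split_ifs <;> linarith
    have hn' : 0 ≤ ∑ j : Fin d, ((if pos y = sh (pos x) j 1 then |φ x| * |φ y| else 0) +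
        (if pos y = sh (pos x) j (-1) then |φ x| * |φ y| else 0)) :=
      Finset.sum_nonneg fun j _ => hn j
    by_cases hxy : x = y
    · subst hxy
      rw [if_pos rfl]
      have : Ae pos E e x x = 2 * (d : ℝ) - E := by
        simp [Ae]
      rw [this]
      nlinarith
    · rw [if_neg hxy]
      by_cases ha : adj (pos x) (pos y) ∧ e x y
      · have h1 : Ae pos E e x y = -1 := by
          unfold Ae
          rw [Matrix.of_apply, if_neg hxy, if_pos ha]
        rw [h1]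
        obtain ⟨⟨j, hj⟩, -⟩ := ha
        have h2 : |φ x| * |φ y| ≤ ∑ j : Fin d,
            ((if pos y = sh (pos x) j 1 then |φ x| * |φ y| else 0) +
            (if pos y = sh (pos x) j (-1) then |φ x| * |φ y| else 0)) := by
          refine le_trans ?_ (Finset.single_le_sum (fun j _ => hn j) (mem_univ j))
          have h3 : 0 ≤ |φ x| * |φ y| := mul_nonneg (abs_nonneg _) (abs_nonneg _)
          rcases hj with hj | hj
          · rw [if_pos hj]
            split_ifs <;> linarith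
          · rw [if_pos hj]
            split_ifs <;> linarith
        have h4 : φ x * φ y ≤ |φ x| * |φ y| := by
          rw [← abs_mul]
          exact le_abs_self _
        linarith
      · have h1 : Ae pos E e x y = 0 := by
          unfold Ae
          rw [Matrix.of_apply, if_neg hxy, if_neg ha]
        rw [h1]
        linarith
  refine le_trans (le_of_eq ?_) (Finset.sum_le_sum fun x _ => Finset.sum_le_sum fun y _ => h0 x y)
  simp_rw [Finset.sum_sub_distrib]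
  have h1 : ∀ x, ∑ y, (if x = y then (2 * (d : ℝ) - E) * φ x ^ 2 else 0) =
      (2 * (d : ℝ) - E) * φ x ^ 2 := by
    intro x
    rw [Finset.sum_ite_eq, if_pos (mem_univ x)]
  have h2 : ∀ (k : ℤ) (j : Fin d), ∑ x, ∑ y, (if pos y = sh (pos x) j k then |φ x| * |φ y| else 0) =
      Sj pos φ j k := by
    intro k j
    unfold Sj ex
    refine Finset.sum_congr rfl fun x _ => ?_
    rw [Finset.mul_sum]
    refine Finset.sum_congr rfl fun y _ => ?_
    split_ifs <;> ring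
  have h3 : ∑ x, ∑ y, ∑ j : Fin d, ((if pos y = sh (pos x) j 1 then |φ x| * |φ y| else 0) +
        (if pos y = sh (pos x) j (-1) then |φ x| * |φ y| else 0)) =
      ∑ j : Fin d, (Sj pos φ j 1 + Sj pos φ j (-1)) := by
    have h4 : ∀ x, ∑ y, ∑ j : Fin d, ((if pos y = sh (pos x) j 1 then |φ x| * |φ y| else 0) +
        (if pos y = sh (pos x) j (-1) then |φ x| * |φ y| else 0)) =
        ∑ j : Fin d, ∑ y, ((if pos y = sh (pos x) j 1 then |φ x| * |φ y| else 0) +
        (if pos y = sh (pos x) j (-1) then |φ x| * |φ y| else 0)) := fun x => Finset.sum_comm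
    simp_rw [h4]
    rw [Finset.sum_comm]
    refine Finset.sum_congr rfl fun j _ => ?_
    simp_rw [Finset.sum_add_distrib]
    rw [h2, h2]
  simp_rw [h1]
  rw [h3, ← Finset.mul_sum]
  simp_rw [Sj_symm]
  rw [Finset.sum_add_distrib, Finset.sum_const, Finset.card_univ,
    Fintype.card_fin, nsmul_eq_mul]
  ring

private theorem grad_le {pos : ι → Fin d → ℤ} (hpos : Function.Injective pos) (φ : ι → ℝ)
    (j : Fin d) (T : Finset (Fin d → ℤ)) :
    ∑ z ∈ T, (ex pos (fun y => |φ y|) (sh z j 1) - ex pos (fun y => |φ y|) z) ^ 2 ≤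
      2 * (∑ x, φ x ^ 2 - Sj pos φ j 1) := by
  classical
  set f := ex pos (fun y => |φ y|) with hf
  have hf0 : ∀ z, 0 ≤ f z := fun z => ex_nonneg (fun y => abs_nonneg _) z
  set T' := T ∪ univ.image pos with hT'
  have h1 : ∑ z ∈ T, (f (sh z j 1) - f z) ^ 2 ≤ ∑ z ∈ T', (f (sh z j 1) - f z) ^ 2 :=
    Finset.sum_le_sum_of_subset_of_nonneg Finset.subset_union_left fun _ _ _ => sq_nonneg _
  have h2 : ∑ z ∈ T', (f (sh z j 1) - f z) ^ 2 =
      ∑ z ∈ T', ex pos (fun y => φ y ^ 2) (sh z j 1) + ∑ z ∈ T', ex pos (fun y => φ y ^ 2) z -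
        2 * ∑ z ∈ T', f z * f (sh z j 1) := by
    rw [Finset.mul_sum, ← Finset.sum_add_distrib, ← Finset.sum_sub_distrib]
    refine Finset.sum_congr rfl fun z _ => ?_
    rw [← ex_sq hpos, ← ex_sq hpos]
    ring
  have h3 := ex_sh_le (pos := pos) (u := fun y => φ y ^ 2) (fun y => sq_nonneg _) T' j 1
  have h4 := ex_sum_le (pos := pos) (u := fun y => φ y ^ 2) (fun y => sq_nonneg _) T'
  have h5 : Sj pos φ j 1 ≤ ∑ z ∈ T', f z * f (sh z j 1) := by
    have h6 : Sj pos φ j 1 = ∑ z ∈ univ.image pos, f z * f (sh z j 1) := by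
      rw [Finset.sum_image fun a _ b _ h => hpos h]
      unfold Sj
      refine Finset.sum_congr rfl fun x _ => ?_
      rw [hf, ex_pos hpos]
    rw [h6]
    exact Finset.sum_le_sum_of_subset_of_nonneg Finset.subset_union_right
      fun z _ _ => mul_nonneg (hf0 _) (hf0 _)
  linarith

private theorem tele (f : (Fin d → ℤ) → ℝ) (z : Fin d → ℤ) (j : Fin d) (k : ℕ) :
    (f (sh z j k) - f z) ^ 2 ≤
      k * ∑ i ∈ range k, (f (sh (sh z j i) j 1) - f (sh z j i)) ^ 2 := by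
  have h1 : f (sh z j k) - f z = ∑ i ∈ range k, (f (sh (sh z j i) j 1) - f (sh z j i)) := by
    have h2 := Finset.sum_range_sub (fun i : ℕ => f (sh z j (i : ℤ))) k
    rw [Nat.cast_zero, GD.sh_zero] at h2
    rw [← h2]
    refine Finset.sum_congr rfl fun i _ => ?_
    rw [GD.sh_sh]
    push_cast
    rfl
  rw [h1]
  have h3 := sq_sum_le_card_mul_sum_sq (s := range k)
    (f := fun i => f (sh (sh z j i) j 1) - f (sh z j i))
  rwa [card_range] at h3

end aux

theorem lif {pos : ι → Fin d → ℤ} (hpos : Function.Injective pos) {c E : ℝ} (hc : 0 < c)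
    {e : ι → ι → Prop} (he : ∀ x y, e x y → e y x) {B : Finset ι} {j0 : Fin d} {R : ℕ} {V : ι → ℝ}
    (hV : ∀ x, -c ≤ V x) (hg : goodS pos B j0 R V) (φ : ι → ℝ) (hφ : ∀ x, x ∉ B → φ x = 0) :
    (epsR c R - (E + c)) * ∑ x, φ x ^ 2 ≤
      ∑ x, ∑ y, φ x * Ae pos E e x y * φ y + ∑ x, V x * φ x ^ 2 := by
  classical
  have hform := form_ge hpos E e φ
  obtain ⟨D, hD⟩ : ∃ D : ℝ, D = 2 * (∑ x, φ x ^ 2 - Sj pos φ j0 1) := ⟨_, rfl⟩
  have hDle : D ≤ 2 * ∑ j : Fin d, (∑ x, φ x ^ 2 - Sj pos φ j 1) := by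
    rw [hD]
    apply mul_le_mul_of_nonneg_left _ (by norm_num)
    exact Finset.single_le_sum (f := fun j => ∑ x, φ x ^ 2 - Sj pos φ j 1)
      (fun j _ => sub_nonneg.mpr (Sj_le hpos φ j 1)) (mem_univ j0)
  have hD0 : 0 ≤ D := by
    rw [hD]
    have := Sj_le hpos φ j0 1
    linarith
  set f := ex pos (fun y => |φ y|) with hf
  have hgrad : ∀ T : Finset (Fin d → ℤ), ∑ z ∈ T, (f (sh z j0 1) - f z) ^ 2 ≤ D := by
    intro T
    rw [hD]
    exact grad_le hpos φ j0 T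
  have hW0 : ∀ y, 0 ≤ (V y + c) * φ y ^ 2 := fun y =>
    mul_nonneg (by linarith [hV y]) (sq_nonneg _)
  -- one point
  have hpt : ∀ x ∈ B, φ x ^ 2 ≤
      2 / c * ∑ k ∈ range (R + 1), ex pos (fun y => (V y + c) * φ y ^ 2) (sh (pos x) j0 (k : ℤ)) +
      2 * R * ∑ i ∈ range R, (f (sh (sh (pos x) j0 (i : ℤ)) j0 1) - f (sh (pos x) j0 (i : ℤ))) ^ 2 := by
    intro x hx
    obtain ⟨k, hk, hky⟩ := hg x hx
    have h1 : φ x ^ 2 = f (pos x) ^ 2 := by
      rw [hf, ex_pos hpos, sq_abs]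
    have h2 : f (pos x) ^ 2 ≤ 2 * f (sh (pos x) j0 k) ^ 2 +
        2 * (f (sh (pos x) j0 k) - f (pos x)) ^ 2 := by
      nlinarith [sq_nonneg (2 * f (sh (pos x) j0 k) - f (pos x))]
    have h3 : f (sh (pos x) j0 k) ^ 2 ≤
        1 / c * ex pos (fun y => (V y + c) * φ y ^ 2) (sh (pos x) j0 (k : ℤ)) := by
      by_cases hy : ∃ y, pos y = sh (pos x) j0 k
      · obtain ⟨y, hy⟩ := hy
        rw [← hy, hf, ex_pos hpos, ex_pos hpos, sq_abs]
        by_cases hyB : y ∈ B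
        · have h4 := hky y hyB hy
          rw [one_div, ← div_eq_inv_mul, le_div_iff₀ hc]
          nlinarith [sq_nonneg (φ y)]
        · rw [hφ y hyB]
          simp
      · have h' : ∀ y, pos y ≠ sh (pos x) j0 k := fun y hy' => hy ⟨y, hy'⟩
        rw [hf, ex_none _ _ h', ex_none _ _ h']
        simp
    have h4 : ex pos (fun y => (V y + c) * φ y ^ 2) (sh (pos x) j0 (k : ℤ)) ≤
        ∑ k ∈ range (R + 1), ex pos (fun y => (V y + c) * φ y ^ 2) (sh (pos x) j0 (k : ℤ)) :=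
      Finset.single_le_sum
        (f := fun k : ℕ => ex pos (fun y => (V y + c) * φ y ^ 2) (sh (pos x) j0 (k : ℤ)))
        (fun k _ => ex_nonneg hW0 _) (mem_range.mpr (by omega))
    have h5 := tele f (pos x) j0 k
    have h6 : ∑ i ∈ range k, (f (sh (sh (pos x) j0 (i : ℤ)) j0 1) -
        f (sh (pos x) j0 (i : ℤ))) ^ 2 ≤
        ∑ i ∈ range R, (f (sh (sh (pos x) j0 (i : ℤ)) j0 1) - f (sh (pos x) j0 (i : ℤ))) ^ 2 :=
      Finset.sum_le_sum_of_subset_of_nonneg (range_mono hk) fun _ _ _ => sq_nonneg _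
    have h7 : (k : ℝ) * ∑ i ∈ range k, (f (sh (sh (pos x) j0 (i : ℤ)) j0 1) -
        f (sh (pos x) j0 (i : ℤ))) ^ 2 ≤
        R * ∑ i ∈ range R, (f (sh (sh (pos x) j0 (i : ℤ)) j0 1) -
          f (sh (pos x) j0 (i : ℤ))) ^ 2 := by
      apply mul_le_mul (by exact_mod_cast hk) h6 (Finset.sum_nonneg fun _ _ => sq_nonneg _)
        (Nat.cast_nonneg _)
    have h8 : 1 / c * ex pos (fun y => (V y + c) * φ y ^ 2) (sh (pos x) j0 (k : ℤ)) ≤
        1 / c * ∑ k ∈ range (R + 1),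
          ex pos (fun y => (V y + c) * φ y ^ 2) (sh (pos x) j0 (k : ℤ)) :=
      mul_le_mul_of_nonneg_left h4 (by positivity)
    rw [h1]
    have h9 : 2 / c * ∑ k ∈ range (R + 1),
        ex pos (fun y => (V y + c) * φ y ^ 2) (sh (pos x) j0 (k : ℤ)) =
        2 * (1 / c * ∑ k ∈ range (R + 1),
          ex pos (fun y => (V y + c) * φ y ^ 2) (sh (pos x) j0 (k : ℤ))) := by ring
    rw [h9]
    linarith
  -- the sum
  have hsum : ∑ x, φ x ^ 2 ≤ 2 / c * (R + 1) * ∑ x, (V x + c) * φ x ^ 2 + 2 * R * R * D := by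
    have h1 : ∑ x, φ x ^ 2 = ∑ x ∈ B, φ x ^ 2 := by
      symm
      apply Finset.sum_subset (subset_univ B)
      intro x _ hx
      rw [hφ x hx]
      norm_num
    rw [h1]
    refine (Finset.sum_le_sum hpt).trans ?_
    rw [Finset.sum_add_distrib, ← Finset.mul_sum, ← Finset.mul_sum, Finset.sum_comm,
      Finset.sum_comm (s := B) (t := range R)]
    have h2 : ∑ k ∈ range (R + 1), ∑ x ∈ B,
        ex pos (fun y => (V y + c) * φ y ^ 2) (sh (pos x) j0 (k : ℤ)) ≤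
        ((R : ℝ) + 1) * ∑ x, (V x + c) * φ x ^ 2 := by
      calc ∑ k ∈ range (R + 1), ∑ x ∈ B,
          ex pos (fun y => (V y + c) * φ y ^ 2) (sh (pos x) j0 (k : ℤ))
          ≤ ∑ _k ∈ range (R + 1), ∑ x, (V x + c) * φ x ^ 2 :=
            Finset.sum_le_sum fun k _ => ex_B_le hpos hW0 B j0 k
        _ = ((R : ℝ) + 1) * ∑ x, (V x + c) * φ x ^ 2 := by
            rw [Finset.sum_const, card_range, nsmul_eq_mul]
            push_cast
            ring
    have h3 : ∑ i ∈ range R, ∑ x ∈ B, (f (sh (sh (pos x) j0 (i : ℤ)) j0 1) -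
        f (sh (pos x) j0 (i : ℤ))) ^ 2 ≤ (R : ℝ) * D := by
      calc ∑ i ∈ range R, ∑ x ∈ B, (f (sh (sh (pos x) j0 (i : ℤ)) j0 1) -
            f (sh (pos x) j0 (i : ℤ))) ^ 2 ≤ ∑ _i ∈ range R, D := by
            refine Finset.sum_le_sum fun i _ => ?_
            have h4 : ∑ x ∈ B, (f (sh (sh (pos x) j0 (i : ℤ)) j0 1) -
                f (sh (pos x) j0 (i : ℤ))) ^ 2 =
                ∑ z ∈ B.image (fun x => sh (pos x) j0 (i : ℤ)), (f (sh z j0 1) - f z) ^ 2 := by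
              rw [Finset.sum_image]
              intro a _ b _ h
              exact hpos (GD.sh_inj _ _ j0 _ h)
            rw [h4]
            exact hgrad _
        _ = (R : ℝ) * D := by
            rw [Finset.sum_const, card_range, nsmul_eq_mul]
    have h4 : 2 / c * ∑ k ∈ range (R + 1), ∑ x ∈ B,
        ex pos (fun y => (V y + c) * φ y ^ 2) (sh (pos x) j0 (k : ℤ)) ≤
        2 / c * (((R : ℝ) + 1) * ∑ x, (V x + c) * φ x ^ 2) :=
      mul_le_mul_of_nonneg_left h2 (by positivity)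
    have h5 : 2 * (R : ℝ) * ∑ i ∈ range R, ∑ x ∈ B, (f (sh (sh (pos x) j0 (i : ℤ)) j0 1) -
        f (sh (pos x) j0 (i : ℤ))) ^ 2 ≤ 2 * (R : ℝ) * ((R : ℝ) * D) :=
      mul_le_mul_of_nonneg_left h3 (by positivity)
    calc _ ≤ 2 / c * (((R : ℝ) + 1) * ∑ x, (V x + c) * φ x ^ 2) + 2 * (R : ℝ) * ((R : ℝ) * D) :=
          add_le_add h4 h5
      _ = _ := by ring
  have hR0 : (0 : ℝ) ≤ R := Nat.cast_nonneg R
  have heps0 : 0 ≤ epsR c R := by
    unfold epsR
    apply le_min <;> positivity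
  have heps1 : epsR c R * (2 / c * (R + 1)) ≤ 1 := by
    have h1 : epsR c R ≤ c / (2 * ((R : ℝ) + 1)) := min_le_left _ _
    calc epsR c R * (2 / c * (R + 1)) ≤ c / (2 * ((R : ℝ) + 1)) * (2 / c * (R + 1)) :=
          mul_le_mul_of_nonneg_right h1 (by positivity)
      _ = 1 := by field_simp
  have heps2 : epsR c R * (2 * R * R) ≤ 1 := by
    have h1 : epsR c R ≤ 1 / (2 * ((R : ℝ) + 1) ^ 2) := min_le_right _ _
    calc epsR c R * (2 * R * R) ≤ 1 / (2 * ((R : ℝ) + 1) ^ 2) * (2 * R * R) :=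
          mul_le_mul_of_nonneg_right h1 (by positivity)
      _ ≤ 1 := by
          rw [div_mul_eq_mul_div, one_mul, div_le_one (by positivity)]
          nlinarith
  have hWs : 0 ≤ ∑ x, (V x + c) * φ x ^ 2 := Finset.sum_nonneg fun y _ => hW0 y
  have hfin : epsR c R * ∑ x, φ x ^ 2 ≤ ∑ x, (V x + c) * φ x ^ 2 + D := by
    calc epsR c R * ∑ x, φ x ^ 2
        ≤ epsR c R * (2 / c * (R + 1) * ∑ x, (V x + c) * φ x ^ 2 + 2 * R * R * D) :=
          mul_le_mul_of_nonneg_left hsum heps0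
      _ = (epsR c R * (2 / c * (R + 1))) * ∑ x, (V x + c) * φ x ^ 2 +
          (epsR c R * (2 * R * R)) * D := by ring
      _ ≤ 1 * ∑ x, (V x + c) * φ x ^ 2 + 1 * D :=
          add_le_add (mul_le_mul_of_nonneg_right heps1 hWs) (mul_le_mul_of_nonneg_right heps2 hD0)
      _ = _ := by ring
  have hVW : ∑ x, (V x + c) * φ x ^ 2 = ∑ x, V x * φ x ^ 2 + c * ∑ x, φ x ^ 2 := by
    rw [Finset.mul_sum, ← Finset.sum_add_distrib]
    exact Finset.sum_congr rfl fun x _ => by ring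
  rw [hVW] at hfin
  linarith

/-- without any hypothesis on `V`: `H - E ≥ -(E + c)` -/
theorem lif0 {pos : ι → Fin d → ℤ} (hpos : Function.Injective pos) {c E : ℝ}
    {e : ι → ι → Prop} (he : ∀ x y, e x y → e y x) {V : ι → ℝ} (hV : ∀ x, -c ≤ V x) (φ : ι → ℝ) :
    (-(E + c)) * ∑ x, φ x ^ 2 ≤ ∑ x, ∑ y, φ x * Ae pos E e x y * φ y + ∑ x, V x * φ x ^ 2 := by
  have h1 := form_ge hpos E e φ
  have h2 : 0 ≤ ∑ j : Fin d, (∑ x, φ x ^ 2 - Sj pos φ j 1) :=
    Finset.sum_nonneg fun j _ => sub_nonneg.mpr (Sj_le hpos φ j 1)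
  have h3 : -c * ∑ x, φ x ^ 2 ≤ ∑ x, V x * φ x ^ 2 := by
    rw [Finset.mul_sum]
    exact Finset.sum_le_sum fun x _ => mul_le_mul_of_nonneg_right (hV x) (sq_nonneg _)
  linarith

end Pool.Agent.Lib.MP_562b47_mp.ED
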