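import Pool.Agent.Lib.MP_562b47_mp.ED.Defs

/-!
Module ED-SumP (MP_562b47_mp): a sum over the positions.

With `v = pos x - pos y`, `ff = ∑ v_j² ≤ ∏_j (1 + v_j²)` and `di ≥ |v_j|` for all `j`, so
`q^{di} ≤ ∏_j r^{|v_j|}` with `r := q^{1/d}` (`d > 0`; for `d = 0` everything is zero).
`Finset.prod_univ_sum`: the sum is at most `(∑_t (1 + t²) r^{|t|})^d ≤ S^d`,
`S := 2 ∑' t : ℕ, (1 + t²) r^t < ∞`.
-/

open Matrix MeasureTheory Finset
open scoped ENNReal

namespace Pool.Agent.Lib.MP_562b47_mp.ED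

open Pool.Agent.Lib.MP_562b47_mp.AL Pool.Agent.Lib.MP_562b47_mp
open Pool.Agent.Lib.MP_562b47_mp.GD (adj sh)

private theorem sumP_one {g : ℕ → ℝ} (hg : ∀ m, 0 ≤ g m) (hs : Summable g) (n : ℕ) (x : Fin n) :
    ∑ t : Fin n, g ((((x : ℕ) : ℤ) - ((t : ℕ) : ℤ)).natAbs) ≤ 2 * ∑' m, g m := by
  have key : ∀ s : Finset (Fin n),
      Set.InjOn (fun t : Fin n => (((x : ℕ) : ℤ) - ((t : ℕ) : ℤ)).natAbs) s →
      ∑ t ∈ s, g ((((x : ℕ) : ℤ) - ((t : ℕ) : ℤ)).natAbs) ≤ ∑' m, g m := by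
    intro s hs'
    rw [← Finset.sum_image (f := g) hs']
    exact hs.sum_le_tsum _ (fun i _ => hg i)
  rw [← Finset.sum_filter_add_sum_filter_not univ (fun t : Fin n => (t : ℕ) ≤ x), two_mul]
  refine add_le_add (key _ ?_) (key _ ?_)
  · intro a ha b hb hab
    simp only [coe_filter, mem_univ, true_and, Set.mem_ofPred_eq] at ha hb
    simp only at hab
    ext
    omega
  · intro a ha b hb hab
    simp only [coe_filter, mem_univ, true_and, Set.mem_ofPred_eq] at ha hb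
    simp only at hab
    ext
    omega

private theorem sumP_le_prod {ι : Type*} (s : Finset ι) (v : ι → ℝ) (hv : ∀ i, 0 ≤ v i) :
    ∑ i ∈ s, v i ≤ ∏ i ∈ s, (1 + v i) := by
  classical
  induction s using Finset.induction_on with
  | empty => simp
  | insert a s ha ih =>
    rw [sum_insert ha, prod_insert ha]
    have h1 : 1 ≤ ∏ i ∈ s, (1 + v i) := by
      calc (1 : ℝ) = ∏ _i ∈ s, (1 : ℝ) := by simp
        _ ≤ _ := prod_le_prod (fun _ _ => zero_le_one) fun i _ => by linarith [hv i]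
    nlinarith [hv a]

theorem sum_pos (d : ℕ) {q : ℝ} (hq0 : 0 < q) (hq1 : q < 1) : ∃ K : ℝ, 0 ≤ K ∧
    ∀ (n : ℕ) (x : Fin d → Fin n),
      ∑ y, ff (GX.xb d n) x y * q ^ di (GX.bp d n) x y ≤ K := by
  rcases Nat.eq_zero_or_pos d with hd | hd
  · subst hd
    refine ⟨0, le_rfl, fun n x => ?_⟩
    simp [ff]
  obtain ⟨r, hr⟩ : ∃ r : ℝ, q ^ ((1 : ℝ) / d) = r := ⟨_, rfl⟩
  have hd0 : (0 : ℝ) < d := by exact_mod_cast hd
  have hr0 : 0 < r := by rw [← hr]; positivity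
  have hr1 : r < 1 := by
    rw [← hr]
    exact Real.rpow_lt_one hq0.le hq1 (by positivity)
  have hrd : r ^ d = q := by
    rw [← hr, ← Real.rpow_natCast, ← Real.rpow_mul hq0.le]
    rw [one_div, inv_mul_cancel₀ hd0.ne', Real.rpow_one]
  obtain ⟨g, hgd⟩ : ∃ g : ℕ → ℝ, ∀ m, g m = (1 + (m : ℝ) ^ 2) * r ^ m := ⟨_, fun _ => rfl⟩
  have hg0 : ∀ m, 0 ≤ g m := by
    intro m
    rw [hgd]
    positivity
  have hgs : Summable g := by
    have e : g = fun m : ℕ => (m : ℝ) ^ 0 * r ^ m + (m : ℝ) ^ 2 * r ^ m := by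
      funext m
      rw [hgd]
      ring
    rw [e]
    have hn : ‖r‖ < 1 := by rwa [Real.norm_of_nonneg hr0.le]
    exact (summable_pow_mul_geometric_of_norm_lt_one 0 hn).add
      (summable_pow_mul_geometric_of_norm_lt_one 2 hn)
  refine ⟨(2 * ∑' m, g m) ^ d, pow_nonneg (mul_nonneg (by norm_num) (tsum_nonneg hg0)) _,
    fun n x => ?_⟩
  have hterm : ∀ y : Fin d → Fin n, ff (GX.xb d n) x y * q ^ di (GX.bp d n) x y ≤
      ∏ j, g ((((x j : ℕ) : ℤ) - ((y j : ℕ) : ℤ)).natAbs) := by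
    intro y
    have h1 : ff (GX.xb d n) x y ≤
        ∏ j, (1 + (((((x j : ℕ) : ℤ) - ((y j : ℕ) : ℤ)).natAbs : ℕ) : ℝ) ^ 2) := by
      have : ff (GX.xb d n) x y =
          ∑ j, (((((x j : ℕ) : ℤ) - ((y j : ℕ) : ℤ)).natAbs : ℕ) : ℝ) ^ 2 := by
        unfold ff GX.xb
        refine sum_congr rfl fun j _ => ?_
        rw [Nat.cast_natAbs]
        push_cast
        rw [sq_abs]
      rw [this]
      exact sumP_le_prod _ _ fun j => by positivity
    have h2 : q ^ di (GX.bp d n) x y ≤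
        ∏ j : Fin d, r ^ ((((x j : ℕ) : ℤ) - ((y j : ℕ) : ℤ)).natAbs) := by
      have e1 : q ^ di (GX.bp d n) x y = ∏ _j : Fin d, r ^ di (GX.bp d n) x y := by
        rw [prod_const, card_univ, Fintype.card_fin, ← hrd, ← pow_mul, ← pow_mul, mul_comm]
      rw [e1]
      refine prod_le_prod (fun j _ => by positivity) fun j _ => ?_
      exact pow_le_pow_of_le_one hr0.le hr1.le (le_di (pos := GX.bp d n) j)
    calc ff (GX.xb d n) x y * q ^ di (GX.bp d n) x y ≤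
          (∏ j, (1 + (((((x j : ℕ) : ℤ) - ((y j : ℕ) : ℤ)).natAbs : ℕ) : ℝ) ^ 2)) *
          ∏ j : Fin d, r ^ ((((x j : ℕ) : ℤ) - ((y j : ℕ) : ℤ)).natAbs) :=
          mul_le_mul h1 h2 (by positivity) (prod_nonneg fun j _ => by positivity)
      _ = ∏ j, g ((((x j : ℕ) : ℤ) - ((y j : ℕ) : ℤ)).natAbs) := by
          rw [← prod_mul_distrib]
          refine prod_congr rfl fun j _ => ?_
          rw [hgd]
  calc ∑ y, ff (GX.xb d n) x y * q ^ di (GX.bp d n) x y ≤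
        ∑ y : Fin d → Fin n, ∏ j, g ((((x j : ℕ) : ℤ) - ((y j : ℕ) : ℤ)).natAbs) :=
        sum_le_sum fun y _ => hterm y
    _ = ∏ j : Fin d, ∑ t : Fin n, g ((((x j : ℕ) : ℤ) - ((t : ℕ) : ℤ)).natAbs) := by
        rw [prod_univ_sum, Fintype.piFinset_univ]
    _ ≤ ∏ _j : Fin d, (2 * ∑' m, g m) :=
        prod_le_prod (fun j _ => sum_nonneg fun t _ => hg0 _) fun j _ => sumP_one hg0 hgs n (x j)
    _ = (2 * ∑' m, g m) ^ d := by
        rw [prod_const, card_univ, Fintype.card_fin]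

end Pool.Agent.Lib.MP_562b47_mp.ED
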