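import Pool.Agent.Lib.MP_562b47_mp.ED.CT
import Pool.Agent.Lib.MP_562b47_mp.ED.Lif
import Pool.Agent.Lib.MP_562b47_mp.ED.SumP

/-!
Module ED-Large (MP_562b47_mp): the energies far below the spectrum.

PROOF.  `E ≤ -E₁` with `E₁ := 2 c + 12 d`: `δ := -(E + c) ≥ |E| / 2`, `δ ≥ 6 d`.  `lif0` and `ct` (`B = univ`, `D = 2 d`, `μ = 1`:
`2 d (cosh 1 - 1) ≤ 2 d ≤ δ / 2`, `ρ y = di x y`) give `‖G_xy‖ ≤ (4/|E|) exp (-di x y)`, a.s. (`V ≥ -c`).  So
`DU ≤ a² (16/E²) ∑_x ∑_y ff exp (-2 di) ≤ a² 16 K n^d / E²` (`sum_pos` with `q = exp (-2)`).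
-/

open Matrix MeasureTheory Finset
open scoped ENNReal

namespace Pool.Agent.Lib.MP_562b47_mp.ED

open Pool.Agent.Lib.MP_562b47_mp.AL Pool.Agent.Lib.MP_562b47_mp
open Pool.Agent.Lib.MP_562b47_mp.GD (adj sh)

private theorem large_Ae (d : ℕ) (E : ℝ) (n : ℕ) :
    GX.Ab d E n = Ae (GX.bp d n) E (fun _ _ => True) := by
  classical
  ext x y
  simp only [GX.Ab, Ae, Matrix.of_apply, and_true]

private theorem large_row (d : ℕ) (E : ℝ) (n : ℕ) (x : Fin d → Fin n) :
    ∑ y ∈ univ.erase x, |GX.Ab d E n x y| ≤ 2 * (d : ℝ) := by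
  classical
  have h1 : ∀ y ∈ univ.erase x, |GX.Ab d E n x y| ≤
      if adj (GX.bp d n x) (GX.bp d n y) then (1 : ℝ) else 0 := by
    intro y hy
    have hne : x ≠ y := fun h => (Finset.mem_erase.1 hy).1 h.symm
    simp only [GX.Ab, Matrix.of_apply]
    rw [if_neg hne]
    by_cases h2 : adj (GX.bp d n x) (GX.bp d n y)
    · rw [if_pos h2, if_pos h2]
      norm_num
    · rw [if_neg h2, if_neg h2]
      norm_num
  have h2 : ∑ y ∈ univ.erase x, (if adj (GX.bp d n x) (GX.bp d n y) then (1 : ℝ) else 0) ≤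
      ∑ y, (if adj (GX.bp d n x) (GX.bp d n y) then (1 : ℝ) else 0) := by
    refine Finset.sum_le_sum_of_subset_of_nonneg (Finset.erase_subset _ _) fun y _ _ => ?_
    split_ifs
    · norm_num
    · exact le_rfl
  refine (Finset.sum_le_sum h1).trans (h2.trans ?_)
  rw [Finset.sum_boole]
  have h3 : ((univ.filter fun y => adj (GX.bp d n x) (GX.bp d n y)).image (GX.bp d n)) ⊆
      ((univ : Finset (Fin d)) ×ˢ ({1, -1} : Finset ℤ)).image
        (fun p => sh (GX.bp d n x) p.1 p.2) := by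
    intro z hz
    rw [Finset.mem_image] at hz
    obtain ⟨y, hy, rfl⟩ := hz
    rw [Finset.mem_filter] at hy
    obtain ⟨i, h | h⟩ := hy.2
    · rw [Finset.mem_image]
      exact ⟨(i, 1), by simp, h.symm⟩
    · rw [Finset.mem_image]
      exact ⟨(i, -1), by simp, h.symm⟩
  have h4 := Finset.card_le_card h3
  rw [Finset.card_image_of_injective _ (GX.bp_inj d n)] at h4
  have h5 : (((univ : Finset (Fin d)) ×ˢ ({1, -1} : Finset ℤ)).image
        (fun p => sh (GX.bp d n x) p.1 p.2)).card ≤ d * 2 := by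
    refine Finset.card_image_le.trans ?_
    rw [Finset.card_product, Finset.card_univ, Fintype.card_fin]
    have : ({1, -1} : Finset ℤ).card ≤ 2 := Finset.card_le_two
    exact Nat.mul_le_mul_left d this
  have h6 : ((univ.filter fun y => adj (GX.bp d n x) (GX.bp d n y)).card : ℝ) ≤ ((d * 2 : ℕ) : ℝ) := by
    exact_mod_cast h4.trans h5
  refine h6.trans ?_
  push_cast
  linarith

private theorem large_cosh : Real.cosh 1 - 1 ≤ 1 := by
  rw [Real.cosh_eq]
  have h1 := Real.exp_one_lt_d9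
  have h2 : Real.exp (-1) ≤ 1 := Real.exp_le_one_iff.2 (by norm_num)
  linarith

private theorem large_pt (d : ℕ) (hd : 0 < d) {c : ℝ} (hc : 0 < c) {E : ℝ}
    (hE : E ≤ -(2 * c + 12 * d)) {a : ℝ} (ha : 0 < a) (n : ℕ) {V : (Fin d → Fin n) → ℝ}
    (hV : ∀ x, -c ≤ V x) (x y : Fin d → Fin n) :
    ‖GM (GX.Ab d E n) (ua a V) x y‖ ≤ 4 / |E| * Real.exp (-(di (GX.bp d n) x y : ℝ)) := by
  have hd0 : (0 : ℝ) < d := by exact_mod_cast hd
  have hE0 : E < 0 := by linarith
  have hEa : |E| = -E := abs_of_neg hE0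
  have hE1 : 0 < |E| := by rw [hEa]; linarith
  set δ : ℝ := -(E + c) with hδ
  have hδ1 : |E| / 2 ≤ δ := by rw [hEa]; linarith
  have hδ2 : 4 * (d : ℝ) ≤ δ := by linarith
  have hδ0 : 0 < δ := by linarith
  have h1 := ct (A := GX.Ab d E n) (V := V) (a := a) (δ := δ) (μ := 1) (D := 2 * (d : ℝ))
    (B := univ) (by rw [large_Ae]; exact Ae_symm E (fun _ _ _ => trivial)) ha hδ0
    (fun x _ y hy => absurd (Finset.mem_univ y) hy)
    (fun φ _ => by
      rw [large_Ae]
      exact lif0 (GX.bp_inj d n) (fun _ _ _ => trivial) hV φ)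
    (ρ := fun z => (di (GX.bp d n) z y : ℝ))
    (fun z w hzw => by
      by_cases h : z = w
      · subst h; simp
      · have hadj : adj (GX.bp d n z) (GX.bp d n w) := by
          by_contra hcon
          apply hzw
          simp only [GX.Ab, Matrix.of_apply]
          rw [if_neg h, if_neg hcon]
        have h2 := di_adj hadj
        have h3 := di_tri (GX.bp d n) z w y
        have h4 := di_tri (GX.bp d n) w z y
        have h5 := di_comm (GX.bp d n) w z
        have h6 : di (GX.bp d n) z w ≤ 1 := h2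
        have h7 : (di (GX.bp d n) z y : ℝ) ≤ 1 + di (GX.bp d n) w y := by
          exact_mod_cast h3.trans (by omega)
        have h8 : (di (GX.bp d n) w y : ℝ) ≤ 1 + di (GX.bp d n) z y := by
          exact_mod_cast h4.trans (by omega)
        rw [abs_le]
        constructor <;> linarith)
    (large_row d E n) (by norm_num)
    (by
      have := large_cosh
      have h2 : 2 * (d : ℝ) * (Real.cosh 1 - 1) ≤ 2 * (d : ℝ) * 1 := by gcongr
      linarith)
    (x0 := y) (Finset.mem_univ y) (by simp [di_self]) x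
  rw [one_mul] at h1
  have h2 : 2 / δ ≤ 4 / |E| := by
    rw [div_le_div_iff₀ hδ0 hE1]
    linarith
  have h3 : ‖GM (GX.Ab d E n) (ua a V) x y‖ =
      ‖GM (GX.Ab d E n) (ua a V) x y‖ * Real.exp (di (GX.bp d n) x y : ℝ) *
        Real.exp (-(di (GX.bp d n) x y : ℝ)) := by
    rw [mul_assoc, ← Real.exp_add, add_neg_cancel, Real.exp_zero, mul_one]
  rw [h3]
  exact mul_le_mul_of_nonneg_right (h1.trans h2) (Real.exp_pos _).le

theorem large (d : ℕ) (hd : 0 < d) {c : ℝ} (hc : 0 < c) : ∃ E₁ K : ℝ, 0 < E₁ ∧ 0 ≤ K ∧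
    ∀ E : ℝ, E ≤ -E₁ → ∀ a : ℝ, 0 < a → ∀ n : ℕ,
      ∫ V, DU (GX.Ab d E n) (GX.xb d n) (fun x => ((V x : ℝ) : ℂ) - a * Complex.I)
        ∂(Measure.pi fun _ : (Fin d → Fin n) => unif c) ≤ a ^ 2 * (K / E ^ 2) * n ^ d := by
  have hd0 : (0 : ℝ) < d := by exact_mod_cast hd
  obtain ⟨K, hK0, hK⟩ := sum_pos d (q := Real.exp (-2)) (Real.exp_pos _)
    (by
      have := Real.exp_lt_exp.2 (show (-2 : ℝ) < 0 by norm_num)
      rwa [Real.exp_zero] at this)
  refine ⟨2 * c + 12 * d, 16 * K, by positivity, by positivity, fun E hE a ha n => ?_⟩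
  have := unif_prob hc
  have hpm : IsProbabilityMeasure (Measure.pi fun _ : (Fin d → Fin n) => unif c) := inferInstance
  have hE0 : E < 0 := by linarith
  have hEa : |E| = -E := abs_of_neg hE0
  have hE1 : 0 < |E| := by rw [hEa]; linarith
  have hae : ∀ᵐ V ∂(Measure.pi fun _ : (Fin d → Fin n) => unif c), ∀ x, V x ∈ Set.Icc (-c) c := by
    rw [ae_all_iff]
    intro x
    exact (measurePreserving_eval (fun _ : (Fin d → Fin n) => unif c) x).quasiMeasurePreserving.ae
      (ae_unif c)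
  have hle : ∀ᵐ V ∂(Measure.pi fun _ : (Fin d → Fin n) => unif c),
      DU (GX.Ab d E n) (GX.xb d n) (fun x => ((V x : ℝ) : ℂ) - a * Complex.I) ≤
        a ^ 2 * (16 * K / E ^ 2) * n ^ d := by
    filter_upwards [hae] with V hV
    have hV' : ∀ x, -c ≤ V x := fun x => (hV x).1
    have hu : (fun x => ((V x : ℝ) : ℂ) - a * Complex.I) = ua a V := by
      funext x
      rfl
    rw [hu]
    have hg : ∀ x, gam (ua a V) x = a := by
      intro x
      simp [gam, ua]
    unfold AL.DU AL.DD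
    have h1 : ∀ x y : Fin d → Fin n, gam (ua a V) x * gam (ua a V) y * ff (GX.xb d n) x y *
        ‖GM (GX.Ab d E n) (ua a V) x y‖ ^ 2 ≤
        a ^ 2 * (16 / E ^ 2) * (ff (GX.xb d n) x y * Real.exp (-2) ^ di (GX.bp d n) x y) := by
      intro x y
      rw [hg, hg]
      have h2 := large_pt d hd hc hE ha n hV' x y
      have h3 : ‖GM (GX.Ab d E n) (ua a V) x y‖ ^ 2 ≤
          (4 / |E| * Real.exp (-(di (GX.bp d n) x y : ℝ))) ^ 2 :=
        pow_le_pow_left₀ (norm_nonneg _) h2 2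
      have h4 : (4 / |E| * Real.exp (-(di (GX.bp d n) x y : ℝ))) ^ 2 =
          16 / E ^ 2 * Real.exp (-2) ^ di (GX.bp d n) x y := by
        rw [mul_pow, div_pow, sq_abs, ← Real.exp_nat_mul, ← Real.exp_nat_mul]
        congr 1
        · norm_num
        · congr 1
          push_cast
          ring
      rw [h4] at h3
      have h5 : 0 ≤ ff (GX.xb d n) x y := ff_nonneg _ x y
      calc a * a * ff (GX.xb d n) x y * ‖GM (GX.Ab d E n) (ua a V) x y‖ ^ 2
          ≤ a * a * ff (GX.xb d n) x y * (16 / E ^ 2 * Real.exp (-2) ^ di (GX.bp d n) x y) := by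
            gcongr
        _ = _ := by ring
    calc ∑ x, ∑ y, gam (ua a V) x * gam (ua a V) y * ff (GX.xb d n) x y *
          ‖GM (GX.Ab d E n) (ua a V) x y‖ ^ 2
        ≤ ∑ x : Fin d → Fin n, ∑ y, a ^ 2 * (16 / E ^ 2) *
            (ff (GX.xb d n) x y * Real.exp (-2) ^ di (GX.bp d n) x y) :=
          Finset.sum_le_sum fun x _ => Finset.sum_le_sum fun y _ => h1 x y
      _ = ∑ x : Fin d → Fin n, a ^ 2 * (16 / E ^ 2) *
            ∑ y, (ff (GX.xb d n) x y * Real.exp (-2) ^ di (GX.bp d n) x y) := by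
          refine Finset.sum_congr rfl fun x _ => ?_
          rw [Finset.mul_sum]
      _ ≤ ∑ _x : Fin d → Fin n, a ^ 2 * (16 / E ^ 2) * K := by
          refine Finset.sum_le_sum fun x _ => ?_
          exact mul_le_mul_of_nonneg_left (hK n x) (by positivity)
      _ = a ^ 2 * (16 * K / E ^ 2) * n ^ d := by
          rw [Finset.sum_const, Finset.card_univ, Fintype.card_fun, Fintype.card_fin,
            Fintype.card_fin, nsmul_eq_mul]
          push_cast
          ring
  have hnn : 0 ≤ᵐ[Measure.pi fun _ : (Fin d → Fin n) => unif c]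
      fun V => DU (GX.Ab d E n) (GX.xb d n) (fun x => ((V x : ℝ) : ℂ) - a * Complex.I) := by
    refine Filter.Eventually.of_forall fun V => ?_
    exact DU_nonneg _ (ua_loss ha V)
  have h := integral_mono_of_nonneg hnn (integrable_const (a ^ 2 * (16 * K / E ^ 2) * n ^ d)) hle
  refine h.trans ?_
  rw [integral_const]
  simp

end Pool.Agent.Lib.MP_562b47_mp.ED
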