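import Pool.Agent.Lib.MP_562b47_mp.ED.Iter
import Pool.Agent.Lib.MP_562b47_mp.ED.SumP

/-!
Module ED-Low (MP_562b47_mp): the functional at the energies `E ≤ -c + ε`.

PROOF.  `GX.Ab d E n = Ae (GX.bp d n) E (fun _ _ => True)`.  `DU A ξ (ua a V) = ∑_{x,y} a² ff(x,y) ‖G_xy‖²` (AL.Defs: DU, DD, gam),
`‖G_xy‖ ≤ 1/a` (AL.entry_le), so for `a ≤ 1` `a² ‖G‖² = (a ‖G‖)^2 ≤ (a ‖G‖)^(1/4) ≤ ‖G‖^(1/4)`.  By `iter` with
`k := di / (L + 2)`: `E ‖G_xy‖^{1/4} ≤ C 2^{-⌊di/(L+2)⌋} ≤ 2 C q^{di(x,y)}`, `q = 2^{-1/(L+2)} < 1`.  Then `sum_pos`, and the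
sum over `x` gives `n^d`.
-/

open Matrix MeasureTheory Finset
open scoped ENNReal

namespace Pool.Agent.Lib.MP_562b47_mp.ED

open Pool.Agent.Lib.MP_562b47_mp.AL Pool.Agent.Lib.MP_562b47_mp
open Pool.Agent.Lib.MP_562b47_mp.GD (adj sh)

namespace LowAux

theorem Ab_eq (d : ℕ) (E : ℝ) (n : ℕ) :
    GX.Ab d E n = Ae (GX.bp d n) E (fun _ _ => True) := by
  ext x y
  unfold GX.Ab Ae
  rw [Matrix.of_apply, Matrix.of_apply]
  by_cases h : x = y
  · rw [if_pos h, if_pos h]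
  · rw [if_neg h, if_neg h]
    by_cases h2 : adj (GX.bp d n x) (GX.bp d n y)
    · rw [if_pos h2, if_pos ⟨h2, trivial⟩]
    · rw [if_neg h2, if_neg (fun h3 => h2 h3.1)]

theorem pw {a r : ℝ} (ha : 0 < a) (ha1 : a ≤ 1) (hr : 0 ≤ r) (h : a * a * r ^ 2 ≤ 1) :
    ENNReal.ofReal (a ^ 2) * ENNReal.ofReal r ^ 2 ≤ ENNReal.ofReal r ^ (1 / 4 : ℝ) := by
  rw [← ENNReal.ofReal_pow hr, ← ENNReal.ofReal_mul (by positivity),
    ENNReal.ofReal_rpow_of_nonneg hr (by norm_num)]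
  apply ENNReal.ofReal_le_ofReal
  have h0 : 0 ≤ a * r := by positivity
  have h1 : a * r ≤ 1 := by
    by_contra hcon
    push Not at hcon
    nlinarith
  calc a ^ 2 * r ^ 2 = (a * r) ^ (2 : ℝ) := by
        rw [show (2 : ℝ) = ((2 : ℕ) : ℝ) by norm_num, Real.rpow_natCast]; ring
    _ ≤ (a * r) ^ (1 / 4 : ℝ) := by
        rcases h0.eq_or_lt with h2 | h2
        · rw [← h2, Real.zero_rpow (by norm_num), Real.zero_rpow (by norm_num)]
        · exact Real.rpow_le_rpow_of_exponent_ge h2 h1 (by norm_num)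
    _ ≤ r ^ (1 / 4 : ℝ) := by
        refine Real.rpow_le_rpow h0 ?_ (by norm_num)
        nlinarith

theorem geo (L m : ℕ) : ∃ q : ℝ, q = (1 / 2 : ℝ) ^ (1 / ((L : ℝ) + 2)) ∧ 0 < q ∧ q < 1 ∧
    ((1 / 2 : ℝ) ^ (m / (L + 2)) ≤ 2 * q ^ m) := by
  refine ⟨_, rfl, ?_, ?_, ?_⟩
  · positivity
  · exact Real.rpow_lt_one (by norm_num) (by norm_num) (by positivity)
  · set q : ℝ := (1 / 2 : ℝ) ^ (1 / ((L : ℝ) + 2)) with hq
    have hq0 : 0 < q := by positivity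
    have hq1 : q ≤ 1 := Real.rpow_le_one (by norm_num) (by norm_num) (by positivity)
    have hqL : q ^ (L + 2) = 1 / 2 := by
      rw [hq, ← Real.rpow_natCast, ← Real.rpow_mul (by norm_num)]
      have : (1 / ((L : ℝ) + 2)) * ((L + 2 : ℕ) : ℝ) = 1 := by
        push_cast
        field_simp
      rw [this, Real.rpow_one]
    have h1 : m ≤ (L + 2) * (m / (L + 2) + 1) := by
      have := Nat.lt_mul_div_succ m (show 0 < L + 2 by omega)
      omega
    have h2 : q ^ ((L + 2) * (m / (L + 2) + 1)) ≤ q ^ m := pow_le_pow_of_le_one hq0.le hq1 h1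
    rw [pow_mul, hqL, pow_succ] at h2
    linarith

end LowAux

open LowAux in
theorem low (d : ℕ) (hd : 0 < d) {c : ℝ} (hc : 0 < c) : ∃ ε K : ℝ, 0 < ε ∧ 0 ≤ K ∧
    ∀ E : ℝ, E ≤ -c + ε → ∀ a : ℝ, 0 < a → a ≤ 1 → ∀ n : ℕ,
      ∫ V, DU (GX.Ab d E n) (GX.xb d n) (fun x => ((V x : ℝ) : ℂ) - a * Complex.I)
        ∂(Measure.pi fun _ : (Fin d → Fin n) => unif c) ≤ K * n ^ d := by
  obtain ⟨L, ε, C, hε, hC, hit⟩ := iter d hd hc
  obtain ⟨q, hqd, hq0, hq1, -⟩ := geo L 0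
  obtain ⟨K, hK, hsum⟩ := sum_pos d hq0 hq1
  refine ⟨ε, C * 2 * K, hε, by positivity, fun E hE a ha ha1 n => ?_⟩
  have hA : (GX.Ab d E n).IsSymm := by
    rw [Ab_eq]; exact Ae_symm E (fun _ _ h => h)
  have hl : ∀ V : (Fin d → Fin n) → ℝ, Loss fun x => ((V x : ℝ) : ℂ) - a * Complex.I :=
    fun V x => by simpa using ha
  have hg : ∀ (V : (Fin d → Fin n) → ℝ) x,
      gam (fun x => ((V x : ℝ) : ℂ) - a * Complex.I) x = a := fun V x => by
    unfold gam; simp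
  rw [← ENNReal.ofReal_le_ofReal_iff (by positivity), BX.lint_DU hc ha hA]
  have h1 : ∀ x y : Fin d → Fin n, ENNReal.ofReal (a ^ 2) *
      (ENNReal.ofReal (ff (GX.xb d n) x y) *
        ∫⁻ V, ‖GM (GX.Ab d E n) (fun x => ((V x : ℝ) : ℂ) - a * Complex.I) x y‖ₑ ^ 2
        ∂(Measure.pi fun _ : (Fin d → Fin n) => unif c)) ≤
      ENNReal.ofReal (C * 2 * (ff (GX.xb d n) x y * q ^ di (GX.bp d n) x y)) := by
    intro x y
    have hf : 0 ≤ ff (GX.xb d n) x y := by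
      unfold ff; positivity
    have h2 : ENNReal.ofReal (a ^ 2) *
        ∫⁻ V, ‖GM (GX.Ab d E n) (fun x => ((V x : ℝ) : ℂ) - a * Complex.I) x y‖ₑ ^ 2
        ∂(Measure.pi fun _ : (Fin d → Fin n) => unif c) ≤
        ENNReal.ofReal (C * (1 / 2) ^ (di (GX.bp d n) x y / (L + 2))) := by
      rw [← lintegral_const_mul' _ _ ENNReal.ofReal_ne_top]
      refine le_trans (lintegral_mono fun V => ?_)
        (hit (Fin d → Fin n) (GX.bp d n) (GX.bp_inj d n) E hE a ha _ (fun _ _ => True)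
          (fun _ _ h => h) x y (Nat.div_mul_le_self _ _))
      have h3 := entry_le hA (hl V) x y
      rw [hg V x, hg V y] at h3
      have h4 := pw ha ha1 (norm_nonneg _) h3
      rw [← Ab_eq]
      simp only [← ofReal_norm]
      exact h4
    have h5 : C * (1 / 2 : ℝ) ^ (di (GX.bp d n) x y / (L + 2)) ≤
        C * 2 * q ^ di (GX.bp d n) x y := by
      obtain ⟨q', hq'd, -, -, h6⟩ := geo L (di (GX.bp d n) x y)
      have h7 : q' = q := by rw [hq'd, hqd]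
      rw [h7] at h6
      have hC0 : 0 ≤ C := by linarith
      calc C * (1 / 2 : ℝ) ^ (di (GX.bp d n) x y / (L + 2)) ≤
          C * (2 * q ^ di (GX.bp d n) x y) := mul_le_mul_of_nonneg_left h6 hC0
        _ = _ := by ring
    calc ENNReal.ofReal (a ^ 2) *
        (ENNReal.ofReal (ff (GX.xb d n) x y) *
        ∫⁻ V, ‖GM (GX.Ab d E n) (fun x => ((V x : ℝ) : ℂ) - a * Complex.I) x y‖ₑ ^ 2
        ∂(Measure.pi fun _ : (Fin d → Fin n) => unif c))
        = ENNReal.ofReal (ff (GX.xb d n) x y) * (ENNReal.ofReal (a ^ 2) *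
        ∫⁻ V, ‖GM (GX.Ab d E n) (fun x => ((V x : ℝ) : ℂ) - a * Complex.I) x y‖ₑ ^ 2
        ∂(Measure.pi fun _ : (Fin d → Fin n) => unif c)) := by ring
      _ ≤ ENNReal.ofReal (ff (GX.xb d n) x y) *
        ENNReal.ofReal (C * 2 * q ^ di (GX.bp d n) x y) := by
          gcongr
          exact h2.trans (ENNReal.ofReal_le_ofReal h5)
      _ = _ := by
          rw [← ENNReal.ofReal_mul hf]
          congr 1
          ring
  have hnn : ∀ x y : Fin d → Fin n, 0 ≤ C * 2 * (ff (GX.xb d n) x y * q ^ di (GX.bp d n) x y) := by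
    intro x y
    have hf : 0 ≤ ff (GX.xb d n) x y := by
      unfold ff; positivity
    positivity
  rw [Finset.mul_sum]
  simp_rw [Finset.mul_sum]
  refine (Finset.sum_le_sum fun y _ => Finset.sum_le_sum fun x _ => h1 x y).trans ?_
  rw [Finset.sum_comm]
  have h8 : ∀ x : Fin d → Fin n, ∑ y, ENNReal.ofReal
      (C * 2 * (ff (GX.xb d n) x y * q ^ di (GX.bp d n) x y)) ≤ ENNReal.ofReal (C * 2 * K) := by
    intro x
    rw [← ENNReal.ofReal_sum_of_nonneg fun y _ => hnn x y]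
    apply ENNReal.ofReal_le_ofReal
    rw [← Finset.mul_sum]
    exact mul_le_mul_of_nonneg_left (hsum n x) (by positivity)
  refine (Finset.sum_le_sum fun x _ => h8 x).trans ?_
  rw [Finset.sum_const, nsmul_eq_mul, Finset.card_univ, Fintype.card_fun, Fintype.card_fin,
    Fintype.card_fin, ← ENNReal.ofReal_natCast, ← ENNReal.ofReal_mul (by positivity)]
  apply ENNReal.ofReal_le_ofReal
  push_cast
  rw [mul_comm]

end Pool.Agent.Lib.MP_562b47_mp.ED
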