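import Pool.Agent.Lib.MP_562b47_mp.Window

/-!
MP_562b47: the square root of the mean square displacement is subadditive (the displacement operator
is covariant, and `E ‖A e_0‖²` is the trace norm on covariant operators).
-/

open MeasureTheory Set Filter Topology Complex
open scoped Real ENNReal NNReal InnerProductSpace

set_option linter.unusedSectionVars false

namespace Pool.Agent.Lib.MP_562b47_mp.ED

open Pool.Agent.Lib.MP_562b47_mp

section gen

variable {Λ : Type*} [DecidableEq Λ] [AddCommGroup Λ] [Countable Λ] {E : Type*}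
  [NormedAddCommGroup E] [InnerProductSpace ℂ E] [CompleteSpace E] {c : ℝ} {e : Λ → E}
  {H : (Λ → ℝ) → (E →L[ℂ] E)} {V : Λ → (E ≃ₗᵢ[ℂ] E)} {J : E →L[ℂ] E}

theorem cont_Ut_norm (H : (Λ → ℝ) → (E →L[ℂ] E)) (ω : Λ → ℝ) : Continuous fun s : ℝ => Ut H ω s := by
  exact continuous_iff_continuousAt.mpr fun s => (hasDerivAt_Ut H ω s).continuousAt

theorem cont_Js_norm (H : (Λ → ℝ) → (E →L[ℂ] E)) (J : E →L[ℂ] E) (ω : Λ → ℝ) :
    Continuous fun s : ℝ => Js H J ω s := by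
  unfold Js
  exact (((cont_Ut_norm H ω).comp continuous_neg).mul continuous_const).mul (cont_Ut_norm H ω)

/-- the displacement operator -/
noncomputable def AT (H : (Λ → ℝ) → (E →L[ℂ] E)) (J : E →L[ℂ] E) (t : ℝ) (ω : Λ → ℝ) : E →L[ℂ] E :=
  ∫ s in (0:ℝ)..t, Js H J ω s

theorem AT_apply (t : ℝ) (ω : Λ → ℝ) (u : E) : AT H J t ω u = ∫ s in (0:ℝ)..t, Js H J ω s u := by
  unfold AT
  exact ContinuousLinearMap.intervalIntegral_apply
    ((cont_Js_norm H J ω).intervalIntegrable _ _) u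

theorem cont_Js_apply (ω : Λ → ℝ) (u : E) : Continuous fun s : ℝ => Js H J ω s u :=
  (cont_Js_norm H J ω).clm_apply continuous_const

theorem AT_covOp (hsa : ∀ ω, IsSelfAdjoint (H ω)) (hH : CovOp V H)
    (hJ : ∀ a u, V a (J u) = J (V a u)) (t : ℝ) : CovOp V (AT H J t) where
  bdd := by
    refine ⟨‖J‖ * |t - 0|, fun ω => ?_⟩
    unfold AT
    exact intervalIntegral.norm_integral_le_of_norm_le_const fun s _ => norm_Js_le (hsa ω) J s
  cont := by
    intro u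
    simp_rw [AT_apply]
    refine intervalIntegral.continuous_of_dominated_interval (bound := fun _ => ‖J‖ * ‖u‖)
      (fun ω => (cont_Js_apply ω u).aestronglyMeasurable) (fun ω => ?_)
      intervalIntegrable_const ?_
    · exact Eventually.of_forall fun s _ => ((Js H J ω s).le_opNorm u).trans
        (mul_le_mul_of_nonneg_right (norm_Js_le (hsa ω) J s) (norm_nonneg _))
    · exact Eventually.of_forall fun s _ => (hH.Js hJ s).cont u
  cov := by
    intro a ω u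
    rw [AT_apply, AT_apply]
    have h1 := ((V a).toContinuousLinearEquiv : E →L[ℂ] E).intervalIntegral_comp_comm
      ((cont_Js_apply (H := H) (J := J) ω u).intervalIntegrable (μ := volume) 0 t)
    have h2 : V a (∫ s in (0:ℝ)..t, Js H J ω s u) = ∫ s in (0:ℝ)..t, V a (Js H J ω s u) :=
      h1.symm
    rw [h2]
    refine intervalIntegral.integral_congr fun s _ => ?_
    exact (hH.Js hJ s).cov a ω u

theorem int_shift (s t : ℝ) (ω : Λ → ℝ) :
    ∫ r in s..(s + t), Js H J ω r (e 0) = Ut H ω (-s) (AT H J t ω (Ut H ω s (e 0))) := by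
  have h1 : ∫ r in (0:ℝ)..t, Js H J ω (r + s) (e 0) = ∫ r in s..(s + t), Js H J ω r (e 0) := by
    rw [intervalIntegral.integral_comp_add_right (fun r => Js H J ω r (e 0)), zero_add, add_comm t s]
  rw [← h1, AT_apply]
  have h2 := (Ut H ω (-s)).intervalIntegral_comp_comm
    ((cont_Js_apply (H := H) (J := J) ω (Ut H ω s (e 0))).intervalIntegrable (μ := volume) 0 t)
  rw [← h2]
  refine intervalIntegral.integral_congr fun r _ => ?_
  change Js H J ω (r + s) (e 0) = Ut H ω (-s) (Js H J ω r (Ut H ω s (e 0)))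
  rw [Js_add]
  rfl

theorem ms_shift (M : Model c e H) (hV : Trans e V) (hH : CovOp V H)
    (hJ : ∀ a u, V a (J u) = J (V a u)) (s t : ℝ) :
    ∫⁻ ω, ‖∫ r in s..(s + t), Js H J ω r (e 0)‖ₑ ^ 2 ∂(PP Λ c) =
      ∫⁻ ω, ‖∫ r in (0:ℝ)..t, Js H J ω r (e 0)‖ₑ ^ 2 ∂(PP Λ c) := by
  have hA := AT_covOp (t := t) M.sa hH hJ
  have h1 : ∀ ω, ‖∫ r in s..(s + t), Js H J ω r (e 0)‖ₑ = ‖(AT H J t ω * Ut H ω s) (e 0)‖ₑ := by
    intro ω
    rw [int_shift, ← ofReal_norm, ← ofReal_norm]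
    congr 1
    exact norm_Ut_apply (M.sa ω) (-s) _
  have h2 : ∀ ω, ‖(AT H J t ω * Ut H ω s).adjoint (e 0)‖ₑ = ‖(AT H J t ω).adjoint (e 0)‖ₑ := by
    intro ω
    have h3 : (AT H J t ω * Ut H ω s).adjoint = Ut H ω (-s) * (AT H J t ω).adjoint := by
      rw [← ContinuousLinearMap.star_eq_adjoint, star_mul, ContinuousLinearMap.star_eq_adjoint,
        ContinuousLinearMap.star_eq_adjoint, Ut_adjoint (M.sa ω)]
    rw [h3, ← ofReal_norm, ← ofReal_norm]
    congr 1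
    exact norm_Ut_apply (M.sa ω) (-s) _
  simp_rw [h1]
  rw [(hA.mul (hH.Ut s)).mass_transport M.hc M.ortho M.tot hV]
  simp_rw [h2]
  rw [← hA.mass_transport M.hc M.ortho M.tot hV]
  simp_rw [AT_apply]

theorem ms_sub (M : Model c e H) (hV : Trans e V) (hH : CovOp V H)
    (hJ : ∀ a u, V a (J u) = J (V a u)) (s t : ℝ) :
    ∫⁻ ω, ‖∫ r in (0:ℝ)..(s + t), Js H J ω r (e 0)‖ₑ ^ 2 ∂(PP Λ c) ≤
      2 * ∫⁻ ω, ‖∫ r in (0:ℝ)..s, Js H J ω r (e 0)‖ₑ ^ 2 ∂(PP Λ c) +
      2 * ∫⁻ ω, ‖∫ r in (0:ℝ)..t, Js H J ω r (e 0)‖ₑ ^ 2 ∂(PP Λ c) := by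
  rw [← ms_shift (t := t) M hV hH hJ s, ← lintegral_const_mul' _ _ (by simp),
    ← lintegral_const_mul' _ _ (by simp), ← lintegral_add_left']
  · refine lintegral_mono fun ω => ?_
    have h1 : ∫ r in (0:ℝ)..(s + t), Js H J ω r (e 0) =
        (∫ r in (0:ℝ)..s, Js H J ω r (e 0)) + ∫ r in s..(s + t), Js H J ω r (e 0) :=
      (intervalIntegral.integral_add_adjacent_intervals
        ((cont_Js_apply (H := H) (J := J) ω (e 0)).intervalIntegrable _ _)
        ((cont_Js_apply (H := H) (J := J) ω (e 0)).intervalIntegrable _ _)).symm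
    rw [h1]
    exact (pow_le_pow_left₀ zero_le (enorm_add_le _ _) 2).trans (sq_two _ _)
  · have h2 : Continuous fun ω => AT H J s ω (e 0) := (AT_covOp M.sa hH hJ s).cont (e 0)
    simp_rw [AT_apply] at h2
    exact ((h2.enorm.measurable.pow_const 2).const_mul 2).aemeasurable

end gen

variable {d : ℕ} {c : ℝ}

/-- the mean square displacement -/
noncomputable def MM (d : ℕ) (c : ℝ) (t : ℝ) : ℝ≥0∞ := ∫⁻ ω, sqd d c t ω ∂(PP (Fin d → ℤ) c)

theorem MM_eq (hc : 0 < c) {t : ℝ} (ht : 0 ≤ t) :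
    MM d c t = ∑ j, ∫⁻ ω, ‖∫ s in (0:ℝ)..t, Js (HH d c) (Jc d j) ω s (ee d 0)‖ₑ ^ 2
      ∂(PP (Fin d → ℤ) c) := by
  unfold MM
  simp_rw [sqd_eq hc ht]
  rw [lintegral_finsetSum']
  intro j _
  have h2 : Continuous fun ω => AT (HH d c) (Jc d j) t ω (ee d 0) :=
    (AT_covOp (V := VV d) (model hc).sa (covOp_HH hc) (VV_Jc d j) t).cont (ee d 0)
  simp_rw [AT_apply] at h2
  exact (h2.enorm.measurable.pow_const 2).aemeasurable

/-- subadditivity -/
theorem MM_sub (hc : 0 < c) {s t : ℝ} (hs : 0 ≤ s) (ht : 0 ≤ t) :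
    MM d c (s + t) ≤ 2 * MM d c s + 2 * MM d c t := by
  rw [MM_eq hc hs, MM_eq hc ht, MM_eq hc (add_nonneg hs ht), Finset.mul_sum, Finset.mul_sum,
    ← Finset.sum_add_distrib]
  exact Finset.sum_le_sum fun j _ => ms_sub (model hc) (trans_VV d) (covOp_HH hc) (VV_Jc d j) s t

/-- the ballistic bound -/
theorem MM_ball (hc : 0 < c) : ∃ K : ℝ, 0 ≤ K ∧ ∀ t : ℝ, 0 ≤ t →
    MM d c t ≤ ENNReal.ofReal (K * t ^ 2) := by
  have := PP_prob (Fin d → ℤ) hc
  refine ⟨∑ j, ‖Jc d j‖ ^ 2, by positivity, fun t ht => ?_⟩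
  rw [MM_eq hc ht, Finset.sum_mul, ENNReal.ofReal_sum_of_nonneg fun j _ => by positivity]
  refine Finset.sum_le_sum fun j _ => ?_
  have h1 : ∀ ω, ‖∫ s in (0:ℝ)..t, Js (HH d c) (Jc d j) ω s (ee d 0)‖ₑ ^ 2 ≤
      ENNReal.ofReal (‖Jc d j‖ ^ 2 * t ^ 2) := by
    intro ω
    have h2 : ‖∫ s in (0:ℝ)..t, Js (HH d c) (Jc d j) ω s (ee d 0)‖ ≤ ‖Jc d j‖ * |t - 0| := by
      refine intervalIntegral.norm_integral_le_of_norm_le_const fun s _ => ?_
      refine ((Js (HH d c) (Jc d j) ω s).le_opNorm _).trans ?_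
      have h3 : ‖ee d 0‖ = 1 := (model (d := d) hc).ortho.norm_eq_one 0
      rw [h3, mul_one]
      exact norm_Js_le ((model hc).sa ω) _ _
    rw [sub_zero, abs_of_nonneg ht] at h2
    rw [← ofReal_norm, ← ENNReal.ofReal_pow (norm_nonneg _), ← mul_pow]
    exact ENNReal.ofReal_le_ofReal (pow_le_pow_left₀ (norm_nonneg _) h2 2)
  calc ∫⁻ ω, ‖∫ s in (0:ℝ)..t, Js (HH d c) (Jc d j) ω s (ee d 0)‖ₑ ^ 2 ∂(PP (Fin d → ℤ) c)
      ≤ ∫⁻ _ω, ENNReal.ofReal (‖Jc d j‖ ^ 2 * t ^ 2) ∂(PP (Fin d → ℤ) c) :=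
        lintegral_mono h1
    _ = _ := by rw [lintegral_const, measure_univ, mul_one]

theorem measurable_MM (hc : 0 < c) : Measurable (MM d c) := by
  have := PP_prob (Fin d → ℤ) hc
  unfold MM
  exact (measurable_sqd hc).lintegral_prod_right'

/-- **From time averages to every time.** -/
theorem pointwise (hc : 0 < c) {C : ℝ} (hC : 0 ≤ C)
    (h : ∀ T : ℝ, 1 ≤ T → ∫⁻ t in Icc 0 T, MM d c t ≤ ENNReal.ofReal (C * T ^ 2)) :
    ∃ D : ℝ, 0 ≤ D ∧ ∀ t : ℝ, 0 ≤ t → MM d c t ≤ ENNReal.ofReal (D * t) := by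
  obtain ⟨K, hK, hb⟩ := MM_ball (d := d) hc
  refine ⟨4 * C + K, by positivity, fun T hT => ?_⟩
  by_cases hT1 : T ≤ 1
  · refine (hb T hT).trans (ENNReal.ofReal_le_ofReal ?_)
    have h1 := mul_nonneg hK (mul_nonneg hT (sub_nonneg.mpr hT1))
    have h2 := mul_nonneg hC hT
    nlinarith
  push Not at hT1
  have hT0 : 0 < T := by linarith
  have hm := measurable_MM (d := d) hc
  have h1 : ∫⁻ _t in Icc 0 T, MM d c T ≤ ∫⁻ t in Icc 0 T, (2 * MM d c t + 2 * MM d c (T - t)) := by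
    refine setLIntegral_mono' measurableSet_Icc fun t ht => ?_
    have h2 := MM_sub (d := d) (s := t) (t := T - t) hc ht.1 (by linarith [ht.2])
    rwa [add_sub_cancel] at h2
  have h2 : ∫⁻ t in Icc 0 T, MM d c (T - t) = ∫⁻ t in Icc 0 T, MM d c t := by
    have hmp : MeasurePreserving (fun t : ℝ => T - t) volume volume :=
      Measure.measurePreserving_sub_left volume T
    have h3 := hmp.setLIntegral_comp_preimage (s := Icc 0 T) measurableSet_Icc hm
    have h4 : (fun t : ℝ => T - t) ⁻¹' Icc 0 T = Icc 0 T := by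
      ext t
      simp only [mem_preimage, mem_Icc]
      constructor <;> rintro ⟨a, b⟩ <;> constructor <;> linarith
    rw [h4] at h3
    exact h3
  rw [lintegral_add_left (hm.const_mul 2), lintegral_const_mul' _ _ (by simp),
    lintegral_const_mul' _ _ (by simp), h2, lintegral_const, Measure.restrict_apply_univ,
    Real.volume_Icc, sub_zero] at h1
  have h5 := h T hT1.le
  have h6 : MM d c T * ENNReal.ofReal T ≤ ENNReal.ofReal (4 * (C * T ^ 2)) := by
    refine h1.trans ?_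
    calc 2 * (∫⁻ t in Icc 0 T, MM d c t) + 2 * (∫⁻ t in Icc 0 T, MM d c t)
        = 4 * (∫⁻ t in Icc 0 T, MM d c t) := by ring
      _ ≤ 4 * ENNReal.ofReal (C * T ^ 2) := by gcongr
      _ = ENNReal.ofReal (4 * (C * T ^ 2)) := by
          rw [ENNReal.ofReal_mul (by norm_num : (0:ℝ) ≤ 4)]
          norm_num
  have h7 : MM d c T ≤ ENNReal.ofReal (4 * (C * T ^ 2)) / ENNReal.ofReal T := by
    rwa [ENNReal.le_div_iff_mul_le (Or.inl (ENNReal.ofReal_pos.mpr hT0).ne')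
      (Or.inl ENNReal.ofReal_ne_top)]
  refine h7.trans ?_
  rw [← ENNReal.ofReal_div_of_pos hT0]
  refine ENNReal.ofReal_le_ofReal ?_
  rw [div_le_iff₀ hT0]
  nlinarith

end Pool.Agent.Lib.MP_562b47_mp.ED
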