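import Pool.Agent.Lib.MP_562b47_mp.ED.Defs

/-!
Module ED-Sym (MP_562b47_mp): symmetry `E ↦ 4 d - E`.

PROOF.  `U = (-1)^{|x|}` (diagonal): `U (Ab d E n + V) U = - (Ab d (4 d - E) n + (-V))` (adjacent sites have different
parity; diagonal: `2 d - E + V = - (2 d - (4 d - E) + (-V))`).  So `HM (Ab E) (V - i a) = - U conj (HM (Ab (4d - E)) (-V - i a)) U`,
the entries of the inverses have the same norm, `DU` is the same; `V ↦ -V` preserves the product of `unif c`.
-/

open Matrix MeasureTheory Finset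
open scoped ENNReal

namespace Pool.Agent.Lib.MP_562b47_mp.ED

open Pool.Agent.Lib.MP_562b47_mp.AL Pool.Agent.Lib.MP_562b47_mp

/-- the parity of a site -/
private noncomputable def sg (d n : ℕ) (x : Fin d → Fin n) : ℂ := (-1) ^ (∑ i, (x i : ℕ))

private theorem sg_sq (d n : ℕ) (x : Fin d → Fin n) : sg d n x * sg d n x = 1 := by
  unfold sg
  rw [← pow_add, ← two_mul, pow_mul]
  norm_num

private theorem sg_norm (d n : ℕ) (x : Fin d → Fin n) : ‖sg d n x‖ = 1 := by
  unfold sg
  rw [norm_pow, norm_neg, norm_one, one_pow]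

private theorem sum_sh {d : ℕ} (p : Fin d → ℤ) (i : Fin d) (t : ℤ) :
    ∑ j, GD.sh p i t j = ∑ j, p j + t := by
  unfold GD.sh
  rw [Finset.sum_update_of_mem (Finset.mem_univ i)]
  have := Finset.sum_erase_add Finset.univ p (Finset.mem_univ i)
  rw [← this, Finset.sdiff_singleton_eq_erase]
  ring

private theorem sg_adj {d n : ℕ} {x y : Fin d → Fin n} (h : GD.adj (GX.bp d n x) (GX.bp d n y)) :
    sg d n x * sg d n y = -1 := by
  have key : ∑ i, (y i : ℕ) = ∑ i, (x i : ℕ) + 1 ∨ ∑ i, (x i : ℕ) = ∑ i, (y i : ℕ) + 1 := by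
    obtain ⟨i, h | h⟩ := h
    · left
      have h1 := sum_sh (GX.bp d n x) i 1
      rw [← h] at h1
      unfold GX.bp at h1
      exact_mod_cast h1
    · right
      have h1 := sum_sh (GX.bp d n x) i (-1)
      rw [← h] at h1
      unfold GX.bp at h1
      have h2 : ∑ j, ((x j : ℕ) : ℤ) = ∑ j, ((y j : ℕ) : ℤ) + 1 := by linarith
      exact_mod_cast h2
  unfold sg
  rcases key with h | h
  · rw [h, pow_succ, ← mul_assoc, ← pow_add, ← two_mul, pow_mul]
    norm_num
  · rw [h, pow_succ, mul_assoc, mul_comm, mul_assoc, ← pow_add, ← two_mul, pow_mul]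
    norm_num

private theorem Ab_isSymm (d : ℕ) (E : ℝ) (n : ℕ) : (GX.Ab d E n).IsSymm := by
  classical
  ext x y
  simp only [Matrix.transpose_apply, GX.Ab, Matrix.of_apply]
  by_cases h : x = y
  · subst h; simp
  · rw [if_neg h, if_neg (Ne.symm h)]
    simp only [GX.adj_comm (GX.bp d n y) (GX.bp d n x)]

private theorem HM_sym (d : ℕ) (E a : ℝ) (n : ℕ) (V : (Fin d → Fin n) → ℝ) (x y : Fin d → Fin n) :
    HM (GX.Ab d (4 * d - E) n) (fun x => ((V x : ℝ) : ℂ) - a * Complex.I) x y =
      -(sg d n x * (starRingEnd ℂ) (HM (GX.Ab d E n)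
        (fun x => (((-V x : ℝ)) : ℂ) - a * Complex.I) x y) * sg d n y) := by
  classical
  rw [HM_apply, HM_apply]
  by_cases h : x = y
  · subst h
    simp only [GX.Ab, Matrix.of_apply, if_true, map_add, map_sub, map_mul, Complex.conj_ofReal,
      Complex.conj_I]
    rw [mul_right_comm, sg_sq]
    push_cast
    ring
  · by_cases hadj : GD.adj (GX.bp d n x) (GX.bp d n y)
    · simp only [GX.Ab, Matrix.of_apply, if_neg h, if_pos hadj, map_add, Complex.conj_ofReal,
        map_zero, add_zero]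
      rw [mul_right_comm, sg_adj hadj]
      push_cast
      ring
    · simp only [GX.Ab, Matrix.of_apply, if_neg h, if_neg hadj, map_add, Complex.conj_ofReal,
        map_zero, add_zero]
      push_cast
      simp

private theorem GM_sym (d : ℕ) (E : ℝ) {a : ℝ} (ha : 0 < a) (n : ℕ) (V : (Fin d → Fin n) → ℝ)
    (x y : Fin d → Fin n) :
    GM (GX.Ab d (4 * d - E) n) (fun x => ((V x : ℝ) : ℂ) - a * Complex.I) x y =
      -(sg d n x * (starRingEnd ℂ) (GM (GX.Ab d E n)
        (fun x => (((-V x : ℝ)) : ℂ) - a * Complex.I) x y) * sg d n y) := by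
  classical
  have hu : Loss (fun x => (((-V x : ℝ)) : ℂ) - a * Complex.I) := by
    intro x
    simp [ha]
  have h1 := HM_mul_GM (Ab_isSymm d E n) hu
  have h2 : GM (GX.Ab d (4 * d - E) n) (fun x => ((V x : ℝ) : ℂ) - a * Complex.I) =
      Matrix.of fun x y => -(sg d n x * (starRingEnd ℂ) (GM (GX.Ab d E n)
        (fun x => (((-V x : ℝ)) : ℂ) - a * Complex.I) x y) * sg d n y) := by
    unfold GM
    refine Matrix.inv_eq_right_inv ?_
    ext p q
    rw [Matrix.mul_apply]
    simp only [Matrix.of_apply]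
    have h3 := congrFun (congrFun h1 p) q
    rw [Matrix.mul_apply] at h3
    have h4 := congrArg (starRingEnd ℂ) h3
    rw [map_sum] at h4
    simp only [map_mul] at h4
    have h5 : ∀ j, HM (GX.Ab d (4 * d - E) n) (fun x => ((V x : ℝ) : ℂ) - a * Complex.I) p j *
        -(sg d n j * (starRingEnd ℂ) ((HM (GX.Ab d E n)
          (fun x => (((-V x : ℝ)) : ℂ) - a * Complex.I))⁻¹ j q) * sg d n q) =
        sg d n p * sg d n q * ((starRingEnd ℂ) (HM (GX.Ab d E n)
          (fun x => (((-V x : ℝ)) : ℂ) - a * Complex.I) p j) * (starRingEnd ℂ)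
            (GM (GX.Ab d E n) (fun x => (((-V x : ℝ)) : ℂ) - a * Complex.I) j q)) := by
      intro j
      rw [HM_sym]
      have h6 := sg_sq d n j
      unfold GM
      linear_combination (sg d n p * sg d n q * (starRingEnd ℂ) (HM (GX.Ab d E n)
          (fun x => (((-V x : ℝ)) : ℂ) - a * Complex.I) p j) * (starRingEnd ℂ)
            ((HM (GX.Ab d E n) (fun x => (((-V x : ℝ)) : ℂ) - a * Complex.I))⁻¹ j q)) * h6
    rw [Finset.sum_congr rfl fun j _ => h5 j, ← Finset.mul_sum, h4]
    by_cases hpq : p = q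
    · subst hpq
      rw [sg_sq]
      simp
    · rw [Matrix.one_apply_ne hpq]
      simp
  rw [h2]
  rfl

private theorem DU_sym (d : ℕ) (E : ℝ) {a : ℝ} (ha : 0 < a) (n : ℕ) (V : (Fin d → Fin n) → ℝ) :
    DU (GX.Ab d (4 * d - E) n) (GX.xb d n) (fun x => ((V x : ℝ) : ℂ) - a * Complex.I) =
      DU (GX.Ab d E n) (GX.xb d n) (fun x => (((-V x : ℝ)) : ℂ) - a * Complex.I) := by
  unfold DU AL.DD
  refine Finset.sum_congr rfl fun x _ => Finset.sum_congr rfl fun y _ => ?_
  rw [GM_sym d E ha n V x y, norm_neg, norm_mul, norm_mul, sg_norm, sg_norm, RCLike.norm_conj]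
  simp [gam]

private theorem unif_neg (c : ℝ) : MeasurePreserving (fun v : ℝ => -v) (unif c) (unif c) := by
  have h1 := (Measure.measurePreserving_neg (volume : Measure ℝ)).restrict_preimage
    (measurableSet_Icc (a := -c) (b := c))
  have h2 : (Neg.neg ⁻¹' (Set.Icc (-c) c) : Set ℝ) = Set.Icc (-c) c := by
    ext v
    simp only [Set.mem_preimage, Set.mem_Icc]
    constructor <;> rintro ⟨h, h'⟩ <;> constructor <;> linarith
  rw [h2] at h1
  unfold unif
  exact h1.smul_measure _

private theorem unif_sf (c : ℝ) : SigmaFinite (unif c) := by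
  rcases lt_or_ge 0 c with hc | hc
  · have := unif_prob hc
    infer_instance
  · have : unif c = 0 := by
      unfold unif
      have h1 : volume.restrict (Set.Icc (-c) c) = (0 : Measure ℝ) := by
        rw [Measure.restrict_eq_zero, Real.volume_Icc]
        exact ENNReal.ofReal_of_nonpos (by linarith)
      rw [h1, smul_zero]
    rw [this]
    infer_instance

theorem sym (d : ℕ) (c E : ℝ) {a : ℝ} (ha : 0 < a) (n : ℕ) :
    ∫ V, DU (GX.Ab d (4 * d - E) n) (GX.xb d n) (fun x => ((V x : ℝ) : ℂ) - a * Complex.I)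
        ∂(Measure.pi fun _ : (Fin d → Fin n) => unif c) =
      ∫ V, DU (GX.Ab d E n) (GX.xb d n) (fun x => ((V x : ℝ) : ℂ) - a * Complex.I)
        ∂(Measure.pi fun _ : (Fin d → Fin n) => unif c) := by
  have := unif_sf c
  have h1 : MeasurePreserving (fun (V : (Fin d → Fin n) → ℝ) x => -V x)
      (Measure.pi fun _ : (Fin d → Fin n) => unif c)
      (Measure.pi fun _ : (Fin d → Fin n) => unif c) :=
    measurePreserving_pi _ _ fun _ => unif_neg c
  have h2 : MeasurableEmbedding (fun (V : (Fin d → Fin n) → ℝ) x => -V x) :=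
    (MeasurableEquiv.neg ((Fin d → Fin n) → ℝ)).measurableEmbedding
  rw [← h1.integral_comp h2 (fun V => DU (GX.Ab d E n) (GX.xb d n)
    (fun x => ((V x : ℝ) : ℂ) - a * Complex.I))]
  refine integral_congr_ae (Filter.Eventually.of_forall fun V => ?_)
  exact DU_sym d E ha n V

end Pool.Agent.Lib.MP_562b47_mp.ED
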