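import Pool.Agent.Lib.MP_562b47_mp.ED.Planch

/-!
Module ED-Time (MP_562b47_mp): time averages.

PROOF.  `1 ≤ e² e^{-2 t/T}` for `0 ≤ t ≤ T`, so `∫_0^T M ≤ e² ∫_0^∞ e^{-2 t/T} M(t) dt`; `planch` with `η = 1/T ≤ 1`;
`∫ K T² / (1+E²) dE = π K T²` (`integral_univ_inv_one_add_sq`).
-/

open MeasureTheory Set Filter Topology Complex
open scoped Real ENNReal NNReal InnerProductSpace

namespace Pool.Agent.Lib.MP_562b47_mp.ED

open Pool.Agent.Lib.MP_562b47_mp

theorem time_of_DE {d : ℕ} {c : ℝ} (hc : 0 < c) {K : ℝ} (hK : 0 ≤ K)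
    (h : ∀ E a : ℝ, 0 < a → a ≤ 1 → QL.DE d c ⟨E, a⟩ ≤ ENNReal.ofReal (K / (a ^ 2 * (1 + E ^ 2)))) :
    ∃ C : ℝ, 0 ≤ C ∧ ∀ T : ℝ, 1 ≤ T →
      ∫⁻ t in Icc 0 T, ∫⁻ ω, sqd d c t ω ∂(PP (Fin d → ℤ) c) ≤ ENNReal.ofReal (C * T ^ 2) := by
  refine ⟨rexp 2 * (1 / (2 * π) * (K * π)), by positivity, fun T hT => ?_⟩
  have hT0 : 0 < T := by linarith
  set M : ℝ → ℝ≥0∞ := fun t => ∫⁻ ω, sqd d c t ω ∂(PP (Fin d → ℤ) c) with hM
  have hη : 0 < 1 / T := by positivity
  have hη1 : 1 / T ≤ 1 := by rw [div_le_one hT0]; exact hT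
  have h1 : ∫⁻ t in Icc 0 T, M t ≤ ENNReal.ofReal (rexp 2) *
      ∫⁻ t in Ioi (0:ℝ), ENNReal.ofReal (rexp (-2 * (1 / T) * t)) * M t := by
    rw [← lintegral_const_mul' _ _ ENNReal.ofReal_ne_top, setLIntegral_congr Ioc_ae_eq_Icc.symm]
    calc ∫⁻ t in Ioc 0 T, M t
        ≤ ∫⁻ t in Ioc 0 T, ENNReal.ofReal (rexp 2) *
          (ENNReal.ofReal (rexp (-2 * (1 / T) * t)) * M t) := by
          refine setLIntegral_mono' measurableSet_Ioc fun t ht => ?_
          have h2 : 1 ≤ ENNReal.ofReal (rexp 2) * ENNReal.ofReal (rexp (-2 * (1 / T) * t)) := by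
            rw [← ENNReal.ofReal_mul (Real.exp_pos _).le, ← Real.exp_add,
              ENNReal.one_le_ofReal]
            apply Real.one_le_exp
            have : t / T ≤ 1 := by rw [div_le_one hT0]; exact ht.2
            have h3 : -2 * (1 / T) * t = -2 * (t / T) := by ring
            rw [h3]
            linarith
          rw [← mul_assoc]
          calc M t = 1 * M t := (one_mul _).symm
            _ ≤ _ := mul_le_mul_left h2 _
      _ ≤ _ := lintegral_mono_set Ioc_subset_Ioi_self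
  have h2 := planch (d := d) (c := c) hc hη
  have h3 : ∫⁻ E : ℝ, QL.DE d c ⟨E, 1 / T⟩ ≤ ENNReal.ofReal (K * T ^ 2) * ENNReal.ofReal π := by
    calc ∫⁻ E : ℝ, QL.DE d c ⟨E, 1 / T⟩
        ≤ ∫⁻ E : ℝ, ENNReal.ofReal (K * T ^ 2) * ENNReal.ofReal (1 + E ^ 2)⁻¹ := by
          refine lintegral_mono fun E => (h E (1 / T) hη hη1).trans (le_of_eq ?_)
          rw [← ENNReal.ofReal_mul (by positivity)]
          congr 1
          field_simp
      _ = ENNReal.ofReal (K * T ^ 2) * ∫⁻ E : ℝ, ENNReal.ofReal (1 + E ^ 2)⁻¹ :=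
          lintegral_const_mul' _ _ ENNReal.ofReal_ne_top
      _ = _ := by
          congr 1
          rw [← ofReal_integral_eq_lintegral_ofReal integrable_inv_one_add_sq
            (Eventually.of_forall fun E => by positivity), integral_univ_inv_one_add_sq]
  refine h1.trans ?_
  calc ENNReal.ofReal (rexp 2) *
        ∫⁻ t in Ioi (0:ℝ), ENNReal.ofReal (rexp (-2 * (1 / T) * t)) * M t
      ≤ ENNReal.ofReal (rexp 2) * (ENNReal.ofReal (1 / (2 * π)) *
        (ENNReal.ofReal (K * T ^ 2) * ENNReal.ofReal π)) := by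
        gcongr
        exact h2.trans (by gcongr)
    _ = ENNReal.ofReal (rexp 2 * (1 / (2 * π) * (K * π)) * T ^ 2) := by
        rw [← ENNReal.ofReal_mul (by positivity), ← ENNReal.ofReal_mul (by positivity),
          ← ENNReal.ofReal_mul (by positivity)]
        congr 1
        ring

end Pool.Agent.Lib.MP_562b47_mp.ED
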