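import Pool.Agent.Lib.MP_562b47_mp.CD.Fin
import Pool.Agent.Lib.MP_562b47_mp.ED.Low
import Pool.Agent.Lib.MP_562b47_mp.ED.Sym
import Pool.Agent.Lib.MP_562b47_mp.ED.Large
import Pool.Agent.Lib.MP_562b47_mp.ED.Time
import Pool.Agent.Lib.MP_562b47_mp.ED.Sub

/-!
MP_562b47, every dimension: the diffusive bound for the Green function at all energies, and the
bound of the mean square displacement at all times.
-/

open MeasureTheory Set Filter Topology

namespace Pool.Agent.Lib.MP_562b47_mp.ED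

open Pool.Agent.Lib.MP_562b47_mp

variable {d : ℕ} {c : ℝ}

/-- the energies near the ends and outside of the spectrum -/
theorem de_ends (hc : 0 < c) (hd : 0 < d) : ∃ ε K : ℝ, 0 < ε ∧ 0 ≤ K ∧
    ∀ E : ℝ, (E ≤ -c + ε ∨ 4 * d + c - ε ≤ E) → ∀ a : ℝ, 0 < a → a ≤ 1 →
      QL.DE d c ⟨E, a⟩ ≤ ENNReal.ofReal (K / a ^ 2) := by
  obtain ⟨ε, K, hε, hK, H⟩ := low d hd hc
  refine ⟨ε, K, hε, hK, fun E hE a ha ha1 => GX.lim_box hc ha hK (n₀ := 0) fun n _ => ?_⟩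
  rcases hE with hE | hE
  · exact H E hE a ha ha1 n
  · have h1 := H (4 * d - E) (by linarith) a ha ha1 n
    rwa [sym d c E ha n] at h1

/-- the energies far away -/
theorem de_large (hc : 0 < c) (hd : 0 < d) : ∃ E₁ K : ℝ, 0 < E₁ ∧ 0 ≤ K ∧
    ∀ E : ℝ, E₁ ≤ |E| → ∀ a : ℝ, 0 < a → QL.DE d c ⟨E, a⟩ ≤ ENNReal.ofReal (K / E ^ 2) := by
  obtain ⟨E₁, K, hE₁, hK, H⟩ := large d hd hc
  refine ⟨E₁ + 8 * d, 4 * K, by positivity, by positivity, fun E hE a ha => ?_⟩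
  have hd0 : (0:ℝ) < d := by exact_mod_cast hd
  have hdiv : a ^ 2 * (4 * K / E ^ 2) / a ^ 2 = 4 * K / E ^ 2 := by field_simp
  rw [← hdiv]
  refine GX.lim_box hc ha (by positivity) (n₀ := 0) fun n _ => ?_
  have hEp : E₁ + 8 * d ≤ |E| := hE
  rcases le_or_gt E 0 with h0 | h0
  · rw [abs_of_nonpos h0] at hEp
    refine (H E (by linarith) a ha n).trans ?_
    have h1 : K / E ^ 2 ≤ 4 * K / E ^ 2 := by
      have : 0 ≤ E ^ 2 := sq_nonneg E
      apply div_le_div_of_nonneg_right _ this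
      linarith
    gcongr
  · rw [abs_of_pos h0] at hEp
    have h1 := H (4 * d - E) (by linarith) a ha n
    rw [sym d c E ha n] at h1
    refine h1.trans ?_
    have h2 : K / (4 * d - E) ^ 2 ≤ 4 * K / E ^ 2 := by
      rw [div_le_div_iff₀ (by nlinarith) (by positivity)]
      have h3 : E ^ 2 ≤ 4 * (4 * d - E) ^ 2 := by nlinarith
      nlinarith
    gcongr

/-- **The diffusive bound for the Green function at all energies.** -/
theorem de_all (hc : 0 < c) (hd : 2 ≤ d) : ∃ K : ℝ, 0 ≤ K ∧ ∀ E a : ℝ, 0 < a → a ≤ 1 →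
    QL.DE d c ⟨E, a⟩ ≤ ENNReal.ofReal (K / (a ^ 2 * (1 + E ^ 2))) := by
  obtain ⟨ε, K1, hε, hK1, H1⟩ := de_ends (d := d) hc (by omega)
  obtain ⟨E₁, K2, hE₁, hK2, H2⟩ := de_large (d := d) hc (by omega)
  obtain ⟨K3, hK3, H3⟩ := CD.de_compact (d := d) hc hd (K := Icc (-c + ε) (4 * d + c - ε))
    isCompact_Icc (fun x hx => ⟨by linarith [hx.1], by linarith [hx.2]⟩)
  -- all energies
  have hall : ∀ E a : ℝ, 0 < a → a ≤ 1 →
      QL.DE d c ⟨E, a⟩ ≤ ENNReal.ofReal ((K1 + K3) / a ^ 2) := by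
    intro E a ha ha1
    by_cases h : E ≤ -c + ε ∨ 4 * d + c - ε ≤ E
    · refine (H1 E h a ha ha1).trans (ENNReal.ofReal_le_ofReal ?_)
      gcongr
      linarith
    · push Not at h
      refine (H3 E ⟨h.1.le, h.2.le⟩ a ha ha1).trans (ENNReal.ofReal_le_ofReal ?_)
      gcongr
      linarith
  set E₂ : ℝ := max E₁ 1 with hE₂
  have hE₂1 : 1 ≤ E₂ := le_max_right _ _
  refine ⟨(K1 + K3) * (1 + E₂ ^ 2) + 2 * K2, by positivity, fun E a ha ha1 => ?_⟩
  by_cases h : |E| ≤ E₂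
  · refine (hall E a ha ha1).trans (ENNReal.ofReal_le_ofReal ?_)
    rw [div_le_div_iff₀ (by positivity) (by positivity)]
    have h1 : E ^ 2 ≤ E₂ ^ 2 := by
      rw [← sq_abs]
      exact pow_le_pow_left₀ (abs_nonneg _) h 2
    have h2 : (K1 + K3) * (1 + E ^ 2) ≤ (K1 + K3) * (1 + E₂ ^ 2) + 2 * K2 := by nlinarith
    calc (K1 + K3) * (a ^ 2 * (1 + E ^ 2)) = (K1 + K3) * (1 + E ^ 2) * a ^ 2 := by ring
      _ ≤ _ := mul_le_mul_of_nonneg_right h2 (by positivity)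
  · push Not at h
    have hE1 : E₁ ≤ |E| := (le_max_left _ _).trans h.le
    have hEa : 1 < |E| := hE₂1.trans_lt h
    refine (H2 E hE1 a ha).trans (ENNReal.ofReal_le_ofReal ?_)
    have hE2 : 1 < E ^ 2 := by
      rw [← sq_abs]; nlinarith
    rw [div_le_div_iff₀ (by positivity) (by positivity)]
    have h1 : a ^ 2 ≤ 1 := pow_le_one₀ ha.le ha1
    have h2 : a ^ 2 * (1 + E ^ 2) ≤ 2 * E ^ 2 := by nlinarith
    have h3 : 0 ≤ (K1 + K3) * (1 + E₂ ^ 2) * E ^ 2 := by positivity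
    have h4 : K2 * (a ^ 2 * (1 + E ^ 2)) ≤ K2 * (2 * E ^ 2) := mul_le_mul_of_nonneg_left h2 hK2
    nlinarith

/-- **At most diffusive transport at all times, in every dimension and at every disorder.** -/
theorem M_le (hc : 0 < c) (hd : 2 ≤ d) : ∃ D : ℝ, 0 ≤ D ∧ ∀ t : ℝ, 0 ≤ t →
    MM d c t ≤ ENNReal.ofReal (D * t) := by
  obtain ⟨K, hK, H⟩ := de_all (d := d) hc hd
  obtain ⟨C, hC, h⟩ := time_of_DE (d := d) hc hK H
  exact pointwise hc hC h

end Pool.Agent.Lib.MP_562b47_mp.ED
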