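import Mathlib
import Pool.Agent.Lib.MP_562b47_mp.WindowB
import Pool.Agent.Lib.MP_562b47_mp.QL.Fin
import Pool.Agent.Lib.MP_562b47_mp.QP.Out

/-!
Module ED-PlanchA (MP_562b47_mp): Plancherel for a fixed potential and a fixed site `x ≠ 0`.
-/

open MeasureTheory Set Filter Topology Complex
open scoped Real ENNReal NNReal InnerProductSpace FourierTransform

namespace Pool.Agent.Lib.MP_562b47_mp.ED

open Pool.Agent.Lib.MP_562b47_mp Pool.Agent.Lib.MP_562b47_mp.QP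

/-- Plancherel for continuous integrable functions with integrable transform -/
theorem plg {f : ℝ → ℂ} (hc : Continuous f) (hf : Integrable f) (hF : Integrable (𝓕 f)) :
    ∫ ξ, ‖𝓕 f ξ‖ ^ 2 = ∫ x, ‖f x‖ ^ 2 := by
  have h0 := VectorFourier.integral_sesq_fourierIntegral_eq_neg_flip (innerSL ℂ)
      (L := innerₗ ℝ) Real.continuous_fourierChar continuous_inner hf hF
  have e1 : VectorFourier.fourierIntegral 𝐞 volume (innerₗ ℝ) f = 𝓕 f := rfl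
  have e2 : VectorFourier.fourierIntegral 𝐞 volume (-(innerₗ ℝ).flip) (𝓕 f) = 𝓕⁻ (𝓕 f) := by
    rw [flip_innerₗ]
    rfl
  rw [e1, e2, hc.fourierInv_fourier_eq hf hF] at h0
  have h1 : ∫ ξ, ⟪𝓕 f ξ, 𝓕 f ξ⟫_ℂ = ∫ x, ⟪f x, f x⟫_ℂ := h0
  have h2 : ∀ g : ℝ → ℂ, ∫ x, ⟪g x, g x⟫_ℂ = ((∫ x, ‖g x‖ ^ 2 : ℝ) : ℂ) := by
    intro g
    rw [← integral_complex_ofReal]
    refine integral_congr_ae (ae_of_all _ fun x => ?_)
    simp only
    rw [inner_self_eq_norm_sq_to_K]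
    push_cast
    rfl
  rw [h2, h2] at h1
  exact_mod_cast h1

/-- Plancherel inequality for the lower integrals -/
theorem plg' {f : ℝ → ℂ} (hc : Continuous f) (hf : Integrable f) (hF : Integrable (𝓕 f))
    (hf2 : Integrable fun x => ‖f x‖ ^ 2) :
    ∫⁻ x, ‖f x‖ₑ ^ 2 ≤ ∫⁻ ξ, ‖𝓕 f ξ‖ₑ ^ 2 := by
  have hq : ∀ x : ℂ, ‖x‖ₑ ^ 2 = ENNReal.ofReal (‖x‖ ^ 2) := fun x => by
    rw [← ofReal_norm, ENNReal.ofReal_pow (norm_nonneg _)]
  simp_rw [hq]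
  rw [← ofReal_integral_eq_lintegral_ofReal hf2 (ae_of_all _ fun x => by positivity), ← plg hc hf hF,
    integral_eq_lintegral_of_nonneg_ae (f := fun ξ => ‖𝓕 f ξ‖ ^ 2) (ae_of_all _ fun x => by positivity)
      (hF.1.norm.pow 2)]
  exact ENNReal.ofReal_toReal_le

section bound

variable {E : Type*} [NormedAddCommGroup E] [InnerProductSpace ℂ E] [CompleteSpace E]

/-- the resolvent between orthogonal vectors is `O(|z|⁻²)` -/
theorem norm_sq_mul_le {H : E →L[ℂ] E} (hH : IsSelfAdjoint H) {z : ℂ} (hz : 0 < z.im) {u v : E}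
    (hu : ‖u‖ ≤ 1) (hv : ‖v‖ ≤ 1) (huv : ⟪u, v⟫_ℂ = 0) :
    ‖z‖ ^ 2 * ‖⟪u, Rv H z v⟫_ℂ‖ ≤ ‖H‖ + ‖H‖ ^ 2 / z.im := by
  have h1 : z • Rv H z v = Rv H z (H v) - v := by
    rw [Rv_H_apply hH hz.ne']; abel
  have h2 : z • Rv H z (H v) = H (Rv H z (H v)) - H v := by
    rw [H_Rv_apply hH hz.ne']; abel
  have h3 : z ^ 2 * ⟪u, Rv H z v⟫_ℂ = ⟪H u, Rv H z (H v)⟫_ℂ - ⟪u, H v⟫_ℂ := by
    have h4 : z ^ 2 * ⟪u, Rv H z v⟫_ℂ = z * ⟪u, z • Rv H z v⟫_ℂ := by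
      rw [inner_smul_right]; ring
    rw [h4, h1, inner_sub_right, huv, sub_zero, ← inner_smul_right, h2, inner_sub_right]
    congr 1
    exact ((ContinuousLinearMap.isSelfAdjoint_iff_isSymmetric.mp hH) u (Rv H z (H v))).symm
  have h5 : ‖z‖ ^ 2 * ‖⟪u, Rv H z v⟫_ℂ‖ = ‖⟪H u, Rv H z (H v)⟫_ℂ - ⟪u, H v⟫_ℂ‖ := by
    rw [← h3, norm_mul, norm_pow]
  have hn : ∀ w : E, ‖w‖ ≤ 1 → ‖H w‖ ≤ ‖H‖ := fun w hw => by
    calc ‖H w‖ ≤ ‖H‖ * ‖w‖ := H.le_opNorm w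
      _ ≤ ‖H‖ * 1 := by gcongr
      _ = ‖H‖ := mul_one _
  have h6 : ‖Rv H z (H v)‖ ≤ ‖H‖ / z.im := by
    have := norm_Rv_le hH hz.ne' (H v)
    rw [abs_of_pos hz] at this
    rw [le_div_iff₀ hz]
    calc ‖Rv H z (H v)‖ * z.im = z.im * ‖Rv H z (H v)‖ := mul_comm _ _
      _ ≤ ‖H v‖ := this
      _ ≤ ‖H‖ := hn v hv
  rw [h5]
  calc ‖⟪H u, Rv H z (H v)⟫_ℂ - ⟪u, H v⟫_ℂ‖ ≤ ‖⟪H u, Rv H z (H v)⟫_ℂ‖ + ‖⟪u, H v⟫_ℂ‖ := norm_sub_le _ _
    _ ≤ ‖H u‖ * ‖Rv H z (H v)‖ + ‖u‖ * ‖H v‖ := add_le_add (norm_inner_le_norm _ _) (norm_inner_le_norm _ _)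
    _ ≤ ‖H‖ * (‖H‖ / z.im) + 1 * ‖H‖ := by
        gcongr
        · exact hn u hu
        · exact hn v hv
    _ = _ := by ring

end bound

theorem planch_fixed {d : ℕ} {c : ℝ} (hc : 0 < c) {η : ℝ} (hη : 0 < η) (ω : (Fin d → ℤ) → ℝ)
    {x : Fin d → ℤ} (hx : x ≠ 0) :
    ∫⁻ t in Ioi (0:ℝ), ENNReal.ofReal (rexp (-2 * η * t)) *
        ‖⟪ee d x, Ut (HH d c) ω t (ee d 0)⟫_ℂ‖ₑ ^ 2
      ≤ ENNReal.ofReal (1 / (2 * π)) * ∫⁻ E : ℝ, ‖Gr (ee d) (HH d c) ω (⟨E, η⟩ : ℂ) 0 x‖ₑ ^ 2 := by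
  set M := model (d := d) hc with hM
  set φ : ℝ → ((Fin d → ℤ) → ℝ) → ℂ := fun s ω => I * ⟪ee d x, Ut (HH d c) ω s (ee d 0)⟫_ℂ with hφ
  have hUc : Continuous fun s : ℝ => Ut (HH d c) ω s (ee d 0) :=
    continuous_Ut_apply (covOp_HH hc) (f := fun _ : ℝ => ω) continuous_const continuous_id
      continuous_const
  have hφc : Continuous fun s => φ s ω := continuous_const.mul (continuous_const.inner hUc)
  have hφ1 : ∀ s, ‖φ s ω‖ ≤ 1 := by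
    intro s
    rw [hφ]
    simp only
    rw [norm_mul, Complex.norm_I, one_mul]
    refine (norm_inner_le_norm _ _).trans ?_
    rw [norm_Ut_apply (M.sa ω), M.ortho.1, M.ortho.1, one_mul]
  have hφ0 : φ 0 ω = 0 := by
    rw [hφ]
    simp only
    rw [Ut_zero, one_apply_eq_self, M.ortho.2 hx, mul_zero]
  -- the function
  set g : ℝ → ℂ := fun s => ((rexp (-η * s) : ℝ) : ℂ) * φ s ω with hg
  set f : ℝ → ℂ := (Ioi (0:ℝ)).indicator g with hf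
  have hgc : Continuous g := (Complex.continuous_ofReal.comp (by fun_prop)).mul hφc
  have hgn : ∀ s, ‖g s‖ ≤ rexp (-η * s) := by
    intro s
    rw [hg]
    simp only
    rw [norm_mul, Complex.norm_real, Real.norm_eq_abs, abs_of_pos (Real.exp_pos _)]
    calc rexp (-η * s) * ‖φ s ω‖ ≤ rexp (-η * s) * 1 := by
          gcongr
          exact hφ1 s
      _ = _ := mul_one _
  have hfc : Continuous f := by
    refine continuous_indicator (fun a ha => ?_) hgc.continuousOn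
    rw [frontier_Ioi, mem_singleton_iff] at ha
    rw [ha, hg]
    simp only
    rw [hφ0, mul_zero]
  have hfi : Integrable f := by
    rw [hf, integrable_indicator_iff measurableSet_Ioi]
    exact (exp_neg_integrableOn_Ioi 0 hη).mono' hgc.aestronglyMeasurable
      (ae_of_all _ fun s => hgn s)
  have hf2 : Integrable fun s => ‖f s‖ ^ 2 := by
    have h1 : (fun s => ‖f s‖ ^ 2) = (Ioi (0:ℝ)).indicator fun s => ‖g s‖ ^ 2 := by
      funext s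
      by_cases hs : s ∈ Ioi (0:ℝ)
      · rw [hf, indicator_of_mem hs, indicator_of_mem hs]
      · rw [hf, indicator_of_notMem hs, indicator_of_notMem hs]; simp
    rw [h1, integrable_indicator_iff measurableSet_Ioi]
    refine (exp_neg_integrableOn_Ioi 0 (mul_pos two_pos hη)).mono'
      (hgc.norm.pow 2).aestronglyMeasurable (ae_of_all _ fun s => ?_)
    rw [norm_pow, norm_norm]
    calc ‖g s‖ ^ 2 ≤ rexp (-η * s) ^ 2 := pow_le_pow_left₀ (norm_nonneg _) (hgn s) 2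
      _ = rexp (-(2 * η) * s) := by
        rw [← Real.exp_nat_mul]; congr 1; push_cast; ring
  have hF : ∀ ξ : ℝ, 𝓕 f ξ = Gr (ee d) (HH d c) ω (⟨-2 * π * ξ, η⟩ : ℂ) 0 x := by
    intro ξ
    rw [M.Gr_symm ω (z := (⟨-2 * π * ξ, η⟩ : ℂ)) hη 0 x]
    have h1 : Gr (ee d) (HH d c) ω (⟨-2 * π * ξ, η⟩ : ℂ) x 0 = lap φ η (-2 * π * ξ) ω :=
      out_laplace M hη ω (-2 * π * ξ) x
    rw [h1, Real.fourier_real_eq_integral_exp_smul]
    have h2 : ∀ v : ℝ, cexp (((-2 * π * v * ξ : ℝ) : ℂ) * I) • f v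
        = (Ioi (0:ℝ)).indicator (fun s => cexp ((I * ((-2 * π * ξ : ℝ) : ℂ) - (η : ℂ)) * (s : ℂ))
          * φ s ω) v := by
      intro v
      by_cases hs : v ∈ Ioi (0:ℝ)
      · rw [hf, indicator_of_mem hs, indicator_of_mem hs, hg]
        simp only
        rw [smul_eq_mul, ← mul_assoc, Complex.ofReal_exp, ← Complex.exp_add]
        congr 2
        push_cast
        ring
      · rw [hf, indicator_of_notMem hs, indicator_of_notMem hs, smul_zero]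
    simp_rw [h2]
    rw [integral_indicator measurableSet_Ioi]
    rfl
  -- the bound for the transform
  set K : ℝ := ‖HH d c ω‖ + ‖HH d c ω‖ ^ 2 / η with hK
  have hK0 : 0 ≤ K := by positivity
  set m : ℝ := min 1 (η ^ 2) with hm
  have hm0 : 0 < m := lt_min one_pos (by positivity)
  have hFn : ∀ ξ : ℝ, ‖𝓕 f ξ‖ ≤ K / m * (1 + ξ ^ 2)⁻¹ := by
    intro ξ
    have h1 : ‖(⟨-2 * π * ξ, η⟩ : ℂ)‖ ^ 2 * ‖𝓕 f ξ‖ ≤ K := by
      rw [hF ξ, M.Gr_symm ω (z := (⟨-2 * π * ξ, η⟩ : ℂ)) hη 0 x]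
      exact norm_sq_mul_le (M.sa ω) (z := (⟨-2 * π * ξ, η⟩ : ℂ)) hη (M.ortho.1 x).le (M.ortho.1 0).le
        (M.ortho.2 hx)
    have h2 : m * (1 + ξ ^ 2) ≤ ‖(⟨-2 * π * ξ, η⟩ : ℂ)‖ ^ 2 := by
      rw [← Complex.normSq_eq_norm_sq, Complex.normSq_mk]
      have h3 : m ≤ 1 := min_le_left _ _
      have h4 : m ≤ η ^ 2 := min_le_right _ _
      have h5 : (1:ℝ) ≤ π := by linarith [Real.pi_gt_three]
      have h6 : 1 * ξ ^ 2 ≤ (4 * π ^ 2) * ξ ^ 2 := by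
        refine mul_le_mul_of_nonneg_right ?_ (sq_nonneg ξ)
        nlinarith
      have h7 : (-2 * π * ξ) * (-2 * π * ξ) = (4 * π ^ 2) * ξ ^ 2 := by ring
      have h8 : m * ξ ^ 2 ≤ 1 * ξ ^ 2 := mul_le_mul_of_nonneg_right h3 (sq_nonneg ξ)
      rw [h7]
      nlinarith
    have h3 : 0 < 1 + ξ ^ 2 := by positivity
    have h4 : m * (1 + ξ ^ 2) * ‖𝓕 f ξ‖ ≤ K :=
      (mul_le_mul_of_nonneg_right h2 (norm_nonneg _)).trans h1
    have h5 : K / m * (1 + ξ ^ 2)⁻¹ = K / (m * (1 + ξ ^ 2)) := by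
      rw [← div_eq_mul_inv, div_div]
    rw [h5, le_div_iff₀ (by positivity), mul_comm]
    exact h4
  have hGc : Continuous fun E : ℝ => Gr (ee d) (HH d c) ω (⟨E, η⟩ : ℂ) 0 x :=
    M.continuous_Gr continuous_const (out_cont_mk η) (fun _ => hη) 0 x
  have hFi : Integrable (𝓕 f) := by
    refine (integrable_inv_one_add_sq.const_mul (K / m)).mono' ?_ (ae_of_all _ hFn)
    have h1 : 𝓕 f = fun ξ => Gr (ee d) (HH d c) ω (⟨-2 * π * ξ, η⟩ : ℂ) 0 x := funext hF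
    rw [h1]
    exact (hGc.comp (by fun_prop : Continuous fun ξ : ℝ => -2 * π * ξ)).aestronglyMeasurable
  have h1 := plg' hfc hfi hFi hf2
  have h2 : ∫⁻ s, ‖f s‖ₑ ^ 2 = ∫⁻ t in Ioi (0:ℝ), ENNReal.ofReal (rexp (-2 * η * t)) *
        ‖⟪ee d x, Ut (HH d c) ω t (ee d 0)⟫_ℂ‖ₑ ^ 2 := by
    have h4 : ∀ s, ‖f s‖ₑ ^ 2 = (Ioi (0:ℝ)).indicator (fun t => ENNReal.ofReal (rexp (-2 * η * t)) *
        ‖⟪ee d x, Ut (HH d c) ω t (ee d 0)⟫_ℂ‖ₑ ^ 2) s := by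
      intro s
      by_cases hs : s ∈ Ioi (0:ℝ)
      · rw [hf, indicator_of_mem hs, indicator_of_mem hs, hg, hφ]
        simp only
        have hI : ‖(I : ℂ)‖ₑ = 1 := by rw [← ofReal_norm]; simp
        have hE : ‖((rexp (-η * s) : ℝ) : ℂ)‖ₑ ^ 2 = ENNReal.ofReal (rexp (-2 * η * s)) := by
          rw [← ofReal_norm, Complex.norm_real, Real.norm_eq_abs, abs_of_pos (Real.exp_pos _),
            ← ENNReal.ofReal_pow (Real.exp_pos _).le, ← Real.exp_nat_mul]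
          congr 2
          push_cast
          ring
        rw [enorm_mul, enorm_mul, hI, one_mul, mul_pow, hE]
      · rw [hf, indicator_of_notMem hs, indicator_of_notMem hs]; simp
    simp_rw [h4]
    rw [lintegral_indicator measurableSet_Ioi]
  have h3 : ∫⁻ ξ, ‖𝓕 f ξ‖ₑ ^ 2 = ENNReal.ofReal (1 / (2 * π)) *
      ∫⁻ E : ℝ, ‖Gr (ee d) (HH d c) ω (⟨E, η⟩ : ℂ) 0 x‖ₑ ^ 2 := by
    have h4 : Measurable fun E : ℝ => ‖Gr (ee d) (HH d c) ω (⟨E, η⟩ : ℂ) 0 x‖ₑ ^ 2 :=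
      hGc.measurable.enorm.pow_const 2
    have h5 : (-2 * π : ℝ) ≠ 0 := by
      have := Real.pi_pos
      nlinarith
    have h6 := Real.map_volume_mul_left h5
    have h7 : ∫⁻ ξ : ℝ, ‖Gr (ee d) (HH d c) ω (⟨-2 * π * ξ, η⟩ : ℂ) 0 x‖ₑ ^ 2
        = ∫⁻ E, ‖Gr (ee d) (HH d c) ω (⟨E, η⟩ : ℂ) 0 x‖ₑ ^ 2 ∂(Measure.map (-2 * π * ·) volume) := by
      rw [lintegral_map h4 (measurable_const_mul _)]
    simp_rw [hF]
    rw [h7, h6, lintegral_smul_measure, smul_eq_mul]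
    congr 2
    rw [abs_inv, abs_mul, abs_neg, abs_of_pos (by norm_num : (0:ℝ) < 2), abs_of_pos Real.pi_pos,
      one_div]
  rw [← h2, ← h3]
  exact h1

end Pool.Agent.Lib.MP_562b47_mp.ED
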