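import Pool.Agent.Lib.MP_562b47_mp.WindowB
import Pool.Agent.Lib.MP_562b47_mp.QL.Fin
import Pool.Agent.Lib.MP_562b47_mp.ED.PlanchA

/-!
Module ED-Planch (MP_562b47_mp): from the Green function to the time averages.
`planch_fixed` (module PlanchA) is Plancherel for a fixed potential and a fixed site `x ≠ 0`;
multiply by `|x|²`, sum over `x`, integrate over `ω` (Tonelli): `planch`.
-/

open MeasureTheory Set Filter Topology Complex
open scoped Real ENNReal NNReal InnerProductSpace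

namespace Pool.Agent.Lib.MP_562b47_mp.ED

open Pool.Agent.Lib.MP_562b47_mp

/-- Tonelli, in abstract form -/
private theorem planch_asm {Ω X : Type*} [MeasurableSpace Ω] [Countable X] (P : Measure Ω) [SFinite P]
    (w : X → ℝ≥0∞) (F G : X → Ω → ℝ → ℝ≥0∞)
    (hF : ∀ x, Measurable (Function.uncurry (F x))) (hG : ∀ x, Measurable (Function.uncurry (G x)))
    (e : ℝ → ℝ≥0∞) (he : Measurable e) (K : ℝ≥0∞) (hK : K ≠ ⊤)
    (h : ∀ ω x, w x ≠ 0 → ∫⁻ t in Ioi (0:ℝ), e t * F x ω t ≤ K * ∫⁻ E, G x ω E) :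
    ∫⁻ t in Ioi (0:ℝ), e t * ∫⁻ ω, ∑' x, w x * F x ω t ∂P
      ≤ K * ∫⁻ E : ℝ, ∫⁻ ω, ∑' x, w x * G x ω E ∂P := by
  have hF' : ∀ x ω, Measurable (F x ω) := fun x ω =>
    (hF x).comp (measurable_const.prodMk measurable_id)
  have hG' : ∀ x ω, Measurable (G x ω) := fun x ω =>
    (hG x).comp (measurable_const.prodMk measurable_id)
  have hF'' : ∀ x t, Measurable fun ω => F x ω t := fun x t =>
    (hF x).comp (measurable_id.prodMk measurable_const)
  have hω : ∀ ω : Ω, ∫⁻ t in Ioi (0:ℝ), e t * ∑' x, w x * F x ω t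
      ≤ K * ∫⁻ E : ℝ, ∑' x, w x * G x ω E := by
    intro ω
    have h1 : ∫⁻ t in Ioi (0:ℝ), e t * ∑' x, w x * F x ω t
        = ∑' x, w x * ∫⁻ t in Ioi (0:ℝ), e t * F x ω t := by
      have h2 : ∀ t, e t * ∑' x, w x * F x ω t = ∑' x, w x * (e t * F x ω t) := by
        intro t
        rw [← ENNReal.tsum_mul_left]
        exact tsum_congr fun x => mul_left_comm _ _ _
      have h4 : ∀ x, Measurable fun t => e t * F x ω t := fun x => he.mul (hF' x ω)
      rw [lintegral_congr h2, lintegral_tsum fun x => ((h4 x).const_mul _).aemeasurable]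
      exact tsum_congr fun x => lintegral_const_mul _ (h4 x)
    have h3 : K * ∫⁻ E : ℝ, ∑' x, w x * G x ω E = ∑' x, w x * (K * ∫⁻ E, G x ω E) := by
      rw [lintegral_tsum fun x => ((hG' x ω).const_mul _).aemeasurable, ← ENNReal.tsum_mul_left]
      refine tsum_congr fun x => ?_
      rw [lintegral_const_mul _ (hG' x ω), mul_left_comm]
    rw [h1, h3]
    refine ENNReal.tsum_le_tsum fun x => ?_
    by_cases hx : w x = 0
    · rw [hx, zero_mul]; exact zero_le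
    · gcongr
      exact h ω x hx
  calc ∫⁻ t in Ioi (0:ℝ), e t * ∫⁻ ω, ∑' x, w x * F x ω t ∂P
      = ∫⁻ t in Ioi (0:ℝ), (∫⁻ ω, e t * (∑' x, w x * F x ω t) ∂P) := by
        refine lintegral_congr fun t => ?_
        rw [lintegral_const_mul _ (Measurable.tsum fun x => (hF'' x t).const_mul _)]
    _ = ∫⁻ ω, (∫⁻ t in Ioi (0:ℝ), e t * (∑' x, w x * F x ω t)) ∂P := by
        refine lintegral_lintegral_swap (Measurable.aemeasurable ?_)
        refine (he.comp measurable_fst).mul (Measurable.tsum fun x => Measurable.const_mul ?_ _)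
        exact (hF x).comp measurable_swap
    _ ≤ ∫⁻ ω, (K * ∫⁻ E : ℝ, ∑' x, w x * G x ω E) ∂P := lintegral_mono hω
    _ = K * ∫⁻ ω, (∫⁻ E : ℝ, ∑' x, w x * G x ω E) ∂P := lintegral_const_mul' _ _ hK
    _ = K * ∫⁻ E : ℝ, (∫⁻ ω, ∑' x, w x * G x ω E ∂P) := by
        congr 1
        refine lintegral_lintegral_swap (Measurable.aemeasurable ?_)
        exact Measurable.tsum fun x => (hG x).const_mul _

private theorem planch_meas_U {d : ℕ} {c : ℝ} (hc : 0 < c) (x : Fin d → ℤ) :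
    Measurable (Function.uncurry fun (ω : (Fin d → ℤ) → ℝ) (t : ℝ) =>
      ‖⟪ee d x, Ut (HH d c) ω t (ee d 0)⟫_ℂ‖ₑ ^ 2) := by
  have h1 : Continuous fun p : ((Fin d → ℤ) → ℝ) × ℝ => Ut (HH d c) p.1 p.2 (ee d 0) :=
    continuous_Ut_apply (covOp_HH hc) continuous_fst continuous_snd continuous_const
  have h2 : Continuous fun p : ((Fin d → ℤ) → ℝ) × ℝ =>
      ⟪ee d x, Ut (HH d c) p.1 p.2 (ee d 0)⟫_ℂ := continuous_const.inner h1
  exact h2.enorm.measurable.pow_const 2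

private theorem planch_meas_G {d : ℕ} {c : ℝ} (hc : 0 < c) {η : ℝ} (hη : 0 < η) (x : Fin d → ℤ) :
    Measurable (Function.uncurry fun (ω : (Fin d → ℤ) → ℝ) (E : ℝ) =>
      ‖Gr (ee d) (HH d c) ω (⟨E, η⟩ : ℂ) 0 x‖ₑ ^ 2) := by
  have hz : Continuous fun p : ((Fin d → ℤ) → ℝ) × ℝ => (⟨p.2, η⟩ : ℂ) := by
    have h0 : (fun p : ((Fin d → ℤ) → ℝ) × ℝ => (⟨p.2, η⟩ : ℂ))
        = fun p => (p.2 : ℂ) + (η : ℂ) * I := by
      funext p
      apply Complex.ext <;> simp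
    rw [h0]
    exact (Complex.continuous_ofReal.comp continuous_snd).add continuous_const
  have h1 : Continuous fun p : ((Fin d → ℤ) → ℝ) × ℝ =>
      Gr (ee d) (HH d c) p.1 (⟨p.2, η⟩ : ℂ) 0 x :=
    (model (d := d) hc).continuous_Gr continuous_fst hz (fun _ => hη) 0 x
  exact h1.enorm.measurable.pow_const 2

theorem planch {d : ℕ} {c : ℝ} (hc : 0 < c) {η : ℝ} (hη : 0 < η) :
    ∫⁻ t in Ioi (0:ℝ), ENNReal.ofReal (rexp (-2 * η * t)) *
        ∫⁻ ω, sqd d c t ω ∂(PP (Fin d → ℤ) c) ≤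
      ENNReal.ofReal (1 / (2 * π)) * ∫⁻ E : ℝ, QL.DE d c ⟨E, η⟩ := by
  have := PP_prob (Fin d → ℤ) hc
  refine planch_asm (PP (Fin d → ℤ) c) (fun x : Fin d → ℤ => ENNReal.ofReal (∑ i, (x i : ℝ) ^ 2))
    (fun x ω t => ‖⟪ee d x, Ut (HH d c) ω t (ee d 0)⟫_ℂ‖ₑ ^ 2)
    (fun x ω E => ‖Gr (ee d) (HH d c) ω (⟨E, η⟩ : ℂ) 0 x‖ₑ ^ 2)
    (planch_meas_U hc) (planch_meas_G hc hη) (fun t => ENNReal.ofReal (rexp (-2 * η * t)))
    (ENNReal.measurable_ofReal.comp
      (by fun_prop : Continuous fun t : ℝ => rexp (-2 * η * t)).measurable)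
    _ ENNReal.ofReal_ne_top fun ω x hx => planch_fixed hc hη ω ?_
  rintro rfl
  simp at hx

end Pool.Agent.Lib.MP_562b47_mp.ED
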