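import Pool.Agent.Lib.MP_562b47_mp.ED.Quenched

/-!
MP_562b47: an almost sure bound at every time (a maximal inequality of Rademacher-Menshov type for the
displacement vectors, whose mean square increments are at most `D |t - s|`).
-/

open MeasureTheory Set Filter Topology Complex
open scoped Real ENNReal NNReal InnerProductSpace

set_option linter.unusedSectionVars false

namespace Pool.Agent.Lib.MP_562b47_mp.ED

open Pool.Agent.Lib.MP_562b47_mp

/-- dyadic chaining -/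
theorem q_chain {W : Type*} [NormedAddCommGroup W] : ∀ (k : ℕ) (F : ℕ → W) (m : ℕ), m ≤ 2 ^ k →
    ‖F m - F 0‖ ^ 2 ≤ ((k : ℝ) + 1) * ∑ j ∈ Finset.range (k + 1), ∑ i ∈ Finset.range (2 ^ (k - j)),
      ‖F ((i + 1) * 2 ^ j) - F (i * 2 ^ j)‖ ^ 2 := by
  intro k
  induction k with
  | zero =>
    intro F m hm
    rw [pow_zero] at hm
    rcases Nat.le_one_iff_eq_zero_or_eq_one.1 hm with rfl | rfl
    · rw [sub_self, norm_zero, zero_pow two_ne_zero]
      positivity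
    · simp
  | succ k ih =>
    intro F m hm
    have h1 := ih (fun n => F (2 * n)) (m / 2) (by
      rw [pow_succ] at hm
      omega)
    rw [Finset.sum_range_succ' _ (k + 1)]
    have e1 : ∀ j ∈ Finset.range (k + 1), ∑ i ∈ Finset.range (2 ^ (k + 1 - (j + 1))),
        ‖F ((i + 1) * 2 ^ (j + 1)) - F (i * 2 ^ (j + 1))‖ ^ 2 =
        ∑ i ∈ Finset.range (2 ^ (k - j)), ‖F (2 * ((i + 1) * 2 ^ j)) - F (2 * (i * 2 ^ j))‖ ^ 2 := by
      intro j _
      rw [Nat.add_sub_add_right]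
      refine Finset.sum_congr rfl fun i _ => ?_
      rw [show (i + 1) * 2 ^ (j + 1) = 2 * ((i + 1) * 2 ^ j) by ring,
        show i * 2 ^ (j + 1) = 2 * (i * 2 ^ j) by ring]
    rw [Finset.sum_congr rfl e1]
    set A := ∑ j ∈ Finset.range (k + 1), ∑ i ∈ Finset.range (2 ^ (k - j)),
      ‖F (2 * ((i + 1) * 2 ^ j)) - F (2 * (i * 2 ^ j))‖ ^ 2 with hA
    set B := ∑ i ∈ Finset.range (2 ^ (k + 1 - 0)), ‖F ((i + 1) * 2 ^ 0) - F (i * 2 ^ 0)‖ ^ 2 with hB
    have hB0 : 0 ≤ B := Finset.sum_nonneg fun i _ => sq_nonneg _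
    have hA0 : 0 ≤ A := Finset.sum_nonneg fun j _ => Finset.sum_nonneg fun i _ => sq_nonneg _
    have h2 : ‖F m - F (2 * (m / 2))‖ ^ 2 ≤ B := by
      rcases Nat.even_or_odd' m with ⟨r, hr | hr⟩
      · have : 2 * (m / 2) = m := by omega
        rw [this, sub_self, norm_zero]
        simpa using hB0
      · have e2 : 2 * (m / 2) = 2 * r := by omega
        have e3 : 2 * r ∈ Finset.range (2 ^ (k + 1 - 0)) := by
          rw [Finset.mem_range, Nat.sub_zero]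
          omega
        rw [e2, hr]
        have h3 := Finset.single_le_sum (f := fun i => ‖F ((i + 1) * 2 ^ 0) - F (i * 2 ^ 0)‖ ^ 2)
          (fun i _ => sq_nonneg _) e3
        simp only [pow_zero, mul_one] at h3
        rw [hB]
        simp only [pow_zero, mul_one]
        exact h3
    simp only [mul_zero] at h1
    set a := ‖F (2 * (m / 2)) - F 0‖ with ha
    set b := ‖F m - F (2 * (m / 2))‖ with hb
    have ha0 : 0 ≤ a := norm_nonneg _
    have hb0 : 0 ≤ b := norm_nonneg _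
    have h3 : ‖F m - F 0‖ ≤ a + b := by
      have h4 := norm_add_le (F (2 * (m / 2)) - F 0) (F m - F (2 * (m / 2)))
      have e4 : F (2 * (m / 2)) - F 0 + (F m - F (2 * (m / 2))) = F m - F 0 := by abel
      rwa [e4] at h4
    have h4 : ‖F m - F 0‖ ^ 2 ≤ (a + b) ^ 2 := pow_le_pow_left₀ (norm_nonneg _) h3 2
    have hn : (0 : ℝ) < (k : ℝ) + 1 := by positivity
    push_cast
    have h5 : ((k : ℝ) + 1) * (a + b) ^ 2 ≤ ((k : ℝ) + 1) * (((k : ℝ) + 1 + 1) * (A + B)) := by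
      have h6 := sq_nonneg (a - ((k : ℝ) + 1) * b)
      have h7 := mul_le_mul_of_nonneg_left h1 (show (0:ℝ) ≤ (k : ℝ) + 1 + 1 by positivity)
      have h8 := mul_le_mul_of_nonneg_left h2
        (show (0:ℝ) ≤ ((k : ℝ) + 1) * ((k : ℝ) + 1 + 1) by positivity)
      nlinarith
    exact h4.trans (le_of_mul_le_mul_left h5 hn)

theorem q_chain_e {W : Type*} [NormedAddCommGroup W] (k : ℕ) (F : ℕ → W) {m : ℕ} (hm : m ≤ 2 ^ k) :
    ‖F m - F 0‖ₑ ^ 2 ≤ ENNReal.ofReal ((k : ℝ) + 1) * ∑ j ∈ Finset.range (k + 1),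
      ∑ i ∈ Finset.range (2 ^ (k - j)), ‖F ((i + 1) * 2 ^ j) - F (i * 2 ^ j)‖ₑ ^ 2 := by
  have h1 := ENNReal.ofReal_le_ofReal (q_chain k F m hm)
  have e1 : ∀ w : W, ‖w‖ₑ ^ 2 = ENNReal.ofReal (‖w‖ ^ 2) := fun w => by
    rw [← ofReal_norm, ENNReal.ofReal_pow (norm_nonneg _)]
  simp_rw [e1]
  refine h1.trans (le_of_eq ?_)
  rw [ENNReal.ofReal_mul (by positivity), ENNReal.ofReal_sum_of_nonneg
    fun j _ => Finset.sum_nonneg fun i _ => sq_nonneg _]
  congr 1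
  refine Finset.sum_congr rfl fun j _ => ?_
  rw [ENNReal.ofReal_sum_of_nonneg fun i _ => sq_nonneg _]

variable {d : ℕ} {c : ℝ}

/-- the squared increment of the displacement over the time interval `[s, s+t]` -/
noncomputable def inc (d : ℕ) (c s t : ℝ) (ω : (Fin d → ℤ) → ℝ) : ℝ≥0∞ :=
  ∑ l : Fin d, ‖∫ r in s..(s + t), Js (HH d c) (Jc d l) ω r (ee d 0)‖ₑ ^ 2

theorem meas_inc_l (hc : 0 < c) (s t : ℝ) (l : Fin d) : Measurable fun ω : (Fin d → ℤ) → ℝ =>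
    ‖∫ r in s..(s + t), Js (HH d c) (Jc d l) ω r (ee d 0)‖ₑ ^ 2 := by
  have h1 : Continuous fun ω => AT (HH d c) (Jc d l) (s + t) ω (ee d 0) :=
    (AT_covOp (V := VV d) (model hc).sa (covOp_HH hc) (VV_Jc d l) (s + t)).cont (ee d 0)
  have h2 : Continuous fun ω => AT (HH d c) (Jc d l) s ω (ee d 0) :=
    (AT_covOp (V := VV d) (model hc).sa (covOp_HH hc) (VV_Jc d l) s).cont (ee d 0)
  have h3 := (h1.sub h2).enorm.measurable.pow_const 2
  have e1 : ∀ ω : (Fin d → ℤ) → ℝ, ∫ r in s..(s + t), Js (HH d c) (Jc d l) ω r (ee d 0) =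
      AT (HH d c) (Jc d l) (s + t) ω (ee d 0) - AT (HH d c) (Jc d l) s ω (ee d 0) := by
    intro ω
    rw [AT_apply, AT_apply]
    exact (intervalIntegral.integral_interval_sub_left
      ((cont_Js_apply (H := HH d c) (J := Jc d l) ω (ee d 0)).intervalIntegrable _ _)
      ((cont_Js_apply (H := HH d c) (J := Jc d l) ω (ee d 0)).intervalIntegrable _ _)).symm
  simp_rw [e1]
  exact h3

theorem measurable_inc (hc : 0 < c) (s t : ℝ) : Measurable (inc d c s t) := by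
  unfold inc
  exact Finset.measurable_fun_sum _ fun l _ => meas_inc_l hc s t l

theorem lint_inc (hc : 0 < c) (s : ℝ) {t : ℝ} (ht : 0 ≤ t) :
    ∫⁻ ω, inc d c s t ω ∂(PP (Fin d → ℤ) c) = MM d c t := by
  unfold inc
  rw [lintegral_finsetSum' _ fun l _ => (meas_inc_l hc s t l).aemeasurable, MM_eq hc ht]
  exact Finset.sum_congr rfl fun l _ =>
    ms_shift (model hc) (trans_VV d) (covOp_HH hc) (VV_Jc d l) s t

/-- the sum of the squared dyadic increments in `[0, 2^k]` -/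
noncomputable def SS (d : ℕ) (c : ℝ) (k : ℕ) (ω : (Fin d → ℤ) → ℝ) : ℝ≥0∞ :=
  ∑ j ∈ Finset.range (k + 1), ∑ i ∈ Finset.range (2 ^ (k - j)),
    inc d c ((i * 2 ^ j : ℕ) : ℝ) (2 ^ j) ω

theorem measurable_SS (hc : 0 < c) (k : ℕ) : Measurable (SS d c k) := by
  unfold SS
  exact Finset.measurable_fun_sum _ fun j _ => Finset.measurable_fun_sum _ fun i _ =>
    measurable_inc hc _ _

theorem sqd_chain (hc : 0 < c) (ω : (Fin d → ℤ) → ℝ) {k m : ℕ} (hm : m ≤ 2 ^ k) :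
    sqd d c m ω ≤ ENNReal.ofReal ((k : ℝ) + 1) * SS d c k ω := by
  rw [sqd_eq hc (Nat.cast_nonneg m)]
  have h1 : ∀ l : Fin d, ‖∫ r in (0:ℝ)..m, Js (HH d c) (Jc d l) ω r (ee d 0)‖ₑ ^ 2 ≤
      ENNReal.ofReal ((k : ℝ) + 1) * ∑ j ∈ Finset.range (k + 1), ∑ i ∈ Finset.range (2 ^ (k - j)),
        ‖∫ r in ((i * 2 ^ j : ℕ) : ℝ)..(((i * 2 ^ j : ℕ) : ℝ) + 2 ^ j),
          Js (HH d c) (Jc d l) ω r (ee d 0)‖ₑ ^ 2 := by
    intro l
    have h2 := q_chain_e k (fun n : ℕ => ∫ r in (0:ℝ)..(n : ℝ), Js (HH d c) (Jc d l) ω r (ee d 0)) hm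
    simp only [Nat.cast_zero, intervalIntegral.integral_same, sub_zero] at h2
    refine h2.trans (le_of_eq ?_)
    congr 1
    refine Finset.sum_congr rfl fun j _ => Finset.sum_congr rfl fun i _ => ?_
    congr 2
    rw [intervalIntegral.integral_interval_sub_left
      ((cont_Js_apply (H := HH d c) (J := Jc d l) ω (ee d 0)).intervalIntegrable _ _)
      ((cont_Js_apply (H := HH d c) (J := Jc d l) ω (ee d 0)).intervalIntegrable _ _)]
    congr 1
    push_cast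
    ring
  refine (Finset.sum_le_sum fun l _ => h1 l).trans (le_of_eq ?_)
  rw [← Finset.mul_sum, Finset.sum_comm]
  unfold SS inc
  congr 1
  refine Finset.sum_congr rfl fun j _ => ?_
  rw [Finset.sum_comm]

theorem lint_SS (hc : 0 < c) {D : ℝ}
    (hM : ∀ t : ℝ, 0 ≤ t → MM d c t ≤ ENNReal.ofReal (D * t)) (k : ℕ) :
    ∫⁻ ω, SS d c k ω ∂(PP (Fin d → ℤ) c) ≤ ENNReal.ofReal (((k : ℝ) + 1) * (D * 2 ^ k)) := by
  unfold SS
  rw [lintegral_finsetSum' _ fun j _ => (Finset.measurable_fun_sum _ fun i _ =>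
    measurable_inc hc _ _).aemeasurable]
  have h1 : ∀ j ∈ Finset.range (k + 1), ∫⁻ ω, ∑ i ∈ Finset.range (2 ^ (k - j)),
      inc d c ((i * 2 ^ j : ℕ) : ℝ) (2 ^ j) ω ∂(PP (Fin d → ℤ) c) ≤ ENNReal.ofReal (D * 2 ^ k) := by
    intro j hj
    rw [lintegral_finsetSum' _ fun i _ => (measurable_inc hc _ _).aemeasurable]
    have h2 : ∀ i ∈ Finset.range (2 ^ (k - j)), ∫⁻ ω, inc d c ((i * 2 ^ j : ℕ) : ℝ) (2 ^ j) ω
        ∂(PP (Fin d → ℤ) c) ≤ ENNReal.ofReal (D * 2 ^ j) := by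
      intro i _
      rw [lint_inc hc _ (by positivity)]
      exact hM _ (by positivity)
    refine (Finset.sum_le_sum h2).trans (le_of_eq ?_)
    rw [Finset.sum_const, Finset.card_range, nsmul_eq_mul, ← ENNReal.ofReal_natCast,
      ← ENNReal.ofReal_mul (by positivity)]
    congr 1
    push_cast
    have h3 : j ≤ k := Nat.lt_succ_iff.1 (Finset.mem_range.1 hj)
    have h4 : (2:ℝ) ^ k = 2 ^ (k - j) * 2 ^ j := by
      rw [← pow_add, Nat.sub_add_cancel h3]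
    rw [h4]
    ring
  refine (Finset.sum_le_sum h1).trans (le_of_eq ?_)
  rw [Finset.sum_const, Finset.card_range, nsmul_eq_mul, ← ENNReal.ofReal_natCast,
    ← ENNReal.ofReal_mul (by positivity)]
  congr 1
  push_cast
  ring

/-- the ballistic bound for the increments -/
theorem sqd_lip (hc : 0 < c) : ∃ K : ℝ, 0 ≤ K ∧ ∀ (ω : (Fin d → ℤ) → ℝ) (s t : ℝ), 0 ≤ s → s ≤ t →
    sqd d c t ω ≤ 2 * sqd d c s ω + 2 * ENNReal.ofReal (K * (t - s) ^ 2) := by
  refine ⟨∑ j, ‖Jc d j‖ ^ 2, by positivity, fun ω s t hs hst => ?_⟩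
  rw [sqd_eq hc hs, sqd_eq hc (hs.trans hst), Finset.mul_sum, Finset.sum_mul,
    ENNReal.ofReal_sum_of_nonneg fun j _ => by positivity, Finset.mul_sum, ← Finset.sum_add_distrib]
  refine Finset.sum_le_sum fun l _ => ?_
  have e1 : ∫ r in (0:ℝ)..t, Js (HH d c) (Jc d l) ω r (ee d 0) =
      (∫ r in (0:ℝ)..s, Js (HH d c) (Jc d l) ω r (ee d 0)) +
        ∫ r in s..t, Js (HH d c) (Jc d l) ω r (ee d 0) :=
    (intervalIntegral.integral_add_adjacent_intervals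
      ((cont_Js_apply (H := HH d c) (J := Jc d l) ω (ee d 0)).intervalIntegrable _ _)
      ((cont_Js_apply (H := HH d c) (J := Jc d l) ω (ee d 0)).intervalIntegrable _ _)).symm
  rw [e1]
  refine (pow_le_pow_left₀ zero_le (enorm_add_le _ _) 2).trans ((sq_two _ _).trans ?_)
  refine add_le_add le_rfl ?_
  gcongr
  have h2 : ‖∫ r in s..t, Js (HH d c) (Jc d l) ω r (ee d 0)‖ ≤ ‖Jc d l‖ * |t - s| := by
    refine intervalIntegral.norm_integral_le_of_norm_le_const fun r _ => ?_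
    refine ((Js (HH d c) (Jc d l) ω r).le_opNorm _).trans ?_
    have h3 : ‖ee d 0‖ = 1 := (model (d := d) hc).ortho.norm_eq_one 0
    rw [h3, mul_one]
    exact norm_Js_le ((model hc).sa ω) _ _
  rw [abs_of_nonneg (sub_nonneg.2 hst)] at h2
  rw [← ofReal_norm, ← ENNReal.ofReal_pow (norm_nonneg _), ← mul_pow]
  exact ENNReal.ofReal_le_ofReal (pow_le_pow_left₀ (norm_nonneg _) h2 2)

/-- **Almost sure bound at every time**, for the start at the origin. -/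
theorem q_pt0 (hc : 0 < c) {D : ℝ} (hD : 0 ≤ D)
    (hM : ∀ t : ℝ, 0 ≤ t → MM d c t ≤ ENNReal.ofReal (D * t))
    {ε : ℝ} (hε : 0 < ε) : ∀ᵐ ω ∂(PP (Fin d → ℤ) c), ∃ C : ℝ, 0 ≤ C ∧ ∀ t : ℝ, 1 ≤ t →
      sqd d c t ω ≤ ENNReal.ofReal (C * (t * (1 + Real.log t) ^ (3 + ε))) := by
  have := PP_prob (Fin d → ℤ) hc
  obtain ⟨K, hK, hlip⟩ := sqd_lip (d := d) hc
  set a : ℕ → ℝ := fun k => 1 / (2 ^ k * ((k : ℝ) + 1) ^ (2 + ε)) with ha
  have ha0 : ∀ k, 0 < a k := fun k => by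
    rw [ha]
    positivity
  have hsumm : Summable fun k : ℕ => 1 / ((k : ℝ) + 1) ^ (1 + ε) := by
    have h1 := (Real.summable_one_div_nat_rpow (p := 1 + ε)).2 (by linarith)
    have h2 := (summable_nat_add_iff 1).2 h1
    refine h2.congr fun k => ?_
    push_cast
    rfl
  have hI : ∫⁻ ω, (∑' k : ℕ, ENNReal.ofReal (a k) * SS d c k ω) ∂(PP (Fin d → ℤ) c) < ⊤ := by
    rw [lintegral_tsum fun k => ((measurable_SS hc k).const_mul _).aemeasurable]
    have h1 : ∀ k : ℕ, ∫⁻ ω, ENNReal.ofReal (a k) * SS d c k ω ∂(PP (Fin d → ℤ) c) ≤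
        ENNReal.ofReal (D * (1 / ((k : ℝ) + 1) ^ (1 + ε))) := by
      intro k
      rw [lintegral_const_mul' _ _ ENNReal.ofReal_ne_top]
      refine (mul_le_mul_right (lint_SS hc hM k) _).trans ?_
      rw [← ENNReal.ofReal_mul (ha0 k).le]
      refine le_of_eq (congrArg _ ?_)
      have h2 : ((k : ℝ) + 1) ^ (2 + ε) = ((k : ℝ) + 1) ^ (1 + ε) * ((k : ℝ) + 1) := by
        rw [show (2:ℝ) + ε = (1 + ε) + 1 by ring, Real.rpow_add_one (by positivity)]
      rw [ha]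
      simp only [h2]
      field_simp
    refine lt_of_le_of_lt (ENNReal.tsum_le_tsum h1) ?_
    rw [← ENNReal.ofReal_tsum_of_nonneg (fun k => by positivity) (hsumm.mul_left _)]
    exact ENNReal.ofReal_lt_top
  have hm : Measurable fun ω : (Fin d → ℤ) → ℝ => ∑' k : ℕ, ENNReal.ofReal (a k) * SS d c k ω :=
    Measurable.tsum fun k => (measurable_SS hc k).const_mul _
  filter_upwards [ae_lt_top hm hI.ne] with ω hω
  set S := ∑' k : ℕ, ENNReal.ofReal (a k) * SS d c k ω with hS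
  have hlog2 : 0 < Real.log 2 := Real.log_pos one_lt_two
  have hS0 : 0 ≤ S.toReal := ENNReal.toReal_nonneg
  refine ⟨4 * (2 / Real.log 2) ^ (3 + ε) * S.toReal + 2 * K, by positivity, fun t ht => ?_⟩
  have ht0 : 0 < t := lt_of_lt_of_le one_pos ht
  have hlt : 0 ≤ Real.log t := Real.log_nonneg ht
  obtain ⟨k, hk1, hk2⟩ := exists_nat_pow_near ht one_lt_two
  have hfl : (⌊t⌋₊ : ℝ) ≤ t := Nat.floor_le ht0.le
  have hfl2 : t < (⌊t⌋₊ : ℝ) + 1 := Nat.lt_floor_add_one t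
  have hm2 : ⌊t⌋₊ ≤ 2 ^ (k + 1) := by
    have h1 : (⌊t⌋₊ : ℝ) ≤ ((2 ^ (k + 1) : ℕ) : ℝ) := by
      push_cast
      linarith
    exact_mod_cast h1
  have h1 := sqd_chain (d := d) hc ω hm2
  have h2 : SS d c (k + 1) ω ≤
      ENNReal.ofReal (2 ^ (k + 1) * (((k + 1 : ℕ) : ℝ) + 1) ^ (2 + ε)) * S := by
    have h3 : ENNReal.ofReal (a (k + 1)) * SS d c (k + 1) ω ≤ S := ENNReal.le_tsum (k + 1)
    have h4 := mul_le_mul_right h3
      (ENNReal.ofReal (2 ^ (k + 1) * (((k + 1 : ℕ) : ℝ) + 1) ^ (2 + ε)))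
    rw [← mul_assoc, ← ENNReal.ofReal_mul (by positivity)] at h4
    have h5 : 2 ^ (k + 1) * (((k + 1 : ℕ) : ℝ) + 1) ^ (2 + ε) * a (k + 1) = 1 := by
      rw [ha]
      field_simp
    rwa [h5, ENNReal.ofReal_one, one_mul] at h4
  have h3 := hlip ω (⌊t⌋₊ : ℝ) t (Nat.cast_nonneg _) hfl
  refine h3.trans ?_
  have h4 : 2 * ENNReal.ofReal (K * (t - ⌊t⌋₊) ^ 2) ≤ ENNReal.ofReal (2 * K) := by
    rw [ENNReal.ofReal_mul zero_le_two]
    rw [ENNReal.ofReal_ofNat]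
    gcongr
    have h5 : (t - ⌊t⌋₊) ^ 2 ≤ 1 := by
      have h6 : 0 ≤ t - ⌊t⌋₊ := sub_nonneg.2 hfl
      nlinarith
    nlinarith
  have h5 : 2 * sqd d c (⌊t⌋₊ : ℝ) ω ≤ ENNReal.ofReal (2 * ((((k + 1 : ℕ) : ℝ) + 1) *
      (2 ^ (k + 1) * (((k + 1 : ℕ) : ℝ) + 1) ^ (2 + ε) * S.toReal))) := by
    rw [ENNReal.ofReal_mul zero_le_two, ENNReal.ofReal_ofNat]
    refine mul_le_mul_right (h1.trans ((mul_le_mul_right h2 _).trans (le_of_eq ?_))) 2
    rw [ENNReal.ofReal_mul (show (0:ℝ) ≤ ((k + 1 : ℕ) : ℝ) + 1 by positivity),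
      ENNReal.ofReal_mul (show (0:ℝ) ≤ 2 ^ (k + 1) * (((k + 1 : ℕ) : ℝ) + 1) ^ (2 + ε) by positivity),
      ENNReal.ofReal_toReal hω.ne]
  refine (add_le_add h5 h4).trans ?_
  rw [← ENNReal.ofReal_add (by positivity) (by positivity)]
  refine ENNReal.ofReal_le_ofReal ?_
  have hk3 : (((k + 1 : ℕ) : ℝ) + 1) ≤ 2 / Real.log 2 * (1 + Real.log t) := by
    have h6 := Real.log_le_log (by positivity) hk1
    rw [Real.log_pow] at h6
    have h7 : Real.log 2 ≤ 1 := by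
      have := Real.log_two_lt_d9
      linarith
    rw [div_mul_eq_mul_div, le_div_iff₀ hlog2]
    push_cast
    nlinarith
  have hk4 : (((k + 1 : ℕ) : ℝ) + 1) * (((k + 1 : ℕ) : ℝ) + 1) ^ (2 + ε) ≤
      (2 / Real.log 2) ^ (3 + ε) * (1 + Real.log t) ^ (3 + ε) := by
    have h6 : (((k + 1 : ℕ) : ℝ) + 1) * (((k + 1 : ℕ) : ℝ) + 1) ^ (2 + ε) =
        (((k + 1 : ℕ) : ℝ) + 1) ^ (3 + ε) := by
      rw [show (3:ℝ) + ε = (2 + ε) + 1 by ring, Real.rpow_add_one (by positivity), mul_comm]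
    rw [h6, ← Real.mul_rpow (by positivity) (by positivity)]
    exact Real.rpow_le_rpow (by positivity) hk3 (by linarith)
  have hk5 : (2:ℝ) ^ (k + 1) ≤ 2 * t := by
    rw [pow_succ]
    linarith
  have hL1 : 1 ≤ (1 + Real.log t) ^ (3 + ε) := Real.one_le_rpow (by linarith) (by linarith)
  have hX : 1 ≤ t * (1 + Real.log t) ^ (3 + ε) := by
    nlinarith
  have h6 : (((k + 1 : ℕ) : ℝ) + 1) * (2 ^ (k + 1) * (((k + 1 : ℕ) : ℝ) + 1) ^ (2 + ε) * S.toReal) ≤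
      2 * t * ((2 / Real.log 2) ^ (3 + ε) * (1 + Real.log t) ^ (3 + ε)) * S.toReal := by
    calc _ = 2 ^ (k + 1) * ((((k + 1 : ℕ) : ℝ) + 1) * (((k + 1 : ℕ) : ℝ) + 1) ^ (2 + ε)) * S.toReal := by
          ring
      _ ≤ _ := by gcongr
  calc _ ≤ 2 * (2 * t * ((2 / Real.log 2) ^ (3 + ε) * (1 + Real.log t) ^ (3 + ε)) * S.toReal) +
        2 * K * (t * (1 + Real.log t) ^ (3 + ε)) := by
        refine add_le_add (mul_le_mul_of_nonneg_left h6 zero_le_two) ?_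
        exact le_mul_of_one_le_right (by positivity) hX
    _ = _ := by ring

section span

variable {V : Type*} [NormedAddCommGroup V] [InnerProductSpace ℂ V] [CompleteSpace V]

/-- Almost surely, the second moment is at most `C t (1 + log t)^(3+ε)` at every time `t ≥ 1`, for
every finitely supported initial state. -/
theorem q_pt_all (b : HilbertBasis (Fin d → ℤ) ℂ V) (hc : 0 < c) {D : ℝ} (hD : 0 ≤ D)
    (hM : ∀ t : ℝ, 0 ≤ t → MM d c t ≤ ENNReal.ofReal (D * t)) :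
    ∀ᵐ ω ∂(PP (Fin d → ℤ) c), ∀ ψ ∈ Submodule.span ℂ (Set.range b), ∀ ε : ℝ, 0 < ε →
      ∃ C : ℝ, ∀ t : ℝ, 1 ≤ t →
        ∑' x : Fin d → ℤ, ENNReal.ofReal (∑ i, (x i : ℝ) ^ 2) *
          ‖⟪b x, NormedSpace.exp ((-(t : ℂ) * I) • HB b c ω) ψ⟫_ℂ‖ₑ ^ 2 ≤
        ENNReal.ofReal (C * (t * (1 + Real.log t) ^ (3 + ε))) := by
  have hprob := unif_prob hc
  have h1 : ∀ᵐ ω ∂(PP (Fin d → ℤ) c), ∀ (y : Fin d → ℤ) (n : ℕ), ∃ C : ℝ, 0 ≤ C ∧ ∀ t : ℝ, 1 ≤ t →
      sqd d c t (fun j => ω (j + y)) ≤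
        ENNReal.ofReal (C * (t * (1 + Real.log t) ^ (3 + 1 / ((n : ℝ) + 1)))) := by
    rw [ae_all_iff]
    intro y
    rw [ae_all_iff]
    intro n
    have h2 := q_pt0 (d := d) hc hD hM (ε := 1 / ((n : ℝ) + 1)) (by positivity)
    have h3 : MeasurePreserving (fun ω : (Fin d → ℤ) → ℝ => fun j => ω (j + y))
        (PP (Fin d → ℤ) c) (PP (Fin d → ℤ) c) :=
      measurePreserving_shift (Λ := Fin d → ℤ) (unif c) y
    exact h3.quasiMeasurePreserving.ae h2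
  filter_upwards [h1] with ω hω ψ hψ ε hε
  obtain ⟨s, K, hK, hb⟩ := q_span b hψ
  obtain ⟨n, hn⟩ := exists_nat_one_div_lt hε
  choose C hC0 hC using hω
  refine ⟨K.toReal * ∑ y ∈ s, (C y n + 1), fun t ht => ?_⟩
  have ht0 : 0 < t := lt_of_lt_of_le one_pos ht
  have hlog : 0 ≤ Real.log t := Real.log_nonneg ht
  have hL0 := q_log_pos ht (3 + ε)
  have hL1 : 1 ≤ (1 + Real.log t) ^ (3 + ε) := Real.one_le_rpow (by linarith) (by linarith)
  have hpt : ∑' x : Fin d → ℤ, ENNReal.ofReal (∑ i, (x i : ℝ) ^ 2) *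
      ‖⟪b x, NormedSpace.exp ((-(t : ℂ) * I) • HB b c ω) ψ⟫_ℂ‖ₑ ^ 2 ≤
      K * ∑ y ∈ s, (sqd d c t (fun j => ω (j + y)) + 1) := by
    refine (hb (NormedSpace.exp ((-(t : ℂ) * I) • HB b c ω)) 1 fun y => ?_).trans (le_of_eq ?_)
    · have h3 : ‖Ut (HB b c) ω t (b y)‖ = ‖b y‖ := norm_Ut_apply (isSelfAdjoint_HB b hc ω) t (b y)
      rw [← ofReal_norm]
      change ENNReal.ofReal ‖Ut (HB b c) ω t (b y)‖ ≤ 1
      rw [h3, b.orthonormal.1 y, ENNReal.ofReal_one]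
    · congr 1
      refine Finset.sum_congr rfl fun y _ => ?_
      rw [one_pow, ← q_shift_time hc y t ω]
      congr 1
      refine tsum_congr fun x => ?_
      rw [← b.repr.inner_map_map, repr_exp, repr_b, repr_b]
      rfl
  refine hpt.trans ?_
  have hsum : ∀ y ∈ s, (sqd d c t (fun j => ω (j + y)) + 1) ≤
      ENNReal.ofReal ((C y n + 1) * (t * (1 + Real.log t) ^ (3 + ε))) := by
    intro y _
    rw [add_mul, one_mul, ENNReal.ofReal_add (mul_nonneg (hC0 y n) (by positivity)) (by positivity)]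
    refine add_le_add ((hC y n t ht).trans (ENNReal.ofReal_le_ofReal ?_)) ?_
    · refine mul_le_mul_of_nonneg_left (mul_le_mul_of_nonneg_left ?_ (by positivity)) (hC0 y n)
      exact Real.rpow_le_rpow_of_exponent_le (by linarith) (by linarith)
    · rw [← ENNReal.ofReal_one]
      refine ENNReal.ofReal_le_ofReal ?_
      nlinarith
  refine (mul_le_mul_right (Finset.sum_le_sum hsum) K).trans ?_
  rw [← ENNReal.ofReal_sum_of_nonneg fun y _ => mul_nonneg (by linarith [hC0 y n]) (by positivity),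
    ← Finset.sum_mul, ← ENNReal.ofReal_toReal hK, ← ENNReal.ofReal_mul ENNReal.toReal_nonneg,
    ENNReal.toReal_ofReal ENNReal.toReal_nonneg, mul_assoc]

end span

end Pool.Agent.Lib.MP_562b47_mp.ED
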