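import Pool.Agent.Lib.MP_562b47_mp.ED.Main

/-!
MP_562b47: almost sure forms of the diffusive bounds.
-/

open MeasureTheory Set Filter Topology Complex
open scoped Real ENNReal NNReal InnerProductSpace

set_option linter.unusedSectionVars false

namespace Pool.Agent.Lib.MP_562b47_mp.ED

open Pool.Agent.Lib.MP_562b47_mp

/-! ### Two integrals -/

theorem q_wt_time {ε : ℝ} (hε : 0 < ε) :
    ∫⁻ t in Ioi (1:ℝ), ENNReal.ofReal (1 / (t * (1 + Real.log t) ^ (1 + ε))) < ⊤ := by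
  have hlog : ∀ t : ℝ, 1 ≤ t → 0 < 1 + Real.log t := fun t ht => by
    have := Real.log_nonneg ht
    linarith
  have hder : ∀ t ∈ Ici (1:ℝ), HasDerivAt (fun t => -(1 / ε) * (1 + Real.log t) ^ (-ε))
      (1 / (t * (1 + Real.log t) ^ (1 + ε))) t := by
    intro t ht
    have ht0 : 0 < t := lt_of_lt_of_le one_pos ht
    have hL := hlog t ht
    have h1 : HasDerivAt (fun t : ℝ => 1 + Real.log t) t⁻¹ t :=
      (Real.hasDerivAt_log ht0.ne').const_add 1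
    have h2 := (h1.rpow_const (p := -ε) (Or.inl hL.ne')).const_mul (-(1 / ε))
    refine h2.congr_deriv ?_
    rw [show -ε - 1 = -(1 + ε) by ring, Real.rpow_neg hL.le]
    field_simp
  have hlim : Tendsto (fun t => -(1 / ε) * (1 + Real.log t) ^ (-ε)) atTop (𝓝 (-(1 / ε) * 0)) := by
    refine Tendsto.const_mul _ ?_
    exact (tendsto_rpow_neg_atTop hε).comp
      (tendsto_atTop_add_const_left _ _ Real.tendsto_log_atTop)
  have hint := integrableOn_Ioi_deriv_of_nonneg' hder (fun t ht => by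
    have ht0 : 0 < t := lt_trans one_pos ht
    have hL := hlog t (le_of_lt ht)
    positivity) hlim
  have h3 := hint.2
  rw [hasFiniteIntegral_iff_ofReal] at h3
  · exact h3
  · filter_upwards [ae_restrict_mem measurableSet_Ioi] with t ht
    have ht0 : 0 < t := lt_trans one_pos ht
    have hL := hlog t (le_of_lt ht)
    simp only [Pi.zero_apply]
    positivity

/-! ### Almost sure bounds for the start at the origin -/

variable {d : ℕ} {c : ℝ}

theorem q_log_pos {T : ℝ} (hT : 1 ≤ T) (p : ℝ) : 0 < (1 + Real.log T) ^ p := by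
  have := Real.log_nonneg hT
  positivity

theorem q_time0 (hc : 0 < c) {D : ℝ} (hM : ∀ t : ℝ, 0 ≤ t → MM d c t ≤ ENNReal.ofReal (D * t))
    {ε : ℝ} (hε : 0 < ε) : ∀ᵐ ω ∂(PP (Fin d → ℤ) c), ∃ C : ℝ, 0 ≤ C ∧ ∀ T : ℝ, 1 ≤ T →
      ∫⁻ t in Ioc 0 T, sqd d c t ω ≤ ENNReal.ofReal (C * (T ^ 2 * (1 + Real.log T) ^ (1 + ε))) := by
  have := PP_prob (Fin d → ℤ) hc
  have hms := measurable_sqd (d := d) hc
  -- the two integrals are almost surely finite
  have hw : Measurable fun t : ℝ => ENNReal.ofReal (1 / (t ^ 2 * (1 + Real.log t) ^ (1 + ε))) := by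
    fun_prop
  have hI1 : ∫⁻ ω, (∫⁻ t in Ioi (1:ℝ), ENNReal.ofReal (1 / (t ^ 2 * (1 + Real.log t) ^ (1 + ε)))
      * sqd d c t ω) ∂(PP (Fin d → ℤ) c) < ⊤ := by
    rw [lintegral_lintegral_swap
      (((hw.comp measurable_snd).mul (hms.comp measurable_swap)).aemeasurable)]
    have h1 : ∀ t ∈ Ioi (1:ℝ), ∫⁻ ω, ENNReal.ofReal (1 / (t ^ 2 * (1 + Real.log t) ^ (1 + ε)))
        * sqd d c t ω ∂(PP (Fin d → ℤ) c)
        ≤ ENNReal.ofReal D * ENNReal.ofReal (1 / (t * (1 + Real.log t) ^ (1 + ε))) := by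
      intro t ht
      have ht0 : 0 < t := lt_trans one_pos ht
      have hL := q_log_pos (le_of_lt ht) (1 + ε)
      rw [lintegral_const_mul' _ _ ENNReal.ofReal_ne_top]
      refine (mul_le_mul_right (hM t ht0.le) _).trans ?_
      rw [← ENNReal.ofReal_mul (by positivity)]
      by_cases hD : 0 ≤ D
      · rw [← ENNReal.ofReal_mul hD]
        refine le_of_eq (congrArg _ ?_)
        field_simp
      · push Not at hD
        rw [ENNReal.ofReal_eq_zero.2 hD.le, zero_mul]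
        refine le_of_eq (ENNReal.ofReal_eq_zero.2 ?_)
        exact mul_nonpos_of_nonneg_of_nonpos (by positivity)
          (mul_nonpos_of_nonpos_of_nonneg hD.le ht0.le)
    refine lt_of_le_of_lt (setLIntegral_mono' measurableSet_Ioi h1) ?_
    rw [lintegral_const_mul' _ _ ENNReal.ofReal_ne_top]
    exact ENNReal.mul_lt_top ENNReal.ofReal_lt_top (q_wt_time hε)
  have hI0 : ∫⁻ ω, (∫⁻ t in Ioc (0:ℝ) 1, sqd d c t ω) ∂(PP (Fin d → ℤ) c) < ⊤ := by
    have hu : AEMeasurable (Function.uncurry fun (ω : (Fin d → ℤ) → ℝ) (t : ℝ) => sqd d c t ω)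
        ((PP (Fin d → ℤ) c).prod (volume.restrict (Ioc (0:ℝ) 1))) :=
      (hms.comp measurable_swap).aemeasurable
    rw [lintegral_lintegral_swap hu]
    refine lt_of_le_of_lt (setLIntegral_mono' (g := fun _ => ENNReal.ofReal |D|)
      measurableSet_Ioc fun t ht => ?_) ?_
    · refine (hM t ht.1.le).trans (ENNReal.ofReal_le_ofReal ?_)
      have h1 := le_abs_self D
      have h2 := abs_nonneg D
      nlinarith [ht.1, ht.2, mul_le_mul_of_nonneg_right h1 ht.1.le]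
    · rw [setLIntegral_const]
      exact ENNReal.mul_lt_top ENNReal.ofReal_lt_top measure_Ioc_lt_top
  have hm1 : Measurable fun ω : (Fin d → ℤ) → ℝ => ∫⁻ t in Ioi (1:ℝ),
      ENNReal.ofReal (1 / (t ^ 2 * (1 + Real.log t) ^ (1 + ε))) * sqd d c t ω :=
    ((hw.comp measurable_snd).mul (hms.comp measurable_swap)).lintegral_prod_right'
  have hm0 : Measurable fun ω : (Fin d → ℤ) → ℝ => ∫⁻ t in Ioc (0:ℝ) 1, sqd d c t ω :=
    (hms.comp measurable_swap).lintegral_prod_right'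
  filter_upwards [ae_lt_top hm1 hI1.ne, ae_lt_top hm0 hI0.ne] with ω h1 h0
  set I1 := ∫⁻ t in Ioi (1:ℝ), ENNReal.ofReal (1 / (t ^ 2 * (1 + Real.log t) ^ (1 + ε)))
    * sqd d c t ω with hI1d
  set I0 := ∫⁻ t in Ioc (0:ℝ) 1, sqd d c t ω with hI0d
  refine ⟨I0.toReal + I1.toReal, by positivity, fun T hT => ?_⟩
  have hT0 : 0 < T := lt_of_lt_of_le one_pos hT
  have hLT := q_log_pos hT (1 + ε)
  have hL1 : 1 ≤ (1 + Real.log T) ^ (1 + ε) :=
    Real.one_le_rpow (by linarith [Real.log_nonneg hT]) (by linarith)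
  have hsplit : Ioc (0:ℝ) T = Ioc 0 1 ∪ Ioc 1 T := (Ioc_union_Ioc_eq_Ioc zero_le_one hT).symm
  rw [hsplit]
  refine (lintegral_union_le _ _ _).trans ?_
  have hb : ∫⁻ t in Ioc 1 T, sqd d c t ω
      ≤ ENNReal.ofReal (T ^ 2 * (1 + Real.log T) ^ (1 + ε)) * I1 := by
    have h2 : ∀ t ∈ Ioc 1 T, sqd d c t ω ≤ ENNReal.ofReal (T ^ 2 * (1 + Real.log T) ^ (1 + ε)) *
        (ENNReal.ofReal (1 / (t ^ 2 * (1 + Real.log t) ^ (1 + ε))) * sqd d c t ω) := by
      intro t ht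
      have ht0 : 0 < t := lt_trans one_pos ht.1
      have hLt := q_log_pos ht.1.le (1 + ε)
      rw [← mul_assoc, ← ENNReal.ofReal_mul (by positivity)]
      refine le_mul_of_one_le_left zero_le ?_
      rw [← ENNReal.ofReal_one]
      refine ENNReal.ofReal_le_ofReal ?_
      rw [mul_one_div, one_le_div (by positivity)]
      refine mul_le_mul (pow_le_pow_left₀ ht0.le ht.2 2) ?_ hLt.le (by positivity)
      refine Real.rpow_le_rpow (by linarith [Real.log_nonneg ht.1.le]) ?_ (by linarith)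
      linarith [Real.log_le_log ht0 ht.2]
    refine (setLIntegral_mono' measurableSet_Ioc h2).trans ?_
    rw [lintegral_const_mul' _ _ ENNReal.ofReal_ne_top]
    exact mul_le_mul_right (lintegral_mono_set Ioc_subset_Ioi_self) _
  have ha : I0 ≤ ENNReal.ofReal (T ^ 2 * (1 + Real.log T) ^ (1 + ε)) * I0 := by
    refine le_mul_of_one_le_left zero_le ?_
    rw [← ENNReal.ofReal_one]
    refine ENNReal.ofReal_le_ofReal ?_
    nlinarith [mul_le_mul (one_le_pow₀ (n := 2) hT) hL1 zero_le_one (by positivity)]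
  refine (add_le_add ha hb).trans ?_
  rw [← mul_add, ← ENNReal.ofReal_toReal (ENNReal.add_lt_top.2 ⟨h0, h1⟩).ne,
    ← ENNReal.ofReal_mul (by positivity), ENNReal.toReal_add h0.ne h1.ne]
  exact ENNReal.ofReal_le_ofReal (le_of_eq (by ring))

/-! ### The Green function: a maximal inequality in the distance from the real axis -/

/-- a Cauchy estimate in mean square on the circle of radius `R` -/
theorem q_cauchy {f : ℂ → ℂ} {z₀ w : ℂ} {R : ℝ} (hR : 0 < R)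
    (hf : DiffContOnCl ℂ f (Metric.ball z₀ R)) (hw : ‖w - z₀‖ ≤ R / 2) :
    ‖f w‖ₑ ^ 2 ≤ ENNReal.ofReal (2 / π) *
      ∫⁻ θ in Ioc 0 (2 * π), ‖f (circleMap z₀ R θ)‖ₑ ^ 2 := by
  have hpi := Real.pi_pos
  have hwb : w ∈ Metric.ball z₀ |R| := by
    rw [abs_of_pos hR, Metric.mem_ball, dist_eq_norm]
    linarith
  have hf' : DiffContOnCl ℂ f (Metric.ball z₀ |R|) := by rwa [abs_of_pos hR]
  have hcl : ContinuousOn f (Metric.closedBall z₀ R) := by
    have := hf.continuousOn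
    rwa [closure_ball z₀ hR.ne'] at this
  set g : ℝ → ℝ := fun θ => ‖f (circleMap z₀ R θ)‖ with hg
  have hgc : Continuous g := by
    refine continuous_norm.comp ?_
    exact hcl.comp_continuous (continuous_circleMap z₀ R)
      fun θ => circleMap_mem_closedBall z₀ hR.le θ
  have h1 : ‖f w‖ ≤ (1 / π) * ∫ θ in (0:ℝ)..(2 * π), g θ := by
    have h2 := hf'.circleAverage_smul_div hwb
    rw [← h2, Real.circleAverage, norm_smul, norm_inv, Real.norm_eq_abs, abs_of_pos (by positivity)]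
    have h3 : ‖∫ θ in (0:ℝ)..(2 * π), ((circleMap z₀ R θ - z₀) / (circleMap z₀ R θ - w)) •
        f (circleMap z₀ R θ)‖ ≤ ∫ θ in (0:ℝ)..(2 * π), 2 * g θ := by
      refine intervalIntegral.norm_integral_le_of_norm_le (by positivity) ?_
        ((continuous_const.mul hgc).intervalIntegrable _ _)
      refine Eventually.of_forall fun θ _ => ?_
      rw [norm_smul, norm_div, circleMap_sub_center, norm_circleMap_zero, abs_of_pos hR]
      refine mul_le_mul_of_nonneg_right ?_ (norm_nonneg _)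
      have h4 : R / 2 ≤ ‖circleMap z₀ R θ - w‖ := by
        have h5 : ‖circleMap z₀ R θ - z₀‖ = R := by
          rw [circleMap_sub_center, norm_circleMap_zero, abs_of_pos hR]
        have h6 := norm_sub_norm_le (circleMap z₀ R θ - z₀) (w - z₀)
        rw [sub_sub_sub_cancel_right, h5] at h6
        linarith
      rw [div_le_iff₀ (by linarith)]
      linarith
    rw [intervalIntegral.integral_const_mul] at h3
    calc (2 * π)⁻¹ * _ ≤ (2 * π)⁻¹ * (2 * ∫ θ in (0:ℝ)..(2 * π), g θ) := by gcongr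
      _ = _ := by field_simp
  have h2 : (∫ θ in (0:ℝ)..(2 * π), g θ) ^ 2 ≤ 2 * π * ∫ θ in (0:ℝ)..(2 * π), g θ ^ 2 := by
    set A := ∫ θ in (0:ℝ)..(2 * π), g θ with hA
    have h3 : 0 ≤ ∫ θ in (0:ℝ)..(2 * π), (g θ - A / (2 * π)) ^ 2 :=
      intervalIntegral.integral_nonneg (by positivity) fun θ _ => sq_nonneg _
    have h4 : ∫ θ in (0:ℝ)..(2 * π), (g θ - A / (2 * π)) ^ 2 =
        (∫ θ in (0:ℝ)..(2 * π), g θ ^ 2) - A ^ 2 / (2 * π) := by
      have h5 : ∀ θ, (g θ - A / (2 * π)) ^ 2 = g θ ^ 2 - (2 * (A / (2 * π))) * g θ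
          + (A / (2 * π)) ^ 2 := fun θ => by ring
      simp_rw [h5]
      rw [intervalIntegral.integral_add, intervalIntegral.integral_sub,
        intervalIntegral.integral_const_mul, intervalIntegral.integral_const, ← hA]
      · simp only [sub_zero, smul_eq_mul]
        field_simp
        ring
      · exact (hgc.pow 2).intervalIntegrable _ _
      · exact (continuous_const.mul hgc).intervalIntegrable _ _
      · exact ((hgc.pow 2).sub (continuous_const.mul hgc)).intervalIntegrable _ _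
      · exact continuous_const.intervalIntegrable _ _
    rw [h4] at h3
    have h5 : A ^ 2 / (2 * π) ≤ ∫ θ in (0:ℝ)..(2 * π), g θ ^ 2 := by linarith
    rw [div_le_iff₀ (by positivity)] at h5
    linarith
  have h3 : ‖f w‖ ^ 2 ≤ (2 / π) * ∫ θ in (0:ℝ)..(2 * π), g θ ^ 2 := by
    have h4 := pow_le_pow_left₀ (norm_nonneg _) h1 2
    rw [mul_pow] at h4
    calc ‖f w‖ ^ 2 ≤ (1 / π) ^ 2 * (∫ θ in (0:ℝ)..(2 * π), g θ) ^ 2 := h4
      _ ≤ (1 / π) ^ 2 * (2 * π * ∫ θ in (0:ℝ)..(2 * π), g θ ^ 2) := by gcongr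
      _ = _ := by field_simp
  have h4 : ∫⁻ θ in Ioc 0 (2 * π), ‖f (circleMap z₀ R θ)‖ₑ ^ 2 =
      ENNReal.ofReal (∫ θ in (0:ℝ)..(2 * π), g θ ^ 2) := by
    rw [intervalIntegral.integral_of_le (by positivity),
      ofReal_integral_eq_lintegral_ofReal]
    · refine lintegral_congr fun θ => ?_
      rw [← ofReal_norm, ENNReal.ofReal_pow (norm_nonneg _)]
    · exact ((hgc.pow 2).intervalIntegrable (μ := volume) 0 (2 * π)).1
    · exact Eventually.of_forall fun θ => sq_nonneg _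
  rw [h4, ← ENNReal.ofReal_mul (by positivity), ← ofReal_norm, ← ENNReal.ofReal_pow (norm_nonneg _)]
  exact ENNReal.ofReal_le_ofReal h3

/-- `∑ |x|² |G(0,x;z)|²` -/
noncomputable def sqg (d : ℕ) (c : ℝ) (z : ℂ) (ω : (Fin d → ℤ) → ℝ) : ℝ≥0∞ :=
  ∑' x : Fin d → ℤ, ENNReal.ofReal (∑ i, (x i : ℝ) ^ 2)
    * ‖Gr (ee d) (HH d c) ω z 0 x‖ₑ ^ 2

theorem im_circleMap_ge (z₀ : ℂ) {R : ℝ} (hR : 0 < R) (θ : ℝ) : z₀.im - R ≤ (circleMap z₀ R θ).im := by
  have h1 := circleMap_mem_closedBall z₀ hR.le θ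
  rw [Metric.mem_closedBall, dist_eq_norm] at h1
  have h2 := (Complex.abs_im_le_norm (circleMap z₀ R θ - z₀)).trans h1
  rw [Complex.sub_im] at h2
  linarith [(abs_le.1 h2).1]

theorem im_circleMap_le (z₀ : ℂ) {R : ℝ} (hR : 0 < R) (θ : ℝ) : (circleMap z₀ R θ).im ≤ z₀.im + R := by
  have h1 := circleMap_mem_closedBall z₀ hR.le θ
  rw [Metric.mem_closedBall, dist_eq_norm] at h1
  have h2 := (Complex.abs_im_le_norm (circleMap z₀ R θ - z₀)).trans h1
  rw [Complex.sub_im] at h2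
  linarith [(abs_le.1 h2).2]

theorem measurable_sqg (hc : 0 < c) {z₀ : ℂ} {R : ℝ} (hR : 0 < R) (hz : R < z₀.im) :
    Measurable fun p : ℝ × ((Fin d → ℤ) → ℝ) => sqg d c (circleMap z₀ R p.1) p.2 := by
  unfold sqg
  refine Measurable.tsum fun x => ?_
  refine Measurable.const_mul ?_ _
  have h1 : Continuous fun p : ℝ × ((Fin d → ℤ) → ℝ) =>
      Gr (ee d) (HH d c) p.2 (circleMap z₀ R p.1) 0 x :=
    (model hc).continuous_Gr continuous_snd ((continuous_circleMap z₀ R).comp continuous_fst)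
      (fun p => lt_of_lt_of_le (sub_pos.2 hz) (im_circleMap_ge z₀ hR p.1)) 0 x
  exact h1.enorm.measurable.pow_const 2

theorem sqg_sub (hc : 0 < c) (ω : (Fin d → ℤ) → ℝ) {z₀ w : ℂ} {R : ℝ} (hR : 0 < R)
    (hz : R < z₀.im) (hw : ‖w - z₀‖ ≤ R / 2) :
    sqg d c w ω ≤ ENNReal.ofReal (2 / π) *
      ∫⁻ θ in Ioc 0 (2 * π), sqg d c (circleMap z₀ R θ) ω := by
  have h1 : ∀ x : Fin d → ℤ, ENNReal.ofReal (∑ i, (x i : ℝ) ^ 2)
      * ‖Gr (ee d) (HH d c) ω w 0 x‖ₑ ^ 2 ≤ ENNReal.ofReal (2 / π) *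
        ∫⁻ θ in Ioc 0 (2 * π), ENNReal.ofReal (∑ i, (x i : ℝ) ^ 2)
          * ‖Gr (ee d) (HH d c) ω (circleMap z₀ R θ) 0 x‖ₑ ^ 2 := by
    intro x
    have hd : DiffContOnCl ℂ (fun z => Gr (ee d) (HH d c) ω z 0 x) (Metric.ball z₀ R) := by
      refine DifferentiableOn.diffContOnCl fun z hz' => ?_
      rw [closure_ball z₀ hR.ne', Metric.mem_closedBall, dist_eq_norm] at hz'
      have h2 := (Complex.abs_im_le_norm (z - z₀)).trans hz'
      rw [Complex.sub_im] at h2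
      exact ((model hc).differentiableAt_Gr ω (by linarith [(abs_le.1 h2).1]) 0 x).differentiableWithinAt
    rw [lintegral_const_mul' _ _ ENNReal.ofReal_ne_top, mul_left_comm]
    exact mul_le_mul_right (q_cauchy hR hd hw) _
  unfold sqg
  refine (ENNReal.tsum_le_tsum h1).trans (le_of_eq ?_)
  rw [ENNReal.tsum_mul_left, lintegral_tsum]
  intro x
  have h2 : Continuous fun θ : ℝ => Gr (ee d) (HH d c) ω (circleMap z₀ R θ) 0 x :=
    (model hc).continuous_Gr continuous_const (continuous_circleMap z₀ R)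
      (fun θ => lt_of_lt_of_le (sub_pos.2 hz) (im_circleMap_ge z₀ hR θ)) 0 x
  exact ((h2.enorm.measurable.pow_const 2).const_mul _).aemeasurable

/-- center and radius of the circle for the scale `2 ^ (-k)` -/
noncomputable def zk (E : ℝ) (k : ℕ) : ℂ := ⟨E, 3 / 4 * (1 / 2) ^ k⟩

noncomputable def rk (k : ℕ) : ℝ := 1 / 2 * (1 / 2) ^ k

theorem rk_pos (k : ℕ) : 0 < rk k := by
  unfold rk
  positivity

theorem rk_lt (E : ℝ) (k : ℕ) : rk k < (zk E k).im := by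
  unfold rk zk
  have : (0:ℝ) < (1 / 2) ^ k := by positivity
  simp only
  linarith

/-- the maximal function at the scale `2 ^ (-k)` -/
noncomputable def Mk (d : ℕ) (c E : ℝ) (k : ℕ) (ω : (Fin d → ℤ) → ℝ) : ℝ≥0∞ :=
  ∫⁻ θ in Ioc 0 (2 * π), sqg d c (circleMap (zk E k) (rk k) θ) ω

theorem measurable_Mk (hc : 0 < c) (E : ℝ) (k : ℕ) : Measurable (Mk d c E k) := by
  unfold Mk
  exact ((measurable_sqg (d := d) hc (rk_pos k) (rk_lt E k)).comp
    measurable_swap).lintegral_prod_right'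

theorem lint_Mk (hc : 0 < c) {K E : ℝ} (hG : ∀ z : ℂ, 0 < z.im → z.im ≤ 1 →
    QL.DE d c z ≤ ENNReal.ofReal (K / z.im ^ 2)) (hK : 0 ≤ K) (k : ℕ) :
    ∫⁻ ω, Mk d c E (k + 1) ω ∂(PP (Fin d → ℤ) c) ≤ ENNReal.ofReal (2 * π * (64 * K) * 4 ^ k) := by
  have := PP_prob (Fin d → ℤ) hc
  unfold Mk
  have hu : AEMeasurable (Function.uncurry fun (ω : (Fin d → ℤ) → ℝ) (θ : ℝ) =>
      sqg d c (circleMap (zk E (k + 1)) (rk (k + 1)) θ) ω)
      ((PP (Fin d → ℤ) c).prod (volume.restrict (Ioc (0:ℝ) (2 * π)))) :=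
    ((measurable_sqg (d := d) hc (rk_pos (k + 1)) (rk_lt E (k + 1))).comp
      measurable_swap).aemeasurable
  rw [lintegral_lintegral_swap hu]
  have h1 : ∀ θ : ℝ, ∫⁻ ω, sqg d c (circleMap (zk E (k + 1)) (rk (k + 1)) θ) ω ∂(PP (Fin d → ℤ) c)
      ≤ ENNReal.ofReal (64 * K * 4 ^ k) := by
    intro θ
    have hp : (0:ℝ) < (1 / 2) ^ (k + 1) := by positivity
    have hp1 : ((1:ℝ) / 2) ^ (k + 1) ≤ 1 / 2 := by
      rw [pow_succ]
      have : ((1:ℝ) / 2) ^ k ≤ 1 := pow_le_one₀ (by norm_num) (by norm_num)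
      linarith
    have h2 := im_circleMap_ge (zk E (k + 1)) (rk_pos (k + 1)) θ
    have h3 := im_circleMap_le (zk E (k + 1)) (rk_pos (k + 1)) θ
    have e1 : (zk E (k + 1)).im = 3 / 4 * (1 / 2) ^ (k + 1) := rfl
    have e2 : rk (k + 1) = 1 / 2 * (1 / 2) ^ (k + 1) := rfl
    rw [e1, e2] at h2 h3
    have h4 : 1 / 4 * (1 / 2) ^ (k + 1) ≤ (circleMap (zk E (k + 1)) (rk (k + 1)) θ).im := by
      rw [e2]; linarith
    have h5 : (circleMap (zk E (k + 1)) (rk (k + 1)) θ).im ≤ 1 := by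
      rw [e2]; linarith
    refine (hG _ (lt_of_lt_of_le (by positivity) h4) h5).trans (ENNReal.ofReal_le_ofReal ?_)
    have h6 : K / (circleMap (zk E (k + 1)) (rk (k + 1)) θ).im ^ 2 ≤
        K / (1 / 4 * (1 / 2) ^ (k + 1)) ^ 2 :=
      div_le_div_of_nonneg_left hK (by positivity) (pow_le_pow_left₀ (by positivity) h4 2)
    refine h6.trans (le_of_eq ?_)
    rw [mul_pow, ← pow_mul, mul_comm (k + 1) 2, pow_mul, one_div_pow, one_div_pow, one_div_pow]
    norm_num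
    rw [pow_succ]
    field_simp
    ring
  refine (lintegral_mono h1).trans (le_of_eq ?_)
  rw [setLIntegral_const, Real.volume_Ioc, sub_zero, ← ENNReal.ofReal_mul (by positivity)]
  congr 1
  ring

/-- **Almost sure bound for the Green function at the origin**, all `0 < η ≤ 1/2`. -/
theorem q_eta0 (hc : 0 < c) {K : ℝ} (E : ℝ) (hK : 0 ≤ K) (hG : ∀ z : ℂ, 0 < z.im → z.im ≤ 1 →
    QL.DE d c z ≤ ENNReal.ofReal (K / z.im ^ 2)) {ε : ℝ} (hε : 0 < ε) :
    ∀ᵐ ω ∂(PP (Fin d → ℤ) c), ∃ C : ℝ, 0 ≤ C ∧ ∀ η : ℝ, 0 < η → η ≤ 1 / 2 →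
      sqg d c ⟨E, η⟩ ω ≤ ENNReal.ofReal (C * (Real.log (1 / η) ^ (1 + ε) / η ^ 2)) := by
  have := PP_prob (Fin d → ℤ) hc
  set a : ℕ → ℝ := fun k => 1 / (4 ^ k * ((k : ℝ) + 1) ^ (1 + ε)) with ha
  have ha0 : ∀ k, 0 < a k := fun k => by
    rw [ha]
    positivity
  have hsumm : Summable fun k : ℕ => 1 / ((k : ℝ) + 1) ^ (1 + ε) := by
    have h1 := (Real.summable_one_div_nat_rpow (p := 1 + ε)).2 (by linarith)
    have h2 := (summable_nat_add_iff 1).2 h1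
    refine h2.congr fun k => ?_
    push_cast
    rfl
  have hI : ∫⁻ ω, (∑' k : ℕ, ENNReal.ofReal (a k) * Mk d c E (k + 1) ω) ∂(PP (Fin d → ℤ) c) < ⊤ := by
    rw [lintegral_tsum fun k => ((measurable_Mk hc E (k + 1)).const_mul _).aemeasurable]
    have h1 : ∀ k : ℕ, ∫⁻ ω, ENNReal.ofReal (a k) * Mk d c E (k + 1) ω ∂(PP (Fin d → ℤ) c) ≤
        ENNReal.ofReal (2 * π * (64 * K) * (1 / ((k : ℝ) + 1) ^ (1 + ε))) := by
      intro k
      rw [lintegral_const_mul' _ _ ENNReal.ofReal_ne_top]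
      refine (mul_le_mul_right (lint_Mk hc hG hK k) _).trans ?_
      rw [← ENNReal.ofReal_mul (ha0 k).le]
      refine le_of_eq (congrArg _ ?_)
      rw [ha]
      field_simp
    refine lt_of_le_of_lt (ENNReal.tsum_le_tsum h1) ?_
    rw [← ENNReal.ofReal_tsum_of_nonneg (fun k => by positivity) (hsumm.mul_left _)]
    exact ENNReal.ofReal_lt_top
  have hm : Measurable fun ω : (Fin d → ℤ) → ℝ =>
      ∑' k : ℕ, ENNReal.ofReal (a k) * Mk d c E (k + 1) ω :=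
    Measurable.tsum fun k => (measurable_Mk hc E (k + 1)).const_mul _
  filter_upwards [ae_lt_top hm hI.ne] with ω hω
  set S := ∑' k : ℕ, ENNReal.ofReal (a k) * Mk d c E (k + 1) ω with hS
  refine ⟨4 / (Real.log 2) ^ (1 + ε) * (2 / π * S.toReal), ?_, fun η hη hη2 => ?_⟩
  · have : 0 < Real.log 2 := Real.log_pos one_lt_two
    positivity
  have hlog2 : 0 < Real.log 2 := Real.log_pos one_lt_two
  have hinv : 2 ≤ 1 / η := by
    rw [le_div_iff₀ hη]
    linarith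
  obtain ⟨m, hm1, hm2⟩ := exists_nat_pow_near (show (1:ℝ) ≤ 1 / η by linarith) one_lt_two
  have hm0 : m ≠ 0 := by
    rintro rfl
    simp only [zero_add, pow_one] at hm2
    linarith
  obtain ⟨k, rfl⟩ := Nat.exists_eq_succ_of_ne_zero hm0
  rw [Nat.succ_eq_add_one] at hm1 hm2
  have hp : (0:ℝ) < (1 / 2) ^ (k + 1) := by positivity
  have hup : η ≤ (1 / 2) ^ (k + 1) := by
    rw [one_div_pow, le_div_iff₀ (by positivity)]
    rw [le_div_iff₀ hη] at hm1
    linarith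
  have hlo : 1 / 2 * (1 / 2) ^ (k + 1) ≤ η := by
    rw [← pow_succ', one_div_pow, div_le_iff₀ (by positivity)]
    rw [div_lt_iff₀ hη] at hm2
    linarith
  have hw : ‖(⟨E, η⟩ : ℂ) - zk E (k + 1)‖ ≤ rk (k + 1) / 2 := by
    have h1 : (⟨E, η⟩ : ℂ) - zk E (k + 1) = ((η - 3 / 4 * (1 / 2) ^ (k + 1) : ℝ) : ℂ) * I := by
      unfold zk
      generalize (3:ℝ) / 4 * (1 / 2) ^ (k + 1) = r
      apply Complex.ext
      · rw [Complex.sub_re, Complex.mul_I_re, Complex.ofReal_im, neg_zero]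
        exact sub_self E
      · rw [Complex.sub_im, Complex.mul_I_im, Complex.ofReal_re]
    rw [h1, norm_mul, Complex.norm_I, mul_one, Complex.norm_real, Real.norm_eq_abs, abs_le]
    unfold rk
    constructor <;> linarith
  have h1 := sqg_sub (d := d) hc ω (rk_pos (k + 1)) (rk_lt E (k + 1)) hw
  have h2 : Mk d c E (k + 1) ω ≤ ENNReal.ofReal (4 ^ k * ((k : ℝ) + 1) ^ (1 + ε)) * S := by
    have h3 : ENNReal.ofReal (a k) * Mk d c E (k + 1) ω ≤ S := ENNReal.le_tsum k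
    have h4 := mul_le_mul_right h3 (ENNReal.ofReal (4 ^ k * ((k : ℝ) + 1) ^ (1 + ε)))
    rw [← mul_assoc, ← ENNReal.ofReal_mul (by positivity)] at h4
    have h5 : 4 ^ k * ((k : ℝ) + 1) ^ (1 + ε) * a k = 1 := by
      rw [ha]
      field_simp
    rwa [h5, ENNReal.ofReal_one, one_mul] at h4
  refine h1.trans ((mul_le_mul_right h2 _).trans ?_)
  rw [← ENNReal.ofReal_toReal hω.ne, ← ENNReal.ofReal_mul (by positivity),
    ← ENNReal.ofReal_mul (by positivity), ENNReal.toReal_ofReal ENNReal.toReal_nonneg]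
  refine ENNReal.ofReal_le_ofReal ?_
  have h3 : (4:ℝ) ^ k * ((k : ℝ) + 1) ^ (1 + ε) ≤
      (1 / (Real.log 2) ^ (1 + ε)) * (Real.log (1 / η) ^ (1 + ε) / η ^ 2) := by
    have h4 : (4:ℝ) ^ k ≤ 1 / η ^ 2 := by
      have h5 : (4:ℝ) ^ k ≤ ((2:ℝ) ^ (k + 1)) ^ 2 := by
        rw [← pow_mul, mul_comm, pow_mul]
        norm_num
        rw [pow_succ]
        have : (0:ℝ) < 4 ^ k := by positivity
        linarith
      refine h5.trans ?_
      rw [← one_div_pow]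
      exact pow_le_pow_left₀ (by positivity) hm1 2
    have h5 : ((k : ℝ) + 1) ^ (1 + ε) ≤ (Real.log (1 / η) / Real.log 2) ^ (1 + ε) := by
      refine Real.rpow_le_rpow (by positivity) ?_ (by linarith)
      rw [le_div_iff₀ hlog2]
      have h6 := Real.log_le_log (by positivity) hm1
      rw [Real.log_pow] at h6
      push_cast at h6
      exact h6
    have hl : 0 ≤ Real.log (1 / η) := Real.log_nonneg (by linarith)
    calc (4:ℝ) ^ k * ((k : ℝ) + 1) ^ (1 + ε)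
        ≤ (1 / η ^ 2) * (Real.log (1 / η) / Real.log 2) ^ (1 + ε) := by gcongr
      _ = _ := by
        rw [Real.div_rpow hl hlog2.le]
        ring
  have h6 : 0 ≤ S.toReal := ENNReal.toReal_nonneg
  have hl : 0 ≤ Real.log (1 / η) := Real.log_nonneg (by linarith)
  calc 2 / π * (4 ^ k * ((k : ℝ) + 1) ^ (1 + ε) * S.toReal)
      ≤ 2 / π * ((1 / (Real.log 2) ^ (1 + ε)) * (Real.log (1 / η) ^ (1 + ε) / η ^ 2) * S.toReal) := by
        gcongr
    _ ≤ 4 / (Real.log 2) ^ (1 + ε) * (2 / π * S.toReal) * (Real.log (1 / η) ^ (1 + ε) / η ^ 2) := by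
        have h7 : 0 ≤ 1 / (Real.log 2) ^ (1 + ε) * (2 / π * S.toReal) *
            (Real.log (1 / η) ^ (1 + ε) / η ^ 2) := by positivity
        have h8 : 4 / (Real.log 2) ^ (1 + ε) * (2 / π * S.toReal) *
            (Real.log (1 / η) ^ (1 + ε) / η ^ 2) = 4 * (1 / (Real.log 2) ^ (1 + ε) * (2 / π * S.toReal) *
            (Real.log (1 / η) ^ (1 + ε) / η ^ 2)) := by ring
        rw [h8]
        calc _ = 1 / (Real.log 2) ^ (1 + ε) * (2 / π * S.toReal) *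
            (Real.log (1 / η) ^ (1 + ε) / η ^ 2) := by ring
          _ ≤ _ := by linarith

/-! ### Arbitrary starting points -/

theorem q_shift_time (hc : 0 < c) (y : Fin d → ℤ) (t : ℝ) (ω : (Fin d → ℤ) → ℝ) :
    ∑' x : Fin d → ℤ, ENNReal.ofReal (∑ i, (((x - y) i : ℤ) : ℝ) ^ 2)
      * ‖⟪ee d x, Ut (HH d c) ω t (ee d y)⟫_ℂ‖ₑ ^ 2 = sqd d c t (fun j => ω (j + y)) := by
  unfold sqd
  rw [← (Equiv.addRight y).tsum_eq]
  refine tsum_congr fun x => ?_
  have h1 : (Equiv.addRight y) x = x + y := rfl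
  rw [h1, add_sub_cancel_right]
  congr 3
  have h2 := (trans_VV d).apply y x
  have h3 := (trans_VV d).apply y 0
  rw [zero_add] at h3
  rw [← (VV d y).inner_map_map, h2, ((covOp_HH hc).Ut t).cov y ω, h3]

theorem q_shift_gr (hc : 0 < c) (y : Fin d → ℤ) {z : ℂ} (hz : 0 < z.im) (ω : (Fin d → ℤ) → ℝ) :
    ∑' x : Fin d → ℤ, ENNReal.ofReal (∑ i, (((x - y) i : ℤ) : ℝ) ^ 2)
      * ‖⟪ee d x, Rv (HH d c ω) z (ee d y)⟫_ℂ‖ₑ ^ 2 = sqg d c z (fun j => ω (j + y)) := by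
  unfold sqg
  rw [← (Equiv.addRight y).tsum_eq]
  refine tsum_congr fun x => ?_
  have h1 : (Equiv.addRight y) x = x + y := rfl
  rw [h1, add_sub_cancel_right, (model hc).Gr_symm _ hz 0 x, shiftCov hc y ω _ x 0 hz, zero_add]
  rfl

/-! ### Finitely supported initial states -/

section span

variable {V : Type*} [NormedAddCommGroup V] [InnerProductSpace ℂ V] [CompleteSpace V]

theorem q_span (b : HilbertBasis (Fin d → ℤ) ℂ V) {ψ : V}
    (hψ : ψ ∈ Submodule.span ℂ (Set.range b)) :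
    ∃ (s : Finset (Fin d → ℤ)) (K : ℝ≥0∞), K ≠ ⊤ ∧ ∀ (A : V →L[ℂ] V) (a : ℝ≥0∞),
      (∀ y, ‖A (b y)‖ₑ ≤ a) →
      ∑' x : Fin d → ℤ, ENNReal.ofReal (∑ i, (x i : ℝ) ^ 2) * ‖⟪b x, A ψ⟫_ℂ‖ₑ ^ 2 ≤
        K * ∑ y ∈ s, (∑' x : Fin d → ℤ, ENNReal.ofReal (∑ i, (((x - y) i : ℤ) : ℝ) ^ 2)
          * ‖⟪b x, A (b y)⟫_ℂ‖ₑ ^ 2 + a ^ 2) := by
  have hpars : ∀ u : V, ∑' k, ‖⟪b k, u⟫_ℂ‖ₑ ^ 2 = ‖u‖ₑ ^ 2 := fun u =>
    (cov_enorm_sq b.orthonormal (fun v hv => by
      have h1 : b.repr v = 0 := by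
        ext x
        rw [b.repr_apply_apply]
        exact hv x
      simpa using h1) u).symm
  induction hψ using Submodule.span_induction with
  | mem ψ h =>
    obtain ⟨y, rfl⟩ := h
    refine ⟨{y}, ENNReal.ofReal (2 + 2 * ∑ i, (y i : ℝ) ^ 2), ENNReal.ofReal_ne_top,
      fun A a ha => ?_⟩
    rw [Finset.sum_singleton]
    have h1 : ∀ x : Fin d → ℤ, ENNReal.ofReal (∑ i, (x i : ℝ) ^ 2) * ‖⟪b x, A (b y)⟫_ℂ‖ₑ ^ 2 ≤
        ENNReal.ofReal (2 + 2 * ∑ i, (y i : ℝ) ^ 2) *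
          (ENNReal.ofReal (∑ i, (((x - y) i : ℤ) : ℝ) ^ 2) * ‖⟪b x, A (b y)⟫_ℂ‖ₑ ^ 2
            + ‖⟪b x, A (b y)⟫_ℂ‖ₑ ^ 2) := by
      intro x
      have h2 : ∑ i, (x i : ℝ) ^ 2 ≤ (2 + 2 * ∑ i, (y i : ℝ) ^ 2) *
          (∑ i, (((x - y) i : ℤ) : ℝ) ^ 2 + 1) := by
        have h3 : ∑ i, (x i : ℝ) ^ 2 ≤ 2 * ∑ i, (((x - y) i : ℤ) : ℝ) ^ 2 + 2 * ∑ i, (y i : ℝ) ^ 2 := by
          rw [Finset.mul_sum, Finset.mul_sum, ← Finset.sum_add_distrib]
          refine Finset.sum_le_sum fun i _ => ?_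
          rw [Pi.sub_apply]
          push_cast
          nlinarith [sq_nonneg ((x i : ℝ) - y i - y i)]
        have h4 : 0 ≤ ∑ i, (y i : ℝ) ^ 2 := Finset.sum_nonneg fun i _ => sq_nonneg _
        have h5 : 0 ≤ ∑ i, (((x - y) i : ℤ) : ℝ) ^ 2 := Finset.sum_nonneg fun i _ => sq_nonneg _
        nlinarith [mul_nonneg h4 h5]
      have h5 : 0 ≤ ∑ i, (((x - y) i : ℤ) : ℝ) ^ 2 := Finset.sum_nonneg fun i _ => sq_nonneg _
      have h6 : ENNReal.ofReal (∑ i, (((x - y) i : ℤ) : ℝ) ^ 2) * ‖⟪b x, A (b y)⟫_ℂ‖ₑ ^ 2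
            + ‖⟪b x, A (b y)⟫_ℂ‖ₑ ^ 2 =
          ENNReal.ofReal (∑ i, (((x - y) i : ℤ) : ℝ) ^ 2 + 1) * ‖⟪b x, A (b y)⟫_ℂ‖ₑ ^ 2 := by
        rw [ENNReal.ofReal_add h5 zero_le_one, add_mul, ENNReal.ofReal_one, one_mul]
      rw [h6, ← mul_assoc, ← ENNReal.ofReal_mul (by positivity)]
      exact mul_le_mul_left (ENNReal.ofReal_le_ofReal h2) _
    refine (ENNReal.tsum_le_tsum h1).trans ?_
    rw [ENNReal.tsum_mul_left, ENNReal.tsum_add, hpars]
    gcongr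
    exact ha y
  | zero =>
    refine ⟨∅, 0, ENNReal.zero_ne_top, fun A a ha => ?_⟩
    simp
  | add ψ φ _ _ h1 h2 =>
    obtain ⟨s1, K1, hK1, h1⟩ := h1
    obtain ⟨s2, K2, hK2, h2⟩ := h2
    refine ⟨s1 ∪ s2, 2 * K1 + 2 * K2, by finiteness, fun A a ha => ?_⟩
    have h3 : ∀ x : Fin d → ℤ, ENNReal.ofReal (∑ i, (x i : ℝ) ^ 2) * ‖⟪b x, A (ψ + φ)⟫_ℂ‖ₑ ^ 2 ≤
        2 * (ENNReal.ofReal (∑ i, (x i : ℝ) ^ 2) * ‖⟪b x, A ψ⟫_ℂ‖ₑ ^ 2) +
        2 * (ENNReal.ofReal (∑ i, (x i : ℝ) ^ 2) * ‖⟪b x, A φ⟫_ℂ‖ₑ ^ 2) := by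
      intro x
      rw [map_add, inner_add_right]
      calc _ ≤ ENNReal.ofReal (∑ i, (x i : ℝ) ^ 2) *
            (2 * ‖⟪b x, A ψ⟫_ℂ‖ₑ ^ 2 + 2 * ‖⟪b x, A φ⟫_ℂ‖ₑ ^ 2) := by
              gcongr
              exact (pow_le_pow_left₀ zero_le (enorm_add_le _ _) 2).trans (sq_two _ _)
        _ = _ := by ring
    refine (ENNReal.tsum_le_tsum h3).trans ?_
    rw [ENNReal.tsum_add, ENNReal.tsum_mul_left, ENNReal.tsum_mul_left, add_mul]
    refine add_le_add ?_ ?_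
    · rw [mul_assoc]
      refine mul_le_mul_right ((h1 A a ha).trans ?_) 2
      exact mul_le_mul_right (Finset.sum_le_sum_of_subset Finset.subset_union_left) _
    · rw [mul_assoc]
      refine mul_le_mul_right ((h2 A a ha).trans ?_) 2
      exact mul_le_mul_right (Finset.sum_le_sum_of_subset Finset.subset_union_right) _
  | smul z ψ _ h1 =>
    obtain ⟨s1, K1, hK1, h1⟩ := h1
    refine ⟨s1, ‖z‖ₑ ^ 2 * K1, by finiteness, fun A a ha => ?_⟩
    have h3 : ∀ x : Fin d → ℤ, ENNReal.ofReal (∑ i, (x i : ℝ) ^ 2) * ‖⟪b x, A (z • ψ)⟫_ℂ‖ₑ ^ 2 =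
        ‖z‖ₑ ^ 2 * (ENNReal.ofReal (∑ i, (x i : ℝ) ^ 2) * ‖⟪b x, A ψ⟫_ℂ‖ₑ ^ 2) := by
      intro x
      rw [map_smul, inner_smul_right, enorm_mul]
      ring
    simp_rw [h3]
    rw [ENNReal.tsum_mul_left, mul_assoc]
    exact mul_le_mul_right (h1 A a ha) _

theorem meas_sqd_t (hc : 0 < c) (ω : (Fin d → ℤ) → ℝ) : Measurable fun t : ℝ => sqd d c t ω := by
  have h := (measurable_sqd (d := d) hc).comp
    ((measurable_id (α := ℝ)).prodMk (measurable_const (a := ω)))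
  exact h

/-- Almost surely, the time averages of the second moment are at most `C T (1 + log T)^(1+ε)`, for
every finitely supported initial state. -/
theorem q_time_all (b : HilbertBasis (Fin d → ℤ) ℂ V) (hc : 0 < c) {D : ℝ}
    (hM : ∀ t : ℝ, 0 ≤ t → MM d c t ≤ ENNReal.ofReal (D * t)) :
    ∀ᵐ ω ∂(PP (Fin d → ℤ) c), ∀ ψ ∈ Submodule.span ℂ (Set.range b), ∀ ε : ℝ, 0 < ε →
      ∃ C : ℝ, ∀ T : ℝ, 1 ≤ T →
        ∫⁻ t in Ioc 0 T, ∑' x : Fin d → ℤ, ENNReal.ofReal (∑ i, (x i : ℝ) ^ 2) *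
          ‖⟪b x, NormedSpace.exp ((-(t : ℂ) * I) • HB b c ω) ψ⟫_ℂ‖ₑ ^ 2 ≤
        ENNReal.ofReal (C * (T ^ 2 * (1 + Real.log T) ^ (1 + ε))) := by
  have hprob := unif_prob hc
  have h1 : ∀ᵐ ω ∂(PP (Fin d → ℤ) c), ∀ (y : Fin d → ℤ) (n : ℕ), ∃ C : ℝ, 0 ≤ C ∧ ∀ T : ℝ, 1 ≤ T →
      ∫⁻ t in Ioc 0 T, sqd d c t (fun j => ω (j + y)) ≤
        ENNReal.ofReal (C * (T ^ 2 * (1 + Real.log T) ^ (1 + 1 / ((n : ℝ) + 1)))) := by
    rw [ae_all_iff]
    intro y
    rw [ae_all_iff]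
    intro n
    have h2 := q_time0 (d := d) hc hM (ε := 1 / ((n : ℝ) + 1)) (by positivity)
    have h3 : MeasurePreserving (fun ω : (Fin d → ℤ) → ℝ => fun j => ω (j + y))
        (PP (Fin d → ℤ) c) (PP (Fin d → ℤ) c) :=
      measurePreserving_shift (Λ := Fin d → ℤ) (unif c) y
    exact h3.quasiMeasurePreserving.ae h2
  filter_upwards [h1] with ω hω ψ hψ ε hε
  obtain ⟨s, K, hK, hb⟩ := q_span b hψ
  obtain ⟨n, hn⟩ := exists_nat_one_div_lt hε
  choose C hC0 hC using hω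
  refine ⟨K.toReal * ∑ y ∈ s, (C y n + 1), fun T hT => ?_⟩
  have hT0 : 0 < T := lt_of_lt_of_le one_pos hT
  have hlog : 0 ≤ Real.log T := Real.log_nonneg hT
  have hL0 := q_log_pos hT (1 + ε)
  have hL1 : 1 ≤ (1 + Real.log T) ^ (1 + ε) := Real.one_le_rpow (by linarith) (by linarith)
  have hmeas : ∀ y : Fin d → ℤ, Measurable fun t : ℝ => sqd d c t (fun j => ω (j + y)) := fun y =>
    meas_sqd_t hc _
  have hpt : ∀ t : ℝ, ∑' x : Fin d → ℤ, ENNReal.ofReal (∑ i, (x i : ℝ) ^ 2) *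
      ‖⟪b x, NormedSpace.exp ((-(t : ℂ) * I) • HB b c ω) ψ⟫_ℂ‖ₑ ^ 2 ≤
      K * ∑ y ∈ s, (sqd d c t (fun j => ω (j + y)) + 1) := by
    intro t
    refine (hb (NormedSpace.exp ((-(t : ℂ) * I) • HB b c ω)) 1 fun y => ?_).trans (le_of_eq ?_)
    · have h3 : ‖Ut (HB b c) ω t (b y)‖ = ‖b y‖ := norm_Ut_apply (isSelfAdjoint_HB b hc ω) t (b y)
      rw [← ofReal_norm]
      change ENNReal.ofReal ‖Ut (HB b c) ω t (b y)‖ ≤ 1
      rw [h3, b.orthonormal.1 y, ENNReal.ofReal_one]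
    · congr 1
      refine Finset.sum_congr rfl fun y _ => ?_
      rw [one_pow, ← q_shift_time hc y t ω]
      congr 1
      refine tsum_congr fun x => ?_
      rw [← b.repr.inner_map_map, repr_exp, repr_b, repr_b]
      rfl
  refine (lintegral_mono fun t => hpt t).trans ?_
  rw [lintegral_const_mul' _ _ hK, lintegral_finsetSum' _ fun y _ =>
    ((hmeas y).add_const 1).aemeasurable]
  have hsum : ∀ y ∈ s, ∫⁻ t in Ioc 0 T, (sqd d c t (fun j => ω (j + y)) + 1) ≤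
      ENNReal.ofReal ((C y n + 1) * (T ^ 2 * (1 + Real.log T) ^ (1 + ε))) := by
    intro y _
    rw [lintegral_add_right _ measurable_const, setLIntegral_one, Real.volume_Ioc, sub_zero]
    rw [add_mul, one_mul, ENNReal.ofReal_add (mul_nonneg (hC0 y n) (by positivity)) (by positivity)]
    refine add_le_add ((hC y n T hT).trans (ENNReal.ofReal_le_ofReal ?_))
      (ENNReal.ofReal_le_ofReal ?_)
    · refine mul_le_mul_of_nonneg_left (mul_le_mul_of_nonneg_left ?_ (by positivity)) (hC0 y n)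
      exact Real.rpow_le_rpow_of_exponent_le (by linarith) (by linarith)
    · exact (le_self_pow₀ hT two_ne_zero).trans (le_mul_of_one_le_right (by positivity) hL1)
  refine (mul_le_mul_right (Finset.sum_le_sum hsum) K).trans ?_
  rw [← ENNReal.ofReal_sum_of_nonneg fun y _ => mul_nonneg (by linarith [hC0 y n]) (by positivity),
    ← Finset.sum_mul, ← ENNReal.ofReal_toReal hK, ← ENNReal.ofReal_mul ENNReal.toReal_nonneg,
    ENNReal.toReal_ofReal ENNReal.toReal_nonneg, mul_assoc]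

/-- Almost surely, the second moment of the Green function at the energy `E` is at most
`C η⁻² (log (1/η))^(1+ε)` for all `0 < η ≤ 1/2`, for every finitely supported initial state. -/
theorem q_eta_all (b : HilbertBasis (Fin d → ℤ) ℂ V) (hc : 0 < c) {K : ℝ} (E : ℝ) (hK : 0 ≤ K)
    (hG : ∀ z : ℂ, 0 < z.im → z.im ≤ 1 → QL.DE d c z ≤ ENNReal.ofReal (K / z.im ^ 2)) :
    ∀ᵐ ω ∂(PP (Fin d → ℤ) c), ∀ ψ ∈ Submodule.span ℂ (Set.range b), ∀ ε : ℝ, 0 < ε →
      ∃ C : ℝ, ∀ η : ℝ, 0 < η → η ≤ 1 / 2 →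
        ∑' x : Fin d → ℤ, ENNReal.ofReal (∑ i, (x i : ℝ) ^ 2) *
          ‖⟪b x, Rv (HB b c ω) ⟨E, η⟩ ψ⟫_ℂ‖ₑ ^ 2 ≤
        ENNReal.ofReal (C * (Real.log (1 / η) ^ (1 + ε) / η ^ 2)) := by
  have hprob := unif_prob hc
  have h1 : ∀ᵐ ω ∂(PP (Fin d → ℤ) c), ∀ (y : Fin d → ℤ) (n : ℕ), ∃ C : ℝ, 0 ≤ C ∧
      ∀ η : ℝ, 0 < η → η ≤ 1 / 2 → sqg d c ⟨E, η⟩ (fun j => ω (j + y)) ≤
        ENNReal.ofReal (C * (Real.log (1 / η) ^ (1 + 1 / ((n : ℝ) + 1)) / η ^ 2)) := by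
    rw [ae_all_iff]
    intro y
    rw [ae_all_iff]
    intro n
    have h2 := q_eta0 (d := d) hc E hK hG (ε := 1 / ((n : ℝ) + 1)) (by positivity)
    have h3 : MeasurePreserving (fun ω : (Fin d → ℤ) → ℝ => fun j => ω (j + y))
        (PP (Fin d → ℤ) c) (PP (Fin d → ℤ) c) :=
      measurePreserving_shift (Λ := Fin d → ℤ) (unif c) y
    exact h3.quasiMeasurePreserving.ae h2
  filter_upwards [h1] with ω hω ψ hψ ε hε
  obtain ⟨s, K', hK', hb⟩ := q_span b hψ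
  obtain ⟨n, hn⟩ := exists_nat_one_div_lt hε
  choose C hC0 hC using hω
  have hlog2 : 0 < Real.log 2 := Real.log_pos one_lt_two
  set p : ℝ := 1 + 1 / ((n : ℝ) + 1) with hp
  have hp1 : 1 < p := by
    rw [hp]
    have : 0 < 1 / ((n : ℝ) + 1) := by positivity
    linarith
  -- comparison of the logarithms
  have hcmp : ∀ L : ℝ, Real.log 2 ≤ L → L ^ p ≤ (Real.log 2) ^ p / (Real.log 2) ^ (1 + ε) * L ^ (1 + ε) := by
    intro L hL
    have hL0 : 0 < L := lt_of_lt_of_le hlog2 hL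
    have h2 : 1 ≤ L / Real.log 2 := by rwa [one_le_div hlog2]
    have h3 := Real.rpow_le_rpow_of_exponent_le h2 (show p ≤ 1 + ε by rw [hp]; linarith)
    rw [Real.div_rpow hL0.le hlog2.le, Real.div_rpow hL0.le hlog2.le,
      div_le_iff₀ (by positivity)] at h3
    calc L ^ p ≤ _ := h3
      _ = _ := by ring
  refine ⟨K'.toReal * ∑ y ∈ s, (C y n * ((Real.log 2) ^ p / (Real.log 2) ^ (1 + ε)) +
    1 / (Real.log 2) ^ (1 + ε)), fun η hη hη2 => ?_⟩
  have hL : Real.log 2 ≤ Real.log (1 / η) := by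
    refine Real.log_le_log two_pos ?_
    rw [le_div_iff₀ hη]
    linarith
  have hz : (⟨E, η⟩ : ℂ).im ≠ 0 := hη.ne'
  have h2 := hb (Rv (HB b c ω) ⟨E, η⟩) (ENNReal.ofReal (1 / η)) fun y => by
    have h3 := norm_Rv_le (isSelfAdjoint_HB b hc ω) hz (b y)
    rw [b.orthonormal.1 y, abs_of_pos (show 0 < (⟨E, η⟩ : ℂ).im from hη)] at h3
    rw [← ofReal_norm]
    refine ENNReal.ofReal_le_ofReal ?_
    rw [le_div_iff₀ hη, mul_comm]
    exact h3
  refine h2.trans ?_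
  have h3 : ∀ y ∈ s, (∑' x : Fin d → ℤ, ENNReal.ofReal (∑ i, (((x - y) i : ℤ) : ℝ) ^ 2)
      * ‖⟪b x, Rv (HB b c ω) ⟨E, η⟩ (b y)⟫_ℂ‖ₑ ^ 2 + ENNReal.ofReal (1 / η) ^ 2) ≤
      ENNReal.ofReal ((C y n * ((Real.log 2) ^ p / (Real.log 2) ^ (1 + ε)) +
        1 / (Real.log 2) ^ (1 + ε)) * (Real.log (1 / η) ^ (1 + ε) / η ^ 2)) := by
    intro y _
    have e1 : (∑' x : Fin d → ℤ, ENNReal.ofReal (∑ i, (((x - y) i : ℤ) : ℝ) ^ 2)
        * ‖⟪b x, Rv (HB b c ω) ⟨E, η⟩ (b y)⟫_ℂ‖ₑ ^ 2) = sqg d c ⟨E, η⟩ (fun j => ω (j + y)) := by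
      rw [← q_shift_gr hc y hη ω]
      refine tsum_congr fun x => ?_
      rw [inner_Rv_HB b hc ω hz]
    have hlpos : 0 < Real.log (1 / η) := lt_of_lt_of_le hlog2 hL
    rw [e1, add_mul, ENNReal.ofReal_add (mul_nonneg (mul_nonneg (hC0 y n) (by positivity))
      (by positivity)) (by positivity)]
    refine add_le_add ((hC y n η hη hη2).trans (ENNReal.ofReal_le_ofReal ?_)) ?_
    · rw [mul_assoc]
      refine mul_le_mul_of_nonneg_left ?_ (hC0 y n)
      calc Real.log (1 / η) ^ p / η ^ 2 ≤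
          ((Real.log 2) ^ p / (Real.log 2) ^ (1 + ε) * Real.log (1 / η) ^ (1 + ε)) / η ^ 2 := by
            gcongr
            exact hcmp _ hL
        _ = _ := by ring
    · rw [← ENNReal.ofReal_pow (by positivity)]
      refine ENNReal.ofReal_le_ofReal ?_
      have h4 : (Real.log 2) ^ (1 + ε) ≤ Real.log (1 / η) ^ (1 + ε) :=
        Real.rpow_le_rpow hlog2.le hL (by linarith)
      have h5 : 1 ≤ Real.log (1 / η) ^ (1 + ε) / (Real.log 2) ^ (1 + ε) := by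
        rwa [one_le_div (by positivity)]
      calc (1 / η) ^ 2 = 1 * (1 / η ^ 2) := by rw [one_div_pow, one_mul]
        _ ≤ (Real.log (1 / η) ^ (1 + ε) / (Real.log 2) ^ (1 + ε)) * (1 / η ^ 2) := by gcongr
        _ = _ := by ring
  refine (mul_le_mul_right (Finset.sum_le_sum h3) K').trans ?_
  have hlpos : 0 < Real.log (1 / η) := lt_of_lt_of_le hlog2 hL
  rw [← ENNReal.ofReal_sum_of_nonneg fun y _ => mul_nonneg (add_nonneg (mul_nonneg (hC0 y n)
    (by positivity)) (by positivity)) (by positivity),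
    ← Finset.sum_mul, ← ENNReal.ofReal_toReal hK', ← ENNReal.ofReal_mul ENNReal.toReal_nonneg,
    ENNReal.toReal_ofReal ENNReal.toReal_nonneg, mul_assoc]


end span

end Pool.Agent.Lib.MP_562b47_mp.ED
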